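import Mathlib

/-!
A lower bound of Chebyshev for the number of primes in `[Q, 4 Q]`.
-/

set_option autoImplicit false

namespace Pool.Agent.TH194.MR

open Finset Filter

/-- the primes of `[Q, 4 Q]` -/
noncomputable def PR (Q : ℝ) : Finset ℕ := (Finset.Icc ⌈Q⌉₊ ⌊4 * Q⌋₊).filter Nat.Prime

theorem mem_PR {Q : ℝ} (hQ : 1 ≤ Q) {p : ℕ} (hp : p ∈ PR Q) : p.Prime ∧ Q ≤ p ∧ (p : ℝ) ≤ 4 * Q := by
  rw [PR, Finset.mem_filter, Finset.mem_Icc] at hp
  obtain ⟨⟨h1, h2⟩, h3⟩ := hp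
  exact ⟨h3, Nat.ceil_le.1 h1, (Nat.le_floor_iff (by linarith)).1 h2⟩

theorem PR_pos {Q : ℝ} (hQ : 1 ≤ Q) : 1 ≤ (PR Q).card := by
  have hc : ⌈Q⌉₊ ≠ 0 := (Nat.ceil_pos.2 (by linarith)).ne'
  obtain ⟨p, hp, h1, h2⟩ := Nat.exists_prime_lt_and_le_two_mul ⌈Q⌉₊ hc
  refine Finset.card_pos.2 ⟨p, ?_⟩
  rw [PR, Finset.mem_filter, Finset.mem_Icc]
  refine ⟨⟨h1.le, Nat.le_floor ?_⟩, hp⟩
  have h3 : (⌈Q⌉₊ : ℝ) < Q + 1 := Nat.ceil_lt_add_one (by linarith)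
  have h4 : (p : ℝ) ≤ 2 * ⌈Q⌉₊ := by exact_mod_cast h2
  linarith

theorem theta_diff {Q : ℝ} (hQ : 1 ≤ Q) :
    Chebyshev.theta (4 * Q) - Chebyshev.theta Q ≤ (PR Q).card * Real.log (4 * Q) := by
  have hsub : Finset.filter Nat.Prime (Finset.Ioc 0 ⌊4 * Q⌋₊) ⊆
      Finset.filter Nat.Prime (Finset.Ioc 0 ⌊Q⌋₊) ∪ PR Q := by
    intro p hp
    rw [Finset.mem_filter, Finset.mem_Ioc] at hp
    obtain ⟨⟨h1, h2⟩, h3⟩ := hp
    rw [Finset.mem_union, Finset.mem_filter, Finset.mem_Ioc, PR, Finset.mem_filter,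
      Finset.mem_Icc]
    by_cases h : p ≤ ⌊Q⌋₊
    · exact Or.inl ⟨⟨h1, h⟩, h3⟩
    · refine Or.inr ⟨⟨?_, h2⟩, h3⟩
      push Not at h
      exact Nat.ceil_le.2 (Nat.lt_of_floor_lt h).le
  have h1 : Chebyshev.theta (4 * Q) ≤ Chebyshev.theta Q + ∑ p ∈ PR Q, Real.log (p : ℝ) := by
    unfold Chebyshev.theta
    refine (Finset.sum_le_sum_of_subset_of_nonneg hsub fun p _ _ =>
      Real.log_natCast_nonneg p).trans ?_
    have h0 := Finset.sum_union_inter (s₁ := Finset.filter Nat.Prime (Finset.Ioc 0 ⌊Q⌋₊))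
      (s₂ := PR Q) (f := fun p : ℕ => Real.log (p : ℝ))
    have h1 : 0 ≤ ∑ p ∈ Finset.filter Nat.Prime (Finset.Ioc 0 ⌊Q⌋₊) ∩ PR Q, Real.log (p : ℝ) :=
      Finset.sum_nonneg fun p _ => Real.log_natCast_nonneg p
    linarith
  have h2 : ∑ p ∈ PR Q, Real.log (p : ℝ) ≤ ∑ p ∈ PR Q, Real.log (4 * Q) := by
    refine Finset.sum_le_sum fun p hp => ?_
    obtain ⟨e1, e2, e3⟩ := mem_PR hQ hp
    exact Real.log_le_log (by linarith) e3
  rw [Finset.sum_const, nsmul_eq_mul] at h2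
  linarith

theorem cheb_large : ∀ᶠ Q : ℝ in atTop,
    Q * Real.log 2 ≤ Chebyshev.theta (4 * Q) - Chebyshev.theta Q := by
  have hlog2 : 0 < Real.log 2 := Real.log_pos one_lt_two
  have hlo := (isLittleO_log_rpow_atTop (show (0 : ℝ) < 1 / 2 by norm_num)).bound
    (show (0 : ℝ) < Real.log 2 / 16 by positivity)
  filter_upwards [hlo, eventually_ge_atTop (16 : ℝ)] with Q h1 h2
  have hQ0 : (0 : ℝ) < Q := by linarith
  have hlQ : 0 ≤ Real.log Q := Real.log_nonneg (by linarith)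
  rw [Real.norm_of_nonneg hlQ, Real.norm_of_nonneg (by positivity), ← Real.sqrt_eq_rpow] at h1
  have e1 := Chebyshev.theta_ge' (x := 4 * Q) (by linarith)
  have e2 := Chebyshev.theta_le_log4_mul_x (x := Q) (by linarith)
  have e3 : Real.log 4 = 2 * Real.log 2 := by
    rw [show (4 : ℝ) = 2 ^ 2 by norm_num, Real.log_pow]; norm_num
  have e4 : Real.log (4 * Q) ≤ 2 * Real.log Q := by
    rw [← Real.log_rpow hQ0]
    refine Real.log_le_log (by linarith) ?_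
    rw [Real.rpow_two]; nlinarith
  have e5 : Real.log (4 * Q + 2) ≤ 2 * Real.log Q := by
    rw [← Real.log_rpow hQ0]
    refine Real.log_le_log (by linarith) ?_
    rw [Real.rpow_two]; nlinarith
  have e6 : √(4 * Q) = 2 * √Q := by
    rw [Real.sqrt_mul (by norm_num), show (4 : ℝ) = 2 ^ 2 by norm_num,
      Real.sqrt_sq (by norm_num)]
  have e7 : √Q * √Q = Q := Real.mul_self_sqrt hQ0.le
  have e8 : (4 : ℝ) ≤ √Q := by
    rw [show (4 : ℝ) = √(4 ^ 2) by rw [Real.sqrt_sq (by norm_num)]]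
    exact Real.sqrt_le_sqrt (by linarith)
  have e9 : √Q * Real.log Q ≤ Real.log 2 / 16 * Q := by
    calc √Q * Real.log Q ≤ √Q * (Real.log 2 / 16 * √Q) :=
          mul_le_mul_of_nonneg_left h1 (by linarith)
      _ = Real.log 2 / 16 * (√Q * √Q) := by ring
      _ = _ := by rw [e7]
  have e10 : 4 * Real.log Q ≤ √Q * Real.log Q := mul_le_mul_of_nonneg_right e8 hlQ
  have e11 : 2 * √(4 * Q) * Real.log (4 * Q) ≤ 8 * (√Q * Real.log Q) := by
    rw [e6]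
    calc 2 * (2 * √Q) * Real.log (4 * Q) ≤ 2 * (2 * √Q) * (2 * Real.log Q) :=
          mul_le_mul_of_nonneg_left e4 (by positivity)
      _ = _ := by ring
  rw [e3] at e2
  nlinarith

/-- **primes in `[Q, 4 Q]`** -/
theorem card_PR : ∃ c : ℝ, 0 < c ∧ ∀ Q : ℝ, 1 ≤ Q → c * Q / Real.log (4 * Q) ≤ (PR Q).card := by
  obtain ⟨Q0, hQ0⟩ := eventually_atTop.1 cheb_large
  have hlog2 : 0 < Real.log 2 := Real.log_pos one_lt_two
  obtain ⟨Q1, hQ1⟩ : ∃ Q1, Q1 = max Q0 1 := ⟨_, rfl⟩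
  have hQ11 : 1 ≤ Q1 := by rw [hQ1]; exact le_max_right _ _
  obtain ⟨c, hc⟩ : ∃ c, c = min (Real.log 2) (Real.log 2 / Q1) := ⟨_, rfl⟩
  have hc0 : 0 < c := by rw [hc]; positivity
  refine ⟨c, hc0, fun Q hQ => ?_⟩
  have hl : 0 < Real.log (4 * Q) := Real.log_pos (by linarith)
  rw [div_le_iff₀ hl]
  by_cases h : Q0 ≤ Q
  · have h1 := hQ0 Q h
    have h2 := theta_diff hQ
    have h3 : c * Q ≤ Real.log 2 * Q := by
      refine mul_le_mul_of_nonneg_right ?_ (by linarith)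
      rw [hc]; exact min_le_left _ _
    linarith
  · push Not at h
    have h1 : (1 : ℝ) ≤ (PR Q).card := by exact_mod_cast PR_pos hQ
    have h2 : Real.log 2 ≤ Real.log (4 * Q) := Real.log_le_log (by norm_num) (by linarith)
    have h3 : Q ≤ Q1 := by rw [hQ1]; exact h.le.trans (le_max_left _ _)
    have h4 : c * Q ≤ Real.log 2 / Q1 * Q1 := by
      refine mul_le_mul ?_ h3 (by linarith) (by positivity)
      rw [hc]; exact min_le_right _ _
    rw [div_mul_cancel₀ _ (by linarith)] at h4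
    nlinarith

end Pool.Agent.TH194.MR
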