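import Pool.Agent.TH194.MR.Prime
import Pool.Agent.TH867.SR.LB

/-!
The integers which divide the product of a triple with a small radical: counting.
-/

set_option autoImplicit false

namespace Pool.Agent.TH194.MR

open Finset
open Pool.Agent.TH867.SR (Tr N3 rr rr_sum log_prod_primes smooth_count)
open Pool.Agent.TH867.SB (all_heights)

/-- the product of the primes dividing `n` -/
def rad (n : ℕ) : ℕ := ∏ p ∈ n.primeFactors, p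

theorem rad_pos (n : ℕ) : 0 < rad n :=
  Finset.prod_pos fun _ hp => (Nat.prime_of_mem_primeFactors hp).pos

theorem rad_pf (n : ℕ) : (rad n).primeFactors = n.primeFactors :=
  Nat.primeFactors_prod fun _ hq => Nat.prime_of_mem_primeFactors hq

theorem rad_le {n : ℕ} (hn : n ≠ 0) : rad n ≤ n :=
  Nat.le_of_dvd (Nat.pos_of_ne_zero hn) (Nat.prod_primeFactors_dvd n)

/-- counting divisors of few numbers -/
theorem count_dvd (ε : ℝ) (hε : 0 < ε) : ∃ D : ℝ, 0 < D ∧ ∀ (N : ℕ) (Z : ℝ), 1 ≤ N → 1 ≤ Z →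
    ∀ E M : Finset ℕ, (∀ n ∈ E, 1 ≤ n ∧ n ≤ N ∧ ∃ m ∈ M, n ∣ m) →
    (∀ m ∈ M, m ≠ 0 ∧ (rad m : ℝ) ≤ Z) →
    (E.card : ℝ) ≤ D * (N : ℝ) ^ ε * Z ^ ε * M.card := by
  classical
  obtain ⟨D, hD, h⟩ := smooth_count ε hε
  refine ⟨D, hD, fun N Z hN hZ E M hE hM => ?_⟩
  have hsub : E ⊆ M.biUnion fun m => (Finset.Icc 1 N).filter fun a =>
      a.primeFactors ⊆ (rad m).primeFactors := by
    intro n hn
    obtain ⟨h1, h2, m, hm, hd⟩ := hE n hn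
    rw [Finset.mem_biUnion]
    refine ⟨m, hm, Finset.mem_filter.2 ⟨Finset.mem_Icc.2 ⟨h1, h2⟩, ?_⟩⟩
    rw [rad_pf]
    exact Nat.primeFactors_mono hd (hM m hm).1
  have h1 : (E.card : ℝ) ≤ ∑ m ∈ M, (((Finset.Icc 1 N).filter fun a =>
      a.primeFactors ⊆ (rad m).primeFactors).card : ℝ) := by
    exact_mod_cast (Finset.card_le_card hsub).trans Finset.card_biUnion_le
  have h2 : ∀ m ∈ M, (((Finset.Icc 1 N).filter fun a =>
      a.primeFactors ⊆ (rad m).primeFactors).card : ℝ) ≤ D * (N : ℝ) ^ ε * Z ^ ε := by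
    intro m hm
    refine (h N (rad m) hN (rad_pos m)).trans ?_
    refine mul_le_mul_of_nonneg_left ?_ (by positivity)
    exact Real.rpow_le_rpow (Nat.cast_nonneg _) (hM m hm).2 hε.le
  refine h1.trans ((Finset.sum_le_sum h2).trans (le_of_eq ?_))
  rw [Finset.sum_const, nsmul_eq_mul]
  ring

/-- `(a, b, c)` is an abc triple -/
def Triple (a b c : ℕ) : Prop := 0 < a ∧ 0 < b ∧ a + b = c ∧ Nat.gcd a b = 1

theorem to_tr {a b c : ℕ} (h : Triple a b c) : ∃ t : Fin 3 → ℕ, Tr t ∧ N3 t = a * b * c := by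
  obtain ⟨ha, hb, hc, hg⟩ := h
  rcases le_total a b with hab | hab
  · exact ⟨![a, b, c], ⟨ha, hab, hg, hc⟩, rfl⟩
  · refine ⟨![b, a, c], ⟨hb, hab, ?_, ?_⟩, ?_⟩
    · show Nat.Coprime b a
      exact Nat.Coprime.symm hg
    · show b + a = c
      omega
    · show b * a * c = a * b * c
      ring

theorem rr_rad {t : Fin 3 → ℕ} (h : Tr t) :
    rr t 0 + rr t 1 + rr t 2 = Real.log (rad (N3 t)) := by
  rw [← rr_sum h, ← log_prod_primes fun q hq => Nat.prime_of_mem_primeFactors hq]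
  rfl

/-- a finite set of triples for a finite set of integers -/
theorem pick (E : Finset ℕ) (X : ℝ) (hX : 0 < X) (R : ℕ → ℕ → Prop)
    (hE : ∀ n ∈ E, ∃ a b c : ℕ, Triple a b c ∧ n ∣ a * b * c ∧ (rad (a * b * c) : ℝ) ≤ X ∧
      R n (a * b * c)) :
    ∃ F : Finset (Fin 3 → ℕ), (∀ t ∈ F, Tr t ∧ rr t 0 + rr t 1 + rr t 2 ≤ Real.log X ∧
      (rad (N3 t) : ℝ) ≤ X ∧ ∃ n ∈ E, R n (N3 t)) ∧ ∀ n ∈ E, ∃ t ∈ F, n ∣ N3 t := by
  classical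
  have hex : ∀ n ∈ E, ∃ t : Fin 3 → ℕ, Tr t ∧ (rad (N3 t) : ℝ) ≤ X ∧ n ∣ N3 t ∧ R n (N3 t) := by
    intro n hn
    obtain ⟨a, b, c, h1, h2, h3, h4⟩ := hE n hn
    obtain ⟨t, ht, hN⟩ := to_tr h1
    exact ⟨t, ht, by rw [hN]; exact h3, by rw [hN]; exact h2, by rw [hN]; exact h4⟩
  choose! f hf1 hf2 hf3 hf4 using hex
  refine ⟨E.image f, fun t ht => ?_, fun n hn => ⟨f n, Finset.mem_image_of_mem _ hn, hf3 n hn⟩⟩
  obtain ⟨n, hn, rfl⟩ := Finset.mem_image.1 ht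
  refine ⟨hf1 n hn, ?_, hf2 n hn, n, hn, hf4 n hn⟩
  rw [rr_rad (hf1 n hn)]
  exact Real.log_le_log (by exact_mod_cast rad_pos _) (hf2 n hn)

/-- the integers up to `N` dividing the product of a triple of radical at most `X` -/
theorem count_all (ε : ℝ) (hε : 0 < ε) : ∃ D : ℝ, 0 < D ∧ ∀ (N : ℕ) (X : ℝ), 1 ≤ N → 1 ≤ X →
    ∀ E : Finset ℕ, (∀ n ∈ E, 1 ≤ n ∧ n ≤ N ∧ ∃ a b c : ℕ, Triple a b c ∧ n ∣ a * b * c ∧
      (rad (a * b * c) : ℝ) ≤ X) →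
    (E.card : ℝ) ≤ D * (N : ℝ) ^ ε * X ^ (2 / 3 + 2 * ε) := by
  classical
  obtain ⟨D1, hD1, h1⟩ := count_dvd ε hε
  obtain ⟨D2, hD2, h2⟩ := all_heights ε hε
  refine ⟨D1 * D2, by positivity, fun N X hN hX E hE => ?_⟩
  have hX0 : 0 < X := by linarith
  obtain ⟨F, hF1, hF2⟩ := pick E X hX0 (fun _ _ => True) (fun n hn => by
    obtain ⟨-, -, a, b, c, e1, e2, e3⟩ := hE n hn
    exact ⟨a, b, c, e1, e2, e3, trivial⟩)
  have h3 := h1 N X hN hX E (F.image N3) (fun n hn => by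
      obtain ⟨e1, e2, -⟩ := hE n hn
      obtain ⟨t, ht, hd⟩ := hF2 n hn
      exact ⟨e1, e2, N3 t, Finset.mem_image_of_mem _ ht, hd⟩) (fun m hm => by
      obtain ⟨t, ht, rfl⟩ := Finset.mem_image.1 hm
      exact ⟨(hF1 t ht).1.N3_pos.ne', (hF1 t ht).2.2.1⟩)
  have h4 := h2 X hX F fun t ht => ⟨(hF1 t ht).1, (hF1 t ht).2.1⟩
  have h5 : ((F.image N3).card : ℝ) ≤ F.card := by exact_mod_cast Finset.card_image_le
  calc (E.card : ℝ) ≤ D1 * (N : ℝ) ^ ε * X ^ ε * (D2 * X ^ (2 / 3 + ε)) :=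
        h3.trans (mul_le_mul_of_nonneg_left (h5.trans h4) (by positivity))
    _ = D1 * D2 * (N : ℝ) ^ ε * (X ^ ε * X ^ (2 / 3 + ε)) := by ring
    _ = _ := by
        rw [← Real.rpow_add hX0]
        congr 2
        ring

/-- the same with a prime factor in a dyadic interval -/
theorem count_prime (ε : ℝ) (hε : 0 < ε) : ∃ D : ℝ, 0 < D ∧ ∀ (N : ℕ) (Y P : ℝ), 1 ≤ N → 1 ≤ Y →
    1 ≤ P → ∀ E : Finset ℕ, (∀ n ∈ E, 1 ≤ n ∧ n ≤ N ∧ ∃ p : ℕ, p.Prime ∧ P ≤ p ∧ (p : ℝ) ≤ 2 * P ∧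
      p ∣ n ∧ ∃ a b c : ℕ, Triple a b c ∧ n ∣ a * b * c ∧ (rad (a * b * c) : ℝ) ≤ Y * p) →
    (E.card : ℝ) ≤ D * (N : ℝ) ^ ε * (2 * P * Y) ^ (2 * ε) * Y := by
  classical
  obtain ⟨D1, hD1, h1⟩ := count_dvd ε hε
  obtain ⟨D2, hD2, h2⟩ := prime_all ε hε
  refine ⟨2 * (D1 * D2), by positivity, fun N Y P hN hY hP E hE => ?_⟩
  obtain ⟨X, hX⟩ : ∃ X, X = 2 * P * Y := ⟨_, rfl⟩
  have hP0 : 0 < P := by linarith
  have hY0 : 0 < Y := by linarith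
  have hX1 : 1 ≤ X := by rw [hX]; nlinarith
  have hX0 : 0 < X := by linarith
  obtain ⟨F, hF1, hF2⟩ := pick E X hX0 (fun n m => ∃ p : ℕ, p.Prime ∧ P ≤ p ∧ p ∣ m)
    (fun n hn => by
    obtain ⟨-, -, p, p1, p2, p3, p4, a, b, c, e1, e2, e3⟩ := hE n hn
    refine ⟨a, b, c, e1, e2, e3.trans ?_, p, p1, p2, p4.trans e2⟩
    rw [hX]
    nlinarith)
  have h3 := h1 N X hN hX1 E (F.image N3) (fun n hn => by
      obtain ⟨e1, e2, -⟩ := hE n hn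
      obtain ⟨t, ht, hd⟩ := hF2 n hn
      exact ⟨e1, e2, N3 t, Finset.mem_image_of_mem _ ht, hd⟩) (fun m hm => by
      obtain ⟨t, ht, rfl⟩ := Finset.mem_image.1 hm
      exact ⟨(hF1 t ht).1.N3_pos.ne', (hF1 t ht).2.2.1⟩)
  have h4 := h2 X P hX1 hP F fun t ht => by
    obtain ⟨e1, e2, -, n, -, p, p1, p2, p3⟩ := hF1 t ht
    exact ⟨e1, e2, p, p1, p3, p2⟩
  have h5 : ((F.image N3).card : ℝ) ≤ F.card := by exact_mod_cast Finset.card_image_le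
  have h6 : X / P = 2 * Y := by rw [hX]; field_simp
  rw [h6] at h4
  calc (E.card : ℝ) ≤ D1 * (N : ℝ) ^ ε * X ^ ε * (D2 * X ^ ε * (2 * Y)) :=
        h3.trans (mul_le_mul_of_nonneg_left (h5.trans h4) (by positivity))
    _ = 2 * (D1 * D2) * (N : ℝ) ^ ε * (X ^ ε * X ^ ε) * Y := by ring
    _ = _ := by
        rw [← Real.rpow_add hX0, ← hX]
        congr 3
        ring

/-- the integers dividing `a b (a + b) ≠ 0` for small integers `a`, `b` of any sign -/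
theorem count_short (ε : ℝ) (hε : 0 < ε) : ∃ D : ℝ, 0 < D ∧ ∀ (N : ℕ) (Y : ℕ), 1 ≤ N → 1 ≤ Y →
    ∀ E : Finset ℕ, (∀ n ∈ E, 1 ≤ n ∧ n ≤ N ∧ ∃ a b : ℤ, a * b * (a + b) ≠ 0 ∧ |a| ≤ Y ∧ |b| ≤ Y ∧
      (n : ℤ) ∣ a * b * (a + b)) →
    (E.card : ℝ) ≤ D * (N : ℝ) ^ ε * (2 * (Y : ℝ) ^ 3) ^ ε * (Y : ℝ) ^ 2 := by
  classical
  obtain ⟨D1, hD1, h1⟩ := count_dvd ε hε
  refine ⟨9 * D1, by positivity, fun N Y hN hY E hE => ?_⟩
  have hY1 : (1 : ℝ) ≤ Y := by exact_mod_cast hY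
  obtain ⟨B, hB⟩ : ∃ B, B = (Finset.Icc (-(Y : ℤ)) Y) ×ˢ (Finset.Icc (-(Y : ℤ)) Y) := ⟨_, rfl⟩
  obtain ⟨M, hM⟩ : ∃ M, M = (B.filter fun v => v.1 * v.2 * (v.1 + v.2) ≠ 0).image
    fun v => (v.1 * v.2 * (v.1 + v.2)).natAbs := ⟨_, rfl⟩
  have hBc : B.card = (2 * Y + 1) ^ 2 := by
    rw [hB, Finset.card_product, Int.card_Icc, sq]
    congr 1 <;> omega
  have hMc : (M.card : ℝ) ≤ 9 * (Y : ℝ) ^ 2 := by
    have e1 : M.card ≤ (2 * Y + 1) ^ 2 := by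
      rw [hM, ← hBc]
      exact Finset.card_image_le.trans (Finset.card_filter_le _ _)
    have e2 : (M.card : ℝ) ≤ (2 * Y + 1) ^ 2 := by exact_mod_cast e1
    nlinarith
  have h3 := h1 N (2 * (Y : ℝ) ^ 3) hN (by nlinarith [one_le_pow₀ hY1 (n := 3)]) E M (fun n hn => by
      obtain ⟨e1, e2, a, b, e3, e4, e5, e6⟩ := hE n hn
      refine ⟨e1, e2, (a * b * (a + b)).natAbs, ?_, Int.natCast_dvd.1 e6⟩
      rw [hM, Finset.mem_image]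
      refine ⟨(a, b), ?_, rfl⟩
      rw [Finset.mem_filter, hB, Finset.mem_product, Finset.mem_Icc, Finset.mem_Icc]
      exact ⟨⟨abs_le.1 e4, abs_le.1 e5⟩, e3⟩) (fun m hm => by
      rw [hM, Finset.mem_image] at hm
      obtain ⟨⟨a, b⟩, hv, rfl⟩ := hm
      rw [Finset.mem_filter, hB, Finset.mem_product, Finset.mem_Icc, Finset.mem_Icc] at hv
      obtain ⟨⟨hv1, hv2⟩, hv3⟩ := hv
      simp only at hv1 hv2 hv3 ⊢
      have hne : (a * b * (a + b)).natAbs ≠ 0 := Int.natAbs_ne_zero.2 hv3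
      refine ⟨hne, ?_⟩
      have h4 : (rad (a * b * (a + b)).natAbs : ℝ) ≤ ((a * b * (a + b)).natAbs : ℕ) := by
        exact_mod_cast rad_le hne
      refine h4.trans ?_
      have h5 : (a * b * (a + b)).natAbs ≤ Y * Y * (2 * Y) := by
        rw [Int.natAbs_mul, Int.natAbs_mul]
        refine Nat.mul_le_mul (Nat.mul_le_mul ?_ ?_) ?_ <;> omega
      calc (((a * b * (a + b)).natAbs : ℕ) : ℝ) ≤ ((Y * Y * (2 * Y) : ℕ) : ℝ) := by
            exact_mod_cast h5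
        _ = 2 * (Y : ℝ) ^ 3 := by push_cast; ring)
  calc (E.card : ℝ) ≤ D1 * (N : ℝ) ^ ε * (2 * (Y : ℝ) ^ 3) ^ ε * (9 * (Y : ℝ) ^ 2) :=
        h3.trans (mul_le_mul_of_nonneg_left hMc (by positivity))
    _ = _ := by ring

end Pool.Agent.TH194.MR
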