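import Pool.Agent.TH194.MR.Cnt

/-!
Solutions of `A X + B Y = C Z` with a small radical, for almost all coefficients.
-/

set_option autoImplicit false

namespace Pool.Agent.TH194.MR

open Finset
open Pool.Agent.TH867.SR (Tr N3 rr smooth_count)
open Pool.Agent.TH867.SB (all_heights)

/-- the reduction to a triple, no common factors -/
theorem core {A B C X Y Z : ℕ} (hA : 0 < A) (hB : 0 < B) (hC : 0 < C) (hX : 0 < X) (hY : 0 < Y)
    (hZ : 0 < Z) (ha : ∀ p : ℕ, p.Prime → p ∣ A → p ∣ B → p ∣ C → False)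
    (hx : ∀ p : ℕ, p.Prime → p ∣ X → p ∣ Y → p ∣ Z → False) (h : A * X + B * Y = C * Z) :
    ∃ r a b c : ℕ, 1 ≤ r ∧ r ≤ rad (X * Y * Z) ∧ Triple a b c ∧
      (∀ p : ℕ, p.Prime → p ∣ A * B * C → p ∣ a * b * c * r) ∧
      r ^ 2 * rad (a * b * c) ≤ A * B * C * rad (X * Y * Z) := by
  classical
  obtain ⟨g, hg⟩ : ∃ g, g = Nat.gcd (A * X) (B * Y) := ⟨_, rfl⟩
  have hAX : 0 < A * X := by positivity
  have hBY : 0 < B * Y := by positivity
  have hg0 : 0 < g := by rw [hg]; exact Nat.gcd_pos_of_pos_left _ hAX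
  obtain ⟨a, ha'⟩ : g ∣ A * X := by rw [hg]; exact Nat.gcd_dvd_left _ _
  obtain ⟨b, hb'⟩ : g ∣ B * Y := by rw [hg]; exact Nat.gcd_dvd_right _ _
  obtain ⟨c, hc'⟩ : g ∣ C * Z := by rw [← h, ha', hb']; exact Dvd.intro (a + b) (by ring)
  have hcop : Nat.gcd a b = 1 := by
    have h1 := Nat.coprime_div_gcd_div_gcd (m := A * X) (n := B * Y) (by rw [← hg]; exact hg0)
    rw [← hg, ha', hb', Nat.mul_div_cancel_left _ hg0, Nat.mul_div_cancel_left _ hg0] at h1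
    exact h1
  have habc : a + b = c := by
    have h1 : g * (a + b) = g * c := by rw [mul_add, ← ha', ← hb', ← hc']; exact h
    exact Nat.eq_of_mul_eq_mul_left hg0 h1
  have ha0 : 0 < a := Nat.pos_of_ne_zero (by rintro rfl; simp at ha'; omega)
  have hb0 : 0 < b := Nat.pos_of_ne_zero (by rintro rfl; simp at hb'; omega)
  have hc0 : 0 < c := by omega
  have hm0 : a * b * c ≠ 0 := by positivity
  have hw0 : X * Y * Z ≠ 0 := by positivity
  have hABC : A * B * C ≠ 0 := by positivity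
  obtain ⟨S, hS⟩ : ∃ S : Finset ℕ, S = (X * Y * Z).primeFactors \ (a * b * c).primeFactors :=
    ⟨_, rfl⟩
  obtain ⟨T, hT⟩ : ∃ T : Finset ℕ, T = (a * b * c).primeFactors \ (X * Y * Z).primeFactors :=
    ⟨_, rfl⟩
  obtain ⟨W, hW⟩ : ∃ W : Finset ℕ, W = (X * Y * Z).primeFactors ∩ (a * b * c).primeFactors :=
    ⟨_, rfl⟩
  have memS : ∀ p, p ∈ S ↔ p.Prime ∧ p ∣ X * Y * Z ∧ ¬ p ∣ a * b * c := by
    intro p
    rw [hS, Finset.mem_sdiff, Nat.mem_primeFactors, Nat.mem_primeFactors]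
    constructor
    · rintro ⟨⟨h1, h2, -⟩, h3⟩
      exact ⟨h1, h2, fun h4 => h3 ⟨h1, h4, hm0⟩⟩
    · rintro ⟨h1, h2, h3⟩
      exact ⟨⟨h1, h2, hw0⟩, fun h4 => h3 h4.2.1⟩
  have memT : ∀ p, p ∈ T ↔ p.Prime ∧ p ∣ a * b * c ∧ ¬ p ∣ X * Y * Z := by
    intro p
    rw [hT, Finset.mem_sdiff, Nat.mem_primeFactors, Nat.mem_primeFactors]
    constructor
    · rintro ⟨⟨h1, h2, -⟩, h3⟩
      exact ⟨h1, h2, fun h4 => h3 ⟨h1, h4, hw0⟩⟩
    · rintro ⟨h1, h2, h3⟩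
      exact ⟨⟨h1, h2, hm0⟩, fun h4 => h3 h4.2.1⟩
  have hradw : rad (X * Y * Z) = (∏ p ∈ W, p) * ∏ p ∈ S, p := by
    rw [rad, hW, hS]
    exact (Finset.prod_inter_mul_prod_sdiff _ _ _).symm
  have hradm : rad (a * b * c) = (∏ p ∈ W, p) * ∏ p ∈ T, p := by
    rw [rad, hW, hT, Finset.inter_comm]
    exact (Finset.prod_inter_mul_prod_sdiff _ _ _).symm
  have hdvd3 : ∀ p : ℕ, p.Prime → ∀ x y z : ℕ, p ∣ x * y * z ↔ p ∣ x ∨ p ∣ y ∨ p ∣ z := by
    intro p hp x y z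
    rw [hp.dvd_mul, hp.dvd_mul, or_assoc]
  have hTsub : T ⊆ (A * B * C).primeFactors := by
    intro p hp
    obtain ⟨h1, h2, h3⟩ := (memT p).1 hp
    rw [hdvd3 p h1] at h2 h3
    push Not at h3
    rw [Nat.mem_primeFactors]
    refine ⟨h1, (hdvd3 p h1 _ _ _).2 ?_, hABC⟩
    rcases h2 with h4 | h4 | h4
    · left
      have : p ∣ A * X := by rw [ha']; exact h4.mul_left g
      rcases (h1.dvd_mul).1 this with h5 | h5
      · exact h5
      · exact absurd h5 h3.1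
    · right; left
      have : p ∣ B * Y := by rw [hb']; exact h4.mul_left g
      rcases (h1.dvd_mul).1 this with h5 | h5
      · exact h5
      · exact absurd h5 h3.2.1
    · right; right
      have : p ∣ C * Z := by rw [hc']; exact h4.mul_left g
      rcases (h1.dvd_mul).1 this with h5 | h5
      · exact h5
      · exact absurd h5 h3.2.2
  have hSsub : S ⊆ (A * B * C).primeFactors := by
    intro p hp
    obtain ⟨h1, h2, h3⟩ := (memS p).1 hp
    rw [hdvd3 p h1] at h2 h3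
    push Not at h3
    rw [Nat.mem_primeFactors]
    refine ⟨h1, ?_, hABC⟩
    by_contra hno
    rw [hdvd3 p h1] at hno
    push Not at hno
    have hpg : ¬ p ∣ g := by
      intro hpg
      have e1 : p ∣ A * X := by rw [ha']; exact hpg.mul_right a
      have e2 : p ∣ B * Y := by rw [hb']; exact hpg.mul_right b
      have e3 : p ∣ C * Z := by rw [hc']; exact hpg.mul_right c
      exact hx p h1 (((h1.dvd_mul).1 e1).resolve_left hno.1)
        (((h1.dvd_mul).1 e2).resolve_left hno.2.1) (((h1.dvd_mul).1 e3).resolve_left hno.2.2)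
    rcases h2 with h4 | h4 | h4
    · have e1 : p ∣ g * a := by rw [← ha']; exact h4.mul_left A
      exact h3.1 (((h1.dvd_mul).1 e1).resolve_left hpg)
    · have e1 : p ∣ g * b := by rw [← hb']; exact h4.mul_left B
      exact h3.2.1 (((h1.dvd_mul).1 e1).resolve_left hpg)
    · have e1 : p ∣ g * c := by rw [← hc']; exact h4.mul_left C
      exact h3.2.2 (((h1.dvd_mul).1 e1).resolve_left hpg)
  have hprime : ∀ p ∈ S, p.Prime := fun p hp => ((memS p).1 hp).1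
  have hdisj : Disjoint S T := by
    rw [Finset.disjoint_left]
    intro p h1 h2
    exact ((memS p).1 h1).2.2 ((memT p).1 h2).2.1
  have hW0 : 0 < ∏ p ∈ W, p := by
    refine Finset.prod_pos fun p hp => ?_
    rw [hW, Finset.mem_inter] at hp
    exact (Nat.prime_of_mem_primeFactors hp.1).pos
  have hr0 : 0 < ∏ p ∈ S, p := Finset.prod_pos fun p hp => (hprime p hp).pos
  refine ⟨∏ p ∈ S, p, a, b, c, hr0, ?_, ⟨ha0, hb0, habc, hcop⟩, ?_, ?_⟩
  · rw [hradw]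
    exact Nat.le_mul_of_pos_left _ hW0
  · intro p hp hpABC
    by_cases hpm : p ∣ a * b * c
    · exact hpm.mul_right _
    · refine Dvd.dvd.mul_left ?_ _
      refine Finset.dvd_prod_of_mem (fun q => q) ((memS p).2 ⟨hp, ?_, hpm⟩)
      by_contra hpw
      rw [hdvd3 p hp] at hpABC hpm hpw
      push Not at hpm hpw
      have hpg : p ∣ g := by
        rcases hpABC with h4 | h4 | h4
        · have e1 : p ∣ g * a := by rw [← ha']; exact h4.mul_right X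
          exact ((hp.dvd_mul).1 e1).resolve_right hpm.1
        · have e1 : p ∣ g * b := by rw [← hb']; exact h4.mul_right Y
          exact ((hp.dvd_mul).1 e1).resolve_right hpm.2.1
        · have e1 : p ∣ g * c := by rw [← hc']; exact h4.mul_right Z
          exact ((hp.dvd_mul).1 e1).resolve_right hpm.2.2
      have e1 : p ∣ A * X := by rw [ha']; exact hpg.mul_right a
      have e2 : p ∣ B * Y := by rw [hb']; exact hpg.mul_right b
      have e3 : p ∣ C * Z := by rw [hc']; exact hpg.mul_right c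
      exact ha p hp (((hp.dvd_mul).1 e1).resolve_right hpw.1)
        (((hp.dvd_mul).1 e2).resolve_right hpw.2.1) (((hp.dvd_mul).1 e3).resolve_right hpw.2.2)
  · have h1 : (∏ p ∈ S, p) * ∏ p ∈ T, p ≤ A * B * C := by
      rw [← Finset.prod_union hdisj]
      refine (Nat.le_of_dvd (rad_pos _) ?_).trans (rad_le hABC)
      exact Finset.prod_dvd_prod_of_subset _ _ _ (Finset.union_subset hSsub hTsub)
    rw [hradw, hradm]
    calc (∏ p ∈ S, p) ^ 2 * ((∏ p ∈ W, p) * ∏ p ∈ T, p) =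
        ((∏ p ∈ S, p) * ∏ p ∈ T, p) * ((∏ p ∈ W, p) * ∏ p ∈ S, p) := by ring
      _ ≤ A * B * C * ((∏ p ∈ W, p) * ∏ p ∈ S, p) := Nat.mul_le_mul_right _ h1

/-- the reduction to a triple -/
theorem core2 {A B C X Y Z : ℕ} (hA : 0 < A) (hB : 0 < B) (hC : 0 < C) (hX : 0 < X) (hY : 0 < Y)
    (hZ : 0 < Z) (h : A * X + B * Y = C * Z) :
    ∃ d r a b c A' B' C' : ℕ, 1 ≤ d ∧ A = d * A' ∧ B = d * B' ∧ C = d * C' ∧
      1 ≤ r ∧ r ≤ rad (X * Y * Z) ∧ Triple a b c ∧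
      (∀ p : ℕ, p.Prime → p ∣ A' * B' * C' → p ∣ a * b * c * r) ∧
      d ^ 3 * r ^ 2 * rad (a * b * c) ≤ A * B * C * rad (X * Y * Z) := by
  classical
  have key : ∀ x y z : ℕ, 0 < x → 0 < y → 0 < z → ∃ t x' y' z' : ℕ, 0 < t ∧ x = t * x' ∧
      y = t * y' ∧ z = t * z' ∧ 0 < x' ∧ 0 < y' ∧ 0 < z' ∧
      ∀ p : ℕ, p.Prime → p ∣ x' → p ∣ y' → p ∣ z' → False := by
    intro x y z hx hy hz
    obtain ⟨t, ht⟩ : ∃ t, t = Nat.gcd x (Nat.gcd y z) := ⟨_, rfl⟩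
    have ht0 : 0 < t := by rw [ht]; exact Nat.gcd_pos_of_pos_left _ hx
    obtain ⟨x', hx'⟩ : t ∣ x := by rw [ht]; exact Nat.gcd_dvd_left _ _
    obtain ⟨y', hy'⟩ : t ∣ y := by
      rw [ht]; exact (Nat.gcd_dvd_right _ _).trans (Nat.gcd_dvd_left _ _)
    obtain ⟨z', hz'⟩ : t ∣ z := by
      rw [ht]; exact (Nat.gcd_dvd_right _ _).trans (Nat.gcd_dvd_right _ _)
    refine ⟨t, x', y', z', ht0, hx', hy', hz', ?_, ?_, ?_, ?_⟩
    · exact Nat.pos_of_ne_zero (by rintro rfl; simp at hx'; omega)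
    · exact Nat.pos_of_ne_zero (by rintro rfl; simp at hy'; omega)
    · exact Nat.pos_of_ne_zero (by rintro rfl; simp at hz'; omega)
    · intro p hp h1 h2 h3
      have h4 : t * p ∣ t := by
        nth_rewrite 2 [ht]
        refine Nat.dvd_gcd ?_ (Nat.dvd_gcd ?_ ?_)
        · rw [hx']; exact Nat.mul_dvd_mul_left _ h1
        · rw [hy']; exact Nat.mul_dvd_mul_left _ h2
        · rw [hz']; exact Nat.mul_dvd_mul_left _ h3
      have h5 := Nat.le_of_dvd ht0 h4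
      have h6 := hp.two_le
      nlinarith
  obtain ⟨d, A', B', C', hd, hA', hB', hC', a1, a2, a3, a4⟩ := key A B C hA hB hC
  obtain ⟨t, X', Y', Z', ht, hX', hY', hZ', b1, b2, b3, b4⟩ := key X Y Z hX hY hZ
  have heq : A' * X' + B' * Y' = C' * Z' := by
    have h1 : d * t * (A' * X' + B' * Y') = d * t * (C' * Z') := by
      calc d * t * (A' * X' + B' * Y') = (d * A') * (t * X') + (d * B') * (t * Y') := by ring
        _ = A * X + B * Y := by rw [← hA', ← hB', ← hX', ← hY']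
        _ = C * Z := h
        _ = (d * C') * (t * Z') := by rw [← hC', ← hZ']
        _ = _ := by ring
    exact Nat.eq_of_mul_eq_mul_left (by positivity) h1
  obtain ⟨r, a, b, c, c1, c2, c3, c4, c5⟩ := core a1 a2 a3 b1 b2 b3 a4 b4 heq
  have hrad : rad (X' * Y' * Z') ≤ rad (X * Y * Z) := by
    unfold rad
    refine Finset.prod_le_prod_of_subset_of_one_le' ?_ fun q hq _ =>
      (Nat.prime_of_mem_primeFactors hq).one_le
    refine Nat.primeFactors_mono ?_ (by positivity)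
    rw [hX', hY', hZ']
    exact Nat.mul_dvd_mul (Nat.mul_dvd_mul (dvd_mul_left _ _) (dvd_mul_left _ _)) (dvd_mul_left _ _)
  refine ⟨d, r, a, b, c, A', B', C', hd, hA', hB', hC', c1, c2.trans hrad, c3, c4, ?_⟩
  calc d ^ 3 * r ^ 2 * rad (a * b * c) = d ^ 3 * (r ^ 2 * rad (a * b * c)) := by ring
    _ ≤ d ^ 3 * (A' * B' * C' * rad (X' * Y' * Z')) := Nat.mul_le_mul_left _ c5
    _ ≤ d ^ 3 * (A' * B' * C' * rad (X * Y * Z)) :=
        Nat.mul_le_mul_left _ (Nat.mul_le_mul_left _ hrad)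
    _ = (d * A') * (d * B') * (d * C') * rad (X * Y * Z) := by ring
    _ = _ := by rw [← hA', ← hB', ← hC']

theorem harm (n : ℕ) : ∑ i ∈ Finset.Icc 1 n, 1 / (i : ℝ) ≤ 1 + Real.log n := by
  have h := harmonic_le_one_add_log n
  rw [harmonic_eq_sum_Icc] at h
  push_cast at h
  simpa [one_div] using h

theorem harm_pow {ε : ℝ} (hε : 0 < ε) {n : ℕ} {W : ℝ} (hn : 1 ≤ n) (hW : (n : ℝ) ≤ W) :
    ∑ i ∈ Finset.Icc 1 n, 1 / (i : ℝ) ≤ (1 + 1 / ε) * W ^ ε := by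
  have hn1 : (1 : ℝ) ≤ n := by exact_mod_cast hn
  have h1 := Real.log_le_rpow_div (x := (n : ℝ)) (by linarith) hε
  have h2 : (n : ℝ) ^ ε ≤ W ^ ε := Real.rpow_le_rpow (by linarith) hW hε.le
  have h3 : 1 ≤ W ^ ε := Real.one_le_rpow (by linarith) hε.le
  calc ∑ i ∈ Finset.Icc 1 n, 1 / (i : ℝ) ≤ 1 + Real.log n := harm n
    _ ≤ W ^ ε + W ^ ε / ε := by
        refine add_le_add h3 (h1.trans ?_)
        exact div_le_div_of_nonneg_right h2 hε.le
    _ = _ := by ring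

/-- the coefficients of a solution with a small radical -/
theorem count_pos (ε : ℝ) (hε : 0 < ε) : ∃ D : ℝ, 0 < D ∧ ∀ (N : ℕ) (R : ℝ), 1 ≤ N → 1 ≤ R →
    ∀ E : Finset (ℕ × ℕ × ℕ), (∀ e ∈ E, 1 ≤ e.1 ∧ e.1 ≤ N ∧ 1 ≤ e.2.1 ∧ e.2.1 ≤ N ∧
      1 ≤ e.2.2 ∧ e.2.2 ≤ N ∧ ∃ X Y Z : ℕ, 0 < X ∧ 0 < Y ∧ 0 < Z ∧
        e.1 * X + e.2.1 * Y = e.2.2 * Z ∧ (rad (X * Y * Z) : ℝ) ≤ R) →
    (E.card : ℝ) ≤ D * ((N : ℝ) ^ 3 * R) ^ (2 / 3 + 9 * ε) := by
  classical
  obtain ⟨D1, hD1, hsm⟩ := smooth_count ε hε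
  obtain ⟨D2, hD2, hall⟩ := all_heights ε hε
  refine ⟨D1 ^ 3 * (D2 * (1 + 1 / ε) ^ 2), by positivity, fun N R hN hR E hE => ?_⟩
  obtain ⟨W, hW⟩ : ∃ W : ℝ, W = (N : ℝ) ^ 3 * R := ⟨_, rfl⟩
  have hNr : (1 : ℝ) ≤ N := by exact_mod_cast hN
  have hN3 : (N : ℝ) ≤ (N : ℝ) ^ 3 := le_self_pow₀ hNr (by norm_num)
  have hNW : (N : ℝ) ≤ W := by rw [hW]; nlinarith
  have hRW : R ≤ W := by rw [hW]; nlinarith
  have hW1 : 1 ≤ W := hR.trans hRW
  have hW0 : 0 < W := by linarith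
  rw [← hW]
  obtain ⟨Bx, hBx⟩ : ∃ Bx : ℕ × ℕ × (Fin 3 → ℕ) → Finset (ℕ × ℕ × ℕ), Bx = fun x =>
      (((Finset.Icc 1 N).filter fun a => a.primeFactors ⊆
        (rad (N3 x.2.2) * x.2.1).primeFactors).image fun u => x.1 * u) ×ˢ
      ((((Finset.Icc 1 N).filter fun a => a.primeFactors ⊆
        (rad (N3 x.2.2) * x.2.1).primeFactors).image fun u => x.1 * u) ×ˢ
      (((Finset.Icc 1 N).filter fun a => a.primeFactors ⊆
        (rad (N3 x.2.2) * x.2.1).primeFactors).image fun u => x.1 * u)) := ⟨_, rfl⟩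
  have hex : ∀ e ∈ E, ∃ x : ℕ × ℕ × (Fin 3 → ℕ), 1 ≤ x.1 ∧ x.1 ≤ N ∧ 1 ≤ x.2.1 ∧
      (x.2.1 : ℝ) ≤ R ∧ Tr x.2.2 ∧ (x.1 : ℝ) ^ 3 * (x.2.1 : ℝ) ^ 2 * rad (N3 x.2.2) ≤ W ∧
      e ∈ Bx x := by
    rintro ⟨A, B, C⟩ he
    obtain ⟨g1, g2, g3, g4, g5, g6, X, Y, Z, hX, hY, hZ, heq, hrad⟩ := hE _ he
    simp only at g1 g2 g3 g4 g5 g6 heq
    obtain ⟨d, r, a, b, c, A', B', C', hd, hA', hB', hC', hr1, hr2, htri, hp, hle⟩ :=
      core2 (by omega) (by omega) (by omega) hX hY hZ heq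
    obtain ⟨t, ht, htN⟩ := to_tr htri
    have hABC : A * B * C ≤ N ^ 3 := by
      calc A * B * C ≤ N * N * N := Nat.mul_le_mul (Nat.mul_le_mul g2 g4) g6
        _ = N ^ 3 := by ring
    have hA'0 : 0 < A' := Nat.pos_of_ne_zero (by rintro rfl; omega)
    have hB'0 : 0 < B' := Nat.pos_of_ne_zero (by rintro rfl; omega)
    have hC'0 : 0 < C' := Nat.pos_of_ne_zero (by rintro rfl; omega)
    have hdA : d ≤ A := by rw [hA']; exact Nat.le_mul_of_pos_right _ hA'0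
    refine ⟨(d, r, t), hd, by simp only; omega, hr1, ?_, ht, ?_, ?_⟩
    · simp only
      refine le_trans ?_ hrad
      exact_mod_cast hr2
    · simp only
      rw [htN, hW]
      have h1 : ((d ^ 3 * r ^ 2 * rad (a * b * c) : ℕ) : ℝ) ≤
          ((N ^ 3 * rad (X * Y * Z) : ℕ) : ℝ) := by
        exact_mod_cast hle.trans (Nat.mul_le_mul_right _ hABC)
      push_cast at h1
      exact h1.trans (mul_le_mul_of_nonneg_left hrad (by positivity))
    · have hmem : ∀ x : ℕ, 0 < x → x ∣ A' * B' * C' → x ≤ N →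
          x ∈ (Finset.Icc 1 N).filter fun a => a.primeFactors ⊆ (rad (N3 t) * r).primeFactors := by
        intro x hx0 hx1 hx2
        rw [Finset.mem_filter, Finset.mem_Icc]
        refine ⟨⟨hx0, hx2⟩, fun p hpx => ?_⟩
        have hpp := Nat.prime_of_mem_primeFactors hpx
        have h1 := hp p hpp ((Nat.dvd_of_mem_primeFactors hpx).trans hx1)
        rw [Nat.mem_primeFactors]
        refine ⟨hpp, ?_, Nat.mul_ne_zero (rad_pos _).ne' (by omega)⟩
        rcases (hpp.dvd_mul).1 h1 with h2 | h2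
        · refine Dvd.dvd.mul_right ?_ _
          rw [rad, htN]
          refine Finset.dvd_prod_of_mem (fun q => q) (Nat.mem_primeFactors.2 ⟨hpp, h2, ?_⟩)
          rw [← htN]
          exact ht.N3_pos.ne'
        · exact h2.mul_left _
      rw [hBx]
      simp only [Finset.mem_product, Finset.mem_image]
      have hle' : ∀ x y : ℕ, y = d * x → y ≤ N → x ≤ N := by
        intro x y h1 h2
        refine le_trans ?_ h2
        rw [h1]
        exact Nat.le_mul_of_pos_left _ hd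
      refine ⟨⟨A', hmem A' hA'0 ⟨B' * C', by ring⟩ (hle' _ _ hA' g2), hA'.symm⟩,
        ⟨B', hmem B' hB'0 ⟨A' * C', by ring⟩ (hle' _ _ hB' g4), hB'.symm⟩,
        ⟨C', hmem C' hC'0 ⟨A' * B', by ring⟩ (hle' _ _ hC' g6), hC'.symm⟩⟩
  choose! k k1 k2 k3 k4 k5 k6 k7 using hex
  obtain ⟨F, hF⟩ : ∃ F, F = E.image k := ⟨_, rfl⟩
  have hFp : ∀ x ∈ F, 1 ≤ x.1 ∧ x.1 ≤ N ∧ 1 ≤ x.2.1 ∧ (x.2.1 : ℝ) ≤ R ∧ Tr x.2.2 ∧
      (x.1 : ℝ) ^ 3 * (x.2.1 : ℝ) ^ 2 * rad (N3 x.2.2) ≤ W := by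
    intro x hx
    rw [hF, Finset.mem_image] at hx
    obtain ⟨e, he, rfl⟩ := hx
    exact ⟨k1 e he, k2 e he, k3 e he, k4 e he, k5 e he, k6 e he⟩
  -- the boxes
  have hbox : ∀ x ∈ F, ((Bx x).card : ℝ) ≤ (D1 * W ^ (2 * ε)) ^ 3 := by
    intro x hx
    obtain ⟨f1, f2, f3, f4, f5, f6⟩ := hFp x hx
    have hM1 : 1 ≤ rad (N3 x.2.2) * x.2.1 := Nat.mul_pos (rad_pos _) f3
    have hMW : ((rad (N3 x.2.2) * x.2.1 : ℕ) : ℝ) ≤ W := by
      refine le_trans ?_ f6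
      have e1 : (1 : ℝ) ≤ (x.1 : ℝ) ^ 3 := one_le_pow₀ (by exact_mod_cast f1)
      have e2 : (x.2.1 : ℝ) ≤ (x.2.1 : ℝ) ^ 2 :=
        le_self_pow₀ (by exact_mod_cast f3) (by norm_num)
      have e3 : (0 : ℝ) ≤ rad (N3 x.2.2) := Nat.cast_nonneg _
      push_cast
      calc (rad (N3 x.2.2) : ℝ) * x.2.1 = 1 * x.2.1 * rad (N3 x.2.2) := by ring
        _ ≤ (x.1 : ℝ) ^ 3 * (x.2.1 : ℝ) ^ 2 * rad (N3 x.2.2) := by gcongr
    have h1 : (((Finset.Icc 1 N).filter fun a => a.primeFactors ⊆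
        (rad (N3 x.2.2) * x.2.1).primeFactors).card : ℝ) ≤ D1 * W ^ (2 * ε) := by
      refine (hsm N _ hN hM1).trans ?_
      calc D1 * (N : ℝ) ^ ε * ((rad (N3 x.2.2) * x.2.1 : ℕ) : ℝ) ^ ε ≤
          D1 * W ^ ε * W ^ ε := by gcongr
        _ = D1 * W ^ (2 * ε) := by
            rw [mul_assoc, ← Real.rpow_add hW0]
            congr 2
            ring
    have h2 : ((Bx x).card : ℝ) ≤ (((Finset.Icc 1 N).filter fun a => a.primeFactors ⊆
        (rad (N3 x.2.2) * x.2.1).primeFactors).card : ℝ) ^ 3 := by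
      rw [hBx]
      simp only [Finset.card_product]
      have h3 : (((Finset.Icc 1 N).filter fun a => a.primeFactors ⊆
        (rad (N3 x.2.2) * x.2.1).primeFactors).image fun u => x.1 * u).card ≤
        ((Finset.Icc 1 N).filter fun a => a.primeFactors ⊆
        (rad (N3 x.2.2) * x.2.1).primeFactors).card := Finset.card_image_le
      have h4 := Nat.mul_le_mul h3 (Nat.mul_le_mul h3 h3)
      calc ((_ : ℕ) : ℝ) ≤ ((_ : ℕ) : ℝ) := Nat.cast_le.2 h4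
        _ = _ := by push_cast; ring
    exact h2.trans (pow_le_pow_left₀ (Nat.cast_nonneg _) h1 3)
  have hE1 : (E.card : ℝ) ≤ F.card * (D1 * W ^ (2 * ε)) ^ 3 := by
    have hsub : E ⊆ F.biUnion Bx := by
      intro e he
      rw [Finset.mem_biUnion]
      exact ⟨k e, by rw [hF]; exact Finset.mem_image_of_mem _ he, k7 e he⟩
    have h1 : (E.card : ℝ) ≤ ∑ x ∈ F, ((Bx x).card : ℝ) := by
      exact_mod_cast (Finset.card_le_card hsub).trans Finset.card_biUnion_le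
    refine h1.trans ((Finset.sum_le_sum hbox).trans (le_of_eq ?_))
    rw [Finset.sum_const, nsmul_eq_mul]
  -- the keys
  have hRf : 1 ≤ ⌊R⌋₊ := Nat.le_floor (by exact_mod_cast hR)
  have hfib : ∀ y ∈ Finset.Icc 1 N ×ˢ Finset.Icc 1 ⌊R⌋₊,
      (((F.filter fun x => (x.1, x.2.1) = y).card : ℕ) : ℝ) ≤
        D2 * W ^ (2 / 3 + ε) * (1 / (y.1 : ℝ) * (1 / (y.2 : ℝ))) := by
    rintro ⟨d, r⟩ hy
    rw [Finset.mem_product, Finset.mem_Icc, Finset.mem_Icc] at hy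
    obtain ⟨⟨hd1, -⟩, hr1, -⟩ := hy
    simp only at hd1 hr1 ⊢
    have hd : (1 : ℝ) ≤ d := by exact_mod_cast hd1
    have hr : (1 : ℝ) ≤ r := by exact_mod_cast hr1
    have hdr : (1 : ℝ) ≤ (d : ℝ) ^ 3 * (r : ℝ) ^ 2 := by
      have e1 : (1 : ℝ) ≤ (d : ℝ) ^ 3 := one_le_pow₀ hd
      have e2 : (1 : ℝ) ≤ (r : ℝ) ^ 2 := one_le_pow₀ hr
      nlinarith
    have hdr0 : (0 : ℝ) < (d : ℝ) ^ 3 * (r : ℝ) ^ 2 := by linarith
    rcases (F.filter fun x => (x.1, x.2.1) = (d, r)).eq_empty_or_nonempty with h0 | ⟨x0, hx0⟩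
    · rw [h0, Finset.card_empty, Nat.cast_zero]
      positivity
    · have hall' : ∀ x ∈ F.filter fun x => (x.1, x.2.1) = (d, r), x.1 = d ∧ x.2.1 = r ∧
          Tr x.2.2 ∧ (rad (N3 x.2.2) : ℝ) ≤ W / ((d : ℝ) ^ 3 * (r : ℝ) ^ 2) := by
        intro x hx
        rw [Finset.mem_filter, Prod.mk.injEq] at hx
        obtain ⟨h1, h2, h3⟩ := hx
        obtain ⟨f1, f2, f3, f4, f5, f6⟩ := hFp x h1
        refine ⟨h2, h3, f5, ?_⟩
        rw [le_div_iff₀ hdr0]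
        rw [h2, h3] at f6
        linarith
      have hX1 : 1 ≤ W / ((d : ℝ) ^ 3 * (r : ℝ) ^ 2) := by
        refine le_trans ?_ (hall' x0 hx0).2.2.2
        exact_mod_cast rad_pos _
      have h1 := hall (W / ((d : ℝ) ^ 3 * (r : ℝ) ^ 2)) hX1
        ((F.filter fun x => (x.1, x.2.1) = (d, r)).image fun x => x.2.2) (fun t ht => by
          rw [Finset.mem_image] at ht
          obtain ⟨x, hx, rfl⟩ := ht
          obtain ⟨-, -, h2, h3⟩ := hall' x hx
          refine ⟨h2, ?_⟩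
          rw [rr_rad h2]
          exact Real.log_le_log (by exact_mod_cast rad_pos _) h3)
      have h2 : ((F.filter fun x => (x.1, x.2.1) = (d, r)).image fun x => x.2.2).card =
          (F.filter fun x => (x.1, x.2.1) = (d, r)).card := by
        refine Finset.card_image_of_injOn ?_
        intro x hx y hy hxy
        obtain ⟨a1, a2, -⟩ := hall' x hx
        obtain ⟨b1, b2, -⟩ := hall' y hy
        exact Prod.ext (a1.trans b1.symm) (Prod.ext (a2.trans b2.symm) hxy)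
      rw [h2] at h1
      refine h1.trans ?_
      rw [mul_assoc]
      refine mul_le_mul_of_nonneg_left ?_ hD2.le
      rw [Real.div_rpow hW0.le hdr0.le, div_eq_mul_inv]
      refine mul_le_mul_of_nonneg_left ?_ (by positivity)
      have h3 : (d : ℝ) * r ≤ ((d : ℝ) ^ 3 * (r : ℝ) ^ 2) ^ (2 / 3 + ε) := by
        calc (d : ℝ) * r = (((d : ℝ) * r) ^ 2) ^ (1 / 2 : ℝ) := by
              rw [← Real.rpow_natCast, ← Real.rpow_mul (by positivity)]
              norm_num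
          _ ≤ ((d : ℝ) ^ 3 * (r : ℝ) ^ 2) ^ (1 / 2 : ℝ) := by
              refine Real.rpow_le_rpow (by positivity) ?_ (by norm_num)
              have e1 : (d : ℝ) ^ 2 ≤ (d : ℝ) ^ 3 := pow_le_pow_right₀ hd (by norm_num)
              rw [mul_pow]
              exact mul_le_mul_of_nonneg_right e1 (by positivity)
          _ ≤ _ := Real.rpow_le_rpow_of_exponent_le hdr (by linarith)
      rw [one_div_mul_one_div, ← one_div]
      exact one_div_le_one_div_of_le (by positivity) h3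
  have hFc : (F.card : ℝ) ≤ D2 * (1 + 1 / ε) ^ 2 * W ^ (2 / 3 + 3 * ε) := by
    have hmaps : ∀ x ∈ F, (x.1, x.2.1) ∈ Finset.Icc 1 N ×ˢ Finset.Icc 1 ⌊R⌋₊ := by
      intro x hx
      obtain ⟨f1, f2, f3, f4, -⟩ := hFp x hx
      rw [Finset.mem_product, Finset.mem_Icc, Finset.mem_Icc]
      exact ⟨⟨f1, f2⟩, f3, Nat.le_floor f4⟩
    have h1 : (F.card : ℝ) = ∑ y ∈ Finset.Icc 1 N ×ˢ Finset.Icc 1 ⌊R⌋₊,
        (((F.filter fun x => (x.1, x.2.1) = y).card : ℕ) : ℝ) := by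
      exact_mod_cast Finset.card_eq_sum_card_fiberwise hmaps
    have h2 : ∑ y ∈ Finset.Icc 1 N ×ˢ Finset.Icc 1 ⌊R⌋₊, (1 / (y.1 : ℝ) * (1 / (y.2 : ℝ))) =
        (∑ i ∈ Finset.Icc 1 N, 1 / (i : ℝ)) * ∑ j ∈ Finset.Icc 1 ⌊R⌋₊, 1 / (j : ℝ) := by
      rw [Finset.sum_mul_sum, Finset.sum_product]
    have h3 := harm_pow hε hN hNW
    have h4 := harm_pow hε hRf ((Nat.floor_le (by linarith)).trans hRW)
    rw [h1]
    refine (Finset.sum_le_sum hfib).trans ?_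
    rw [← Finset.mul_sum, h2]
    calc D2 * W ^ (2 / 3 + ε) * ((∑ i ∈ Finset.Icc 1 N, 1 / (i : ℝ)) *
        ∑ j ∈ Finset.Icc 1 ⌊R⌋₊, 1 / (j : ℝ)) ≤
        D2 * W ^ (2 / 3 + ε) * (((1 + 1 / ε) * W ^ ε) * ((1 + 1 / ε) * W ^ ε)) := by
          refine mul_le_mul_of_nonneg_left ?_ (by positivity)
          exact mul_le_mul h3 h4 (Finset.sum_nonneg fun i _ => by positivity) (by positivity)
      _ = D2 * (1 + 1 / ε) ^ 2 * (W ^ (2 / 3 + ε) * (W ^ ε * W ^ ε)) := by ring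
      _ = _ := by
          rw [← Real.rpow_add hW0, ← Real.rpow_add hW0]
          congr 2
          ring
  refine hE1.trans ((mul_le_mul_of_nonneg_right hFc (by positivity)).trans (le_of_eq ?_))
  have h5 : (W ^ (2 * ε)) ^ 3 = W ^ (6 * ε) := by
    rw [← Real.rpow_natCast, ← Real.rpow_mul hW0.le]
    congr 1
    push_cast
    ring
  calc D2 * (1 + 1 / ε) ^ 2 * W ^ (2 / 3 + 3 * ε) * (D1 * W ^ (2 * ε)) ^ 3 =
      D1 ^ 3 * (D2 * (1 + 1 / ε) ^ 2) * (W ^ (2 / 3 + 3 * ε) * (W ^ (2 * ε)) ^ 3) := by ring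
    _ = _ := by
        rw [h5, ← Real.rpow_add hW0]
        congr 2
        ring

end Pool.Agent.TH194.MR
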