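import Pool.Agent.TH194.MR.Coef

/-!
`A X + B Y = C Z` for almost all coefficients: small solutions, signs, the final count.
-/

set_option autoImplicit false

namespace Pool.Agent.TH194.MR

open Finset

/-- a small nonzero solution, by the box principle -/
theorem siegel {N A B C : ℕ} (hN : 1 ≤ N) (hA : A ≤ N) (hB : B ≤ N) (hC : C ≤ N) :
    ∃ X Y Z : ℤ, ¬ (X = 0 ∧ Y = 0 ∧ Z = 0) ∧ (A : ℤ) * X + B * Y = C * Z ∧
      X.natAbs ≤ Nat.sqrt (3 * N) ∧ Y.natAbs ≤ Nat.sqrt (3 * N) ∧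
      Z.natAbs ≤ Nat.sqrt (3 * N) := by
  classical
  obtain ⟨T, hT⟩ : ∃ T, T = Nat.sqrt (3 * N) := ⟨_, rfl⟩
  have hT2 : 3 * N < (T + 1) * (T + 1) := by rw [hT]; exact Nat.lt_succ_sqrt (3 * N)
  rw [← hT]
  have hcard : (Finset.range (3 * N * T + 1)).card <
      (Finset.range (T + 1) ×ˢ (Finset.range (T + 1) ×ˢ Finset.range (T + 1))).card := by
    rw [Finset.card_product, Finset.card_product, Finset.card_range, Finset.card_range]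
    have h1 : (3 * N + 1) * (T + 1) ≤ (T + 1) * (T + 1) * (T + 1) := Nat.mul_le_mul_right _ hT2
    nlinarith
  obtain ⟨⟨x1, y1, z1⟩, h1, ⟨x2, y2, z2⟩, h2, hne, heq⟩ :=
    Finset.exists_ne_map_eq_of_card_lt_of_maps_to hcard
      (f := fun v : ℕ × ℕ × ℕ => A * v.1 + B * v.2.1 + C * v.2.2) (by
        rintro ⟨x, y, z⟩ hv
        simp only [Finset.coe_product, Set.mem_prod, Finset.mem_coe, Finset.mem_range] at hv
        simp only [Finset.coe_range, Set.mem_Iio]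
        obtain ⟨hx, hy, hz⟩ := hv
        have e1 : A * x ≤ N * T := Nat.mul_le_mul hA (by omega)
        have e2 : B * y ≤ N * T := Nat.mul_le_mul hB (by omega)
        have e3 : C * z ≤ N * T := Nat.mul_le_mul hC (by omega)
        have e4 : 3 * N * T = N * T + N * T + N * T := by ring
        omega)
  simp only [Finset.mem_product, Finset.mem_range] at h1 h2 heq
  refine ⟨(x1 : ℤ) - x2, (y1 : ℤ) - y2, (z2 : ℤ) - z1, ?_, ?_, ?_, ?_, ?_⟩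
  · rintro ⟨a1, a2, a3⟩
    apply hne
    rw [Prod.mk.injEq, Prod.mk.injEq]
    omega
  · have h3 : (A : ℤ) * x1 + B * y1 + C * z1 = A * x2 + B * y2 + C * z2 := by exact_mod_cast heq
    linarith
  · omega
  · omega
  · omega

/-- `B : C` is a ratio of two numbers up to `T` -/
def Pr (T B C : ℕ) : Prop := ∃ y z : ℕ, 1 ≤ y ∧ y ≤ T ∧ 1 ≤ z ∧ z ≤ T ∧ B * y = C * z

theorem Pr.symm {T B C : ℕ} (h : Pr T B C) : Pr T C B := by
  obtain ⟨y, z, h1, h2, h3, h4, h5⟩ := h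
  exact ⟨z, y, h3, h4, h1, h2, h5.symm⟩

theorem pairs_le (N T : ℕ) (P : Finset (ℕ × ℕ)) (hP : ∀ x ∈ P, 1 ≤ x.1 ∧ x.1 ≤ x.2 ∧ x.2 ≤ N ∧
    Pr T x.1 x.2) : P.card ≤ T * N := by
  classical
  have hsub : P ⊆ (Finset.Icc 1 T).biUnion fun v =>
      (Finset.Icc 1 (N / v) ×ˢ Finset.Icc 1 v).image fun w => (w.1 * w.2, w.1 * v) := by
    rintro ⟨B, C⟩ hx
    obtain ⟨h1, h2, h3, y, z, hy1, hy2, hz1, hz2, heq⟩ := hP _ hx
    simp only at h1 h2 h3 heq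
    obtain ⟨g, hg⟩ : ∃ g, g = Nat.gcd B C := ⟨_, rfl⟩
    have hg0 : 0 < g := by rw [hg]; exact Nat.gcd_pos_of_pos_left _ (by omega)
    obtain ⟨u, hu⟩ : g ∣ B := by rw [hg]; exact Nat.gcd_dvd_left _ _
    obtain ⟨v, hv⟩ : g ∣ C := by rw [hg]; exact Nat.gcd_dvd_right _ _
    have hcop : Nat.Coprime u v := by
      have e1 := Nat.coprime_div_gcd_div_gcd (m := B) (n := C) (by rw [← hg]; exact hg0)
      rw [← hg, hu, hv, Nat.mul_div_cancel_left _ hg0, Nat.mul_div_cancel_left _ hg0] at e1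
      exact e1
    have hu0 : 0 < u := Nat.pos_of_ne_zero (by rintro rfl; simp at hu; omega)
    have hv0 : 0 < v := Nat.pos_of_ne_zero (by rintro rfl; simp at hv; omega)
    have huv : u ≤ v := by
      rw [hu, hv] at h2
      exact Nat.le_of_mul_le_mul_left h2 hg0
    have hvy : v ∣ y := by
      have e1 : u * y = v * z := by
        refine Nat.eq_of_mul_eq_mul_left hg0 ?_
        calc g * (u * y) = B * y := by rw [hu]; ring
          _ = C * z := heq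
          _ = g * (v * z) := by rw [hv]; ring
      exact (Nat.Coprime.dvd_mul_left hcop.symm).1 ⟨z, e1⟩
    have hvT : v ≤ T := (Nat.le_of_dvd hy1 hvy).trans hy2
    rw [Finset.mem_biUnion]
    refine ⟨v, Finset.mem_Icc.2 ⟨hv0, hvT⟩, ?_⟩
    rw [Finset.mem_image]
    refine ⟨(g, u), ?_, ?_⟩
    · rw [Finset.mem_product, Finset.mem_Icc, Finset.mem_Icc]
      refine ⟨⟨hg0, ?_⟩, hu0, huv⟩
      rw [Nat.le_div_iff_mul_le hv0, ← hv]
      exact h3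
    · simp only
      rw [← hu, ← hv]
  refine (Finset.card_le_card hsub).trans (Finset.card_biUnion_le.trans ?_)
  have h1 : ∀ v ∈ Finset.Icc 1 T, ((Finset.Icc 1 (N / v) ×ˢ Finset.Icc 1 v).image
      fun w => (w.1 * w.2, w.1 * v)).card ≤ N := by
    intro v _
    refine Finset.card_image_le.trans ?_
    rw [Finset.card_product, Nat.card_Icc, Nat.card_Icc, Nat.add_sub_cancel, Nat.add_sub_cancel]
    exact Nat.div_mul_le_self N v
  refine (Finset.sum_le_sum h1).trans (le_of_eq ?_)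
  rw [Finset.sum_const, Nat.card_Icc, Nat.add_sub_cancel, smul_eq_mul]

theorem pairs_all (N T : ℕ) (P : Finset (ℕ × ℕ)) (hP : ∀ x ∈ P, 1 ≤ x.1 ∧ x.1 ≤ N ∧ 1 ≤ x.2 ∧
    x.2 ≤ N ∧ Pr T x.1 x.2) : P.card ≤ 2 * (T * N) := by
  classical
  have h1 := pairs_le N T (P.filter fun x => x.1 ≤ x.2) (fun x hx => by
    rw [Finset.mem_filter] at hx
    obtain ⟨a1, a2, a3, a4, a5⟩ := hP x hx.1
    exact ⟨a1, hx.2, a4, a5⟩)
  have h2 := pairs_le N T ((P.filter fun x => ¬ x.1 ≤ x.2).image fun x => (x.2, x.1))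
    (fun y hy => by
      rw [Finset.mem_image] at hy
      obtain ⟨x, hx, rfl⟩ := hy
      rw [Finset.mem_filter] at hx
      obtain ⟨a1, a2, a3, a4, a5⟩ := hP x hx.1
      exact ⟨a3, by simp only; omega, a2, a5.symm⟩)
  have h3 : ((P.filter fun x => ¬ x.1 ≤ x.2).image fun x => (x.2, x.1)).card =
      (P.filter fun x => ¬ x.1 ≤ x.2).card := by
    refine Finset.card_image_of_injective _ ?_
    rintro ⟨a, b⟩ ⟨c, d⟩ h
    simp only [Prod.mk.injEq] at h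
    rw [Prod.mk.injEq]
    exact ⟨h.2, h.1⟩
  have h4 := Finset.card_filter_add_card_filter_not (s := P) (fun x => x.1 ≤ x.2)
  omega

/-- few coefficients have a pair with a small ratio -/
theorem count_zero (N T : ℕ) (E : Finset (ℕ × ℕ × ℕ)) (hE : ∀ e ∈ E, 1 ≤ e.1 ∧ e.1 ≤ N ∧
    1 ≤ e.2.1 ∧ e.2.1 ≤ N ∧ 1 ≤ e.2.2 ∧ e.2.2 ≤ N ∧
    (Pr T e.2.1 e.2.2 ∨ Pr T e.1 e.2.2 ∨ Pr T e.1 e.2.1)) : E.card ≤ 6 * (N * N * T) := by
  classical
  obtain ⟨P, hP⟩ : ∃ P : Finset (ℕ × ℕ), P = (Finset.Icc 1 N ×ˢ Finset.Icc 1 N).filter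
      fun x => Pr T x.1 x.2 := ⟨_, rfl⟩
  have hPmem : ∀ b c : ℕ, 1 ≤ b → b ≤ N → 1 ≤ c → c ≤ N → Pr T b c → (b, c) ∈ P := by
    intro b c h1 h2 h3 h4 h5
    rw [hP, Finset.mem_filter, Finset.mem_product, Finset.mem_Icc, Finset.mem_Icc]
    exact ⟨⟨⟨h1, h2⟩, h3, h4⟩, h5⟩
  have hPc : P.card ≤ 2 * (T * N) := by
    refine pairs_all N T P (fun x hx => ?_)
    rw [hP, Finset.mem_filter, Finset.mem_product, Finset.mem_Icc, Finset.mem_Icc] at hx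
    exact ⟨hx.1.1.1, hx.1.1.2, hx.1.2.1, hx.1.2.2, hx.2⟩
  obtain ⟨Q, hQ⟩ : ∃ Q : Finset (ℕ × ℕ × ℕ), Q = Finset.Icc 1 N ×ˢ P := ⟨_, rfl⟩
  have hQc : Q.card ≤ 2 * (N * N * T) := by
    rw [hQ, Finset.card_product, Nat.card_Icc, Nat.add_sub_cancel]
    calc N * P.card ≤ N * (2 * (T * N)) := Nat.mul_le_mul_left _ hPc
      _ = _ := by ring
  have hsub : E ⊆ (Q ∪ Q.image fun x => (x.2.1, x.1, x.2.2)) ∪
      Q.image fun x => (x.2.1, x.2.2, x.1) := by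
    rintro ⟨a, b, c⟩ he
    obtain ⟨h1, h2, h3, h4, h5, h6, h7⟩ := hE _ he
    simp only at h1 h2 h3 h4 h5 h6 h7
    have hmemQ : ∀ x y z : ℕ, 1 ≤ x → x ≤ N → (y, z) ∈ P → (x, y, z) ∈ Q := by
      intro x y z e1 e2 e3
      rw [hQ, Finset.mem_product]
      exact ⟨Finset.mem_Icc.2 ⟨e1, e2⟩, e3⟩
    rw [Finset.mem_union, Finset.mem_union, Finset.mem_image, Finset.mem_image]
    rcases h7 with h | h | h
    · left; left
      exact hmemQ _ _ _ h1 h2 (hPmem _ _ h3 h4 h5 h6 h)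
    · left; right
      exact ⟨(b, a, c), hmemQ _ _ _ h3 h4 (hPmem _ _ h1 h2 h5 h6 h), rfl⟩
    · right
      exact ⟨(c, a, b), hmemQ _ _ _ h5 h6 (hPmem _ _ h1 h2 h3 h4 h), rfl⟩
  have h1 := (Finset.card_le_card hsub).trans (Finset.card_union_le _ _)
  have h2 := Finset.card_union_le Q (Q.image fun x => (x.2.1, x.1, x.2.2))
  have h3 : (Q.image fun x => (x.2.1, x.1, x.2.2)).card ≤ Q.card := Finset.card_image_le
  have h4 : (Q.image fun x => (x.2.1, x.2.2, x.1)).card ≤ Q.card := Finset.card_image_le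
  omega

/-- `A X + B Y = C Z` has a positive solution of radical at most `R` -/
def Sm (R : ℝ) (A B C : ℕ) : Prop := ∃ X Y Z : ℕ, 0 < X ∧ 0 < Y ∧ 0 < Z ∧
  A * X + B * Y = C * Z ∧ (rad (X * Y * Z) : ℝ) ≤ R

/-- a solution in nonzero integers gives a positive solution of a permuted equation -/
theorem signs {A B C : ℕ} {X Y Z : ℤ} {R : ℝ} (hX : X ≠ 0) (hY : Y ≠ 0) (hZ : Z ≠ 0)
    (h : (A : ℤ) * X + B * Y = C * Z) (hr : (rad (X * Y * Z).natAbs : ℝ) ≤ R) :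
    Sm R A B C ∨ Sm R B C A ∨ Sm R A C B := by
  have e1 : ((A : ℤ) * X).natAbs = A * X.natAbs := by rw [Int.natAbs_mul, Int.natAbs_natCast]
  have e2 : ((B : ℤ) * Y).natAbs = B * Y.natAbs := by rw [Int.natAbs_mul, Int.natAbs_natCast]
  have e3 : ((C : ℤ) * Z).natAbs = C * Z.natAbs := by rw [Int.natAbs_mul, Int.natAbs_natCast]
  have e4 : (X * Y * Z).natAbs = X.natAbs * Y.natAbs * Z.natAbs := by
    rw [Int.natAbs_mul, Int.natAbs_mul]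
  rw [e4] at hr
  have hx := Int.natAbs_pos.2 hX
  have hy := Int.natAbs_pos.2 hY
  have hz := Int.natAbs_pos.2 hZ
  have h1 : ((A : ℤ) * X).natAbs + ((B : ℤ) * Y).natAbs = ((C : ℤ) * Z).natAbs ∨
      ((B : ℤ) * Y).natAbs + ((C : ℤ) * Z).natAbs = ((A : ℤ) * X).natAbs ∨
      ((A : ℤ) * X).natAbs + ((C : ℤ) * Z).natAbs = ((B : ℤ) * Y).natAbs := by
    generalize (A : ℤ) * X = P at h
    generalize (B : ℤ) * Y = Q at h
    generalize (C : ℤ) * Z = S at h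
    omega
  rw [e1, e2, e3] at h1
  rcases h1 with h1 | h1 | h1
  · exact Or.inl ⟨_, _, _, hx, hy, hz, h1, hr⟩
  · refine Or.inr (Or.inl ⟨_, _, _, hy, hz, hx, h1, ?_⟩)
    rwa [show Y.natAbs * Z.natAbs * X.natAbs = X.natAbs * Y.natAbs * Z.natAbs by ring]
  · refine Or.inr (Or.inr ⟨_, _, _, hx, hz, hy, h1, ?_⟩)
    rwa [show X.natAbs * Z.natAbs * Y.natAbs = X.natAbs * Y.natAbs * Z.natAbs by ring]

/-- a small solution with nonzero entries, unless two coefficients have a small ratio -/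
theorem small_sol {N A B C : ℕ} (hA : 1 ≤ A) (hB : 1 ≤ B) (hC : 1 ≤ C) (hA' : A ≤ N) (hB' : B ≤ N)
    (hC' : C ≤ N) (hno : ¬ (Pr (Nat.sqrt (3 * N)) B C ∨ Pr (Nat.sqrt (3 * N)) A C ∨
      Pr (Nat.sqrt (3 * N)) A B)) :
    ∃ X Y Z : ℤ, X ≠ 0 ∧ Y ≠ 0 ∧ Z ≠ 0 ∧ (A : ℤ) * X + B * Y = C * Z ∧
      X.natAbs ≤ Nat.sqrt (3 * N) ∧ Y.natAbs ≤ Nat.sqrt (3 * N) ∧
      Z.natAbs ≤ Nat.sqrt (3 * N) := by
  obtain ⟨X, Y, Z, h0, heq, h1, h2, h3⟩ := siegel (hA.trans hA') hA' hB' hC'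
  push Not at hno
  obtain ⟨n1, n2, n3⟩ := hno
  have e1 : ((A : ℤ) * X).natAbs = A * X.natAbs := by rw [Int.natAbs_mul, Int.natAbs_natCast]
  have e2 : ((B : ℤ) * Y).natAbs = B * Y.natAbs := by rw [Int.natAbs_mul, Int.natAbs_natCast]
  have e3 : ((C : ℤ) * Z).natAbs = C * Z.natAbs := by rw [Int.natAbs_mul, Int.natAbs_natCast]
  have hA0 : (A : ℤ) ≠ 0 := by omega
  have hB0 : (B : ℤ) ≠ 0 := by omega
  have hC0 : (C : ℤ) ≠ 0 := by omega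
  have hX : X ≠ 0 := by
    rintro rfl
    have h4 : (B : ℤ) * Y = C * Z := by linarith
    have hY : Y ≠ 0 := by
      rintro rfl
      have h5 : (C : ℤ) * Z = 0 := by linarith
      exact h0 ⟨rfl, rfl, (mul_eq_zero.1 h5).resolve_left hC0⟩
    have hZ : Z ≠ 0 := by
      rintro rfl
      have h5 : (B : ℤ) * Y = 0 := by linarith
      exact hY ((mul_eq_zero.1 h5).resolve_left hB0)
    exact n1 ⟨Y.natAbs, Z.natAbs, Int.natAbs_pos.2 hY, h2, Int.natAbs_pos.2 hZ, h3, by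
      rw [← e2, ← e3, h4]⟩
  have hY : Y ≠ 0 := by
    rintro rfl
    have h4 : (A : ℤ) * X = C * Z := by linarith
    have hZ : Z ≠ 0 := by
      rintro rfl
      have h5 : (A : ℤ) * X = 0 := by linarith
      exact hX ((mul_eq_zero.1 h5).resolve_left hA0)
    exact n2 ⟨X.natAbs, Z.natAbs, Int.natAbs_pos.2 hX, h1, Int.natAbs_pos.2 hZ, h3, by
      rw [← e1, ← e3, h4]⟩
  have hZ : Z ≠ 0 := by
    rintro rfl
    have h4 : (A : ℤ) * X = -(B * Y) := by linarith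
    exact n3 ⟨X.natAbs, Y.natAbs, Int.natAbs_pos.2 hX, h1, Int.natAbs_pos.2 hY, h2, by
      rw [← e1, ← e2, h4, Int.natAbs_neg]⟩
  exact ⟨X, Y, Z, hX, hY, hZ, heq, h1, h2, h3⟩

/-- the final count -/
theorem coef_final (δ : ℝ) (hδ : 0 < δ) (hδ1 : δ ≤ 1) : ∃ K : ℝ, ∀ N : ℕ, 1 ≤ N →
    ∀ E : Finset (ℕ × ℕ × ℕ), (∀ e ∈ E, 1 ≤ e.1 ∧ e.1 ≤ N ∧ 1 ≤ e.2.1 ∧ e.2.1 ≤ N ∧
      1 ≤ e.2.2 ∧ e.2.2 ≤ N ∧ (Sm ((N : ℝ) ^ (3 / 2 - δ)) e.1 e.2.1 e.2.2 ∨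
        Sm ((N : ℝ) ^ (3 / 2 - δ)) e.2.1 e.2.2 e.1 ∨ Sm ((N : ℝ) ^ (3 / 2 - δ)) e.1 e.2.2 e.2.1 ∨
        Pr (Nat.sqrt (3 * N)) e.2.1 e.2.2 ∨ Pr (Nat.sqrt (3 * N)) e.1 e.2.2 ∨
        Pr (Nat.sqrt (3 * N)) e.1 e.2.1)) →
    (E.card : ℝ) ≤ K * (N : ℝ) ^ (3 - δ / 2) := by
  classical
  obtain ⟨ε, hε⟩ : ∃ ε, ε = δ / 300 := ⟨_, rfl⟩
  have hε0 : 0 < ε := by rw [hε]; positivity
  obtain ⟨D, hD, hcnt⟩ := count_pos ε hε0
  refine ⟨3 * D + 12, fun N hN E hE => ?_⟩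
  have hNr : (1 : ℝ) ≤ N := by exact_mod_cast hN
  have hN0 : (0 : ℝ) < N := by linarith
  obtain ⟨R, hR⟩ : ∃ R : ℝ, R = (N : ℝ) ^ (3 / 2 - δ) := ⟨_, rfl⟩
  have hR1 : 1 ≤ R := by rw [hR]; exact Real.one_le_rpow hNr (by linarith)
  rw [← hR] at hE
  have hWb : ((N : ℝ) ^ 3 * R) ^ (2 / 3 + 9 * ε) ≤ (N : ℝ) ^ (3 - δ / 2) := by
    have e1 : (N : ℝ) ^ 3 * R = (N : ℝ) ^ (9 / 2 - δ) := by
      rw [hR, ← Real.rpow_natCast, ← Real.rpow_add hN0]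
      congr 1
      push_cast
      ring
    rw [e1, ← Real.rpow_mul hN0.le]
    refine Real.rpow_le_rpow_of_exponent_le hNr ?_
    rw [hε]
    nlinarith
  have hbd : ∀ E' : Finset (ℕ × ℕ × ℕ), (∀ e ∈ E', 1 ≤ e.1 ∧ e.1 ≤ N ∧ 1 ≤ e.2.1 ∧ e.2.1 ≤ N ∧
      1 ≤ e.2.2 ∧ e.2.2 ≤ N ∧ Sm R e.1 e.2.1 e.2.2) →
      (E'.card : ℝ) ≤ D * (N : ℝ) ^ (3 - δ / 2) := by
    intro E' hE'
    exact (hcnt N R hN hR1 E' hE').trans (mul_le_mul_of_nonneg_left hWb hD.le)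
  obtain ⟨E1, hE1⟩ : ∃ E1, E1 = E.filter fun e => Sm R e.1 e.2.1 e.2.2 := ⟨_, rfl⟩
  obtain ⟨E2, hE2⟩ : ∃ E2, E2 = E.filter fun e => Sm R e.2.1 e.2.2 e.1 := ⟨_, rfl⟩
  obtain ⟨E3, hE3⟩ : ∃ E3, E3 = E.filter fun e => Sm R e.1 e.2.2 e.2.1 := ⟨_, rfl⟩
  obtain ⟨E4, hE4⟩ : ∃ E4, E4 = E.filter fun e => Pr (Nat.sqrt (3 * N)) e.2.1 e.2.2 ∨
    Pr (Nat.sqrt (3 * N)) e.1 e.2.2 ∨ Pr (Nat.sqrt (3 * N)) e.1 e.2.1 := ⟨_, rfl⟩
  have hsub : E ⊆ (E1 ∪ E2) ∪ (E3 ∪ E4) := by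
    intro e he
    obtain ⟨-, -, -, -, -, -, h⟩ := hE e he
    rw [Finset.mem_union, Finset.mem_union, Finset.mem_union, hE1, hE2, hE3, hE4,
      Finset.mem_filter, Finset.mem_filter, Finset.mem_filter, Finset.mem_filter]
    tauto
  have c0 : E.card ≤ (E1.card + E2.card) + (E3.card + E4.card) :=
    (Finset.card_le_card hsub).trans ((Finset.card_union_le _ _).trans
      (Nat.add_le_add (Finset.card_union_le _ _) (Finset.card_union_le _ _)))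
  have c1 : (E1.card : ℝ) ≤ D * (N : ℝ) ^ (3 - δ / 2) := by
    refine hbd E1 fun e he => ?_
    rw [hE1, Finset.mem_filter] at he
    obtain ⟨h1, h2, h3, h4, h5, h6, -⟩ := hE e he.1
    exact ⟨h1, h2, h3, h4, h5, h6, he.2⟩
  have c2 : (E2.card : ℝ) ≤ D * (N : ℝ) ^ (3 - δ / 2) := by
    have e1 : (E2.image fun e => (e.2.1, e.2.2, e.1)).card = E2.card := by
      refine Finset.card_image_of_injective _ ?_
      rintro ⟨a, b, c⟩ ⟨a', b', c'⟩ h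
      simp only [Prod.mk.injEq] at h ⊢
      exact ⟨h.2.2, h.1, h.2.1⟩
    rw [← e1]
    refine hbd _ fun y hy => ?_
    rw [Finset.mem_image] at hy
    obtain ⟨e, he, rfl⟩ := hy
    rw [hE2, Finset.mem_filter] at he
    obtain ⟨h1, h2, h3, h4, h5, h6, -⟩ := hE e he.1
    exact ⟨h3, h4, h5, h6, h1, h2, he.2⟩
  have c3 : (E3.card : ℝ) ≤ D * (N : ℝ) ^ (3 - δ / 2) := by
    have e1 : (E3.image fun e => (e.1, e.2.2, e.2.1)).card = E3.card := by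
      refine Finset.card_image_of_injective _ ?_
      rintro ⟨a, b, c⟩ ⟨a', b', c'⟩ h
      simp only [Prod.mk.injEq] at h ⊢
      exact ⟨h.1, h.2.2, h.2.1⟩
    rw [← e1]
    refine hbd _ fun y hy => ?_
    rw [Finset.mem_image] at hy
    obtain ⟨e, he, rfl⟩ := hy
    rw [hE3, Finset.mem_filter] at he
    obtain ⟨h1, h2, h3, h4, h5, h6, -⟩ := hE e he.1
    exact ⟨h1, h2, h5, h6, h3, h4, he.2⟩
  have c4 : (E4.card : ℝ) ≤ 12 * (N : ℝ) ^ (3 - δ / 2) := by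
    have e1 := count_zero N (Nat.sqrt (3 * N)) E4 (fun e he => by
      rw [hE4, Finset.mem_filter] at he
      obtain ⟨h1, h2, h3, h4, h5, h6, -⟩ := hE e he.1
      exact ⟨h1, h2, h3, h4, h5, h6, he.2⟩)
    have e2 : (E4.card : ℝ) ≤ 6 * ((N : ℝ) * N * (Nat.sqrt (3 * N) : ℕ)) := by exact_mod_cast e1
    have e3 : ((Nat.sqrt (3 * N) : ℕ) : ℝ) ≤ 2 * (N : ℝ) ^ (1 / 2 : ℝ) := by
      rw [← Real.sqrt_eq_rpow]
      refine (Real.nat_sqrt_le_real_sqrt).trans ?_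
      push_cast
      calc Real.sqrt (3 * (N : ℝ)) ≤ Real.sqrt (2 ^ 2 * (N : ℝ)) :=
            Real.sqrt_le_sqrt (by linarith)
        _ = 2 * Real.sqrt N := by
            rw [Real.sqrt_mul (by norm_num), Real.sqrt_sq (by norm_num)]
    have e4 : (N : ℝ) * N * (N : ℝ) ^ (1 / 2 : ℝ) = (N : ℝ) ^ (5 / 2 : ℝ) := by
      have e5 : (N : ℝ) * N = (N : ℝ) ^ (2 : ℝ) := by
        rw [Real.rpow_two]; ring
      rw [e5, ← Real.rpow_add hN0]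
      norm_num
    have e6 : (N : ℝ) ^ (5 / 2 : ℝ) ≤ (N : ℝ) ^ (3 - δ / 2) :=
      Real.rpow_le_rpow_of_exponent_le hNr (by linarith)
    calc (E4.card : ℝ) ≤ 6 * ((N : ℝ) * N * (2 * (N : ℝ) ^ (1 / 2 : ℝ))) :=
          e2.trans (by gcongr)
      _ = 12 * ((N : ℝ) * N * (N : ℝ) ^ (1 / 2 : ℝ)) := by ring
      _ ≤ _ := by rw [e4]; linarith
  have c5 : (E.card : ℝ) ≤ (E1.card + E2.card) + (E3.card + E4.card) := by exact_mod_cast c0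
  calc (E.card : ℝ) ≤ _ := c5
    _ ≤ (D * (N : ℝ) ^ (3 - δ / 2) + D * (N : ℝ) ^ (3 - δ / 2)) +
        (D * (N : ℝ) ^ (3 - δ / 2) + 12 * (N : ℝ) ^ (3 - δ / 2)) := by gcongr
    _ = _ := by ring

end Pool.Agent.TH194.MR
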