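import Pool.Agent.TH194.MR.Coef2
import Pool.Agent.TH194.MR.Cheb

/-!
Solutions of `A X + B Y = C Z` with a small radical: a lower bound for the number of coefficients.
-/

set_option autoImplicit false

namespace Pool.Agent.TH194.MR

open Finset

theorem exY {A B X Z : ℕ} (hZ : Z.Prime) (hA : ¬ Z ∣ A) (hB : ¬ Z ∣ B) (hX : ¬ Z ∣ X) :
    ∃ Y : ℕ, 1 ≤ Y ∧ Y < Z ∧ Z ∣ A * X + B * Y := by
  have : Fact Z.Prime := ⟨hZ⟩
  have hA' : (A : ZMod Z) ≠ 0 := by rwa [Ne, ZMod.natCast_eq_zero_iff]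
  have hB' : (B : ZMod Z) ≠ 0 := by rwa [Ne, ZMod.natCast_eq_zero_iff]
  have hX' : (X : ZMod Z) ≠ 0 := by rwa [Ne, ZMod.natCast_eq_zero_iff]
  obtain ⟨y, hy⟩ : ∃ y : ZMod Z, y = -((A : ZMod Z) * X / B) := ⟨_, rfl⟩
  have hy0 : y ≠ 0 := by
    rw [hy, neg_ne_zero]
    exact div_ne_zero (mul_ne_zero hA' hX') hB'
  refine ⟨y.val, ?_, ZMod.val_lt y, ?_⟩
  · rw [Nat.one_le_iff_ne_zero]
    intro h
    exact hy0 ((ZMod.val_eq_zero y).1 h)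
  · rw [← ZMod.natCast_eq_zero_iff]
    push_cast
    rw [ZMod.natCast_val, ZMod.cast_id', id, hy]
    field_simp
    ring

theorem inj_aux {A B C X Y Z X' Y' Z' : ℕ} (hA : A.Prime) (hB : B.Prime) (hAB : A ≠ B)
    (hZ : Z.Prime) (hZ' : Z'.Prime) (hX : 1 ≤ X) (hXZ : X < Z) (hYZ : Y < Z)
    (hXZ' : X' < Z') (hYZ' : Y' < Z') (hlt : Z * Z' < A)
    (h : A * X + B * Y = C * Z) (h' : A * X' + B * Y' = C * Z') : Z = Z' ∧ X = X' := by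
  have e1 : (A : ℤ) * (X * Z' - X' * Z) = B * (Y' * Z - Y * Z') := by
    have f1 : (A : ℤ) * X + B * Y = C * Z := by exact_mod_cast h
    have f2 : (A : ℤ) * X' + B * Y' = C * Z' := by exact_mod_cast h'
    linear_combination (Z' : ℤ) * f1 - (Z : ℤ) * f2
  have e2 : (A : ℤ) ∣ (Y' : ℤ) * Z - Y * Z' := by
    have hcop : IsCoprime (A : ℤ) (B : ℤ) :=
      Nat.isCoprime_iff_coprime.2 ((Nat.coprime_primes hA hB).2 hAB)
    exact hcop.dvd_of_dvd_mul_left ⟨_, e1.symm⟩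
  have hZ0 : (0 : ℤ) < Z := by exact_mod_cast hZ.pos
  have hZ'0 : (0 : ℤ) < Z' := by exact_mod_cast hZ'.pos
  have hltZ : (Z : ℤ) * Z' < A := by exact_mod_cast hlt
  have g1 : (Y' : ℤ) * Z < Z' * Z := by
    have : (Y' : ℤ) < Z' := by exact_mod_cast hYZ'
    nlinarith
  have g2 : (Y : ℤ) * Z' < Z * Z' := by
    have : (Y : ℤ) < Z := by exact_mod_cast hYZ
    nlinarith
  have g3 : (0 : ℤ) ≤ (Y' : ℤ) * Z := by positivity
  have g4 : (0 : ℤ) ≤ (Y : ℤ) * Z' := by positivity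
  have e3 : (Y' : ℤ) * Z - Y * Z' = 0 := by
    refine Int.eq_zero_of_abs_lt_dvd e2 ?_
    rw [abs_lt]
    constructor <;> nlinarith
  have hA0 : (A : ℤ) ≠ 0 := by exact_mod_cast hA.ne_zero
  have e4 : (X : ℤ) * Z' - X' * Z = 0 := by
    rw [e3, mul_zero] at e1
    exact (mul_eq_zero.1 e1).resolve_left hA0
  have e5 : X * Z' = X' * Z := by
    have : (X : ℤ) * Z' = X' * Z := by linarith
    exact_mod_cast this
  have e6 : Z ∣ X * Z' := ⟨X', by rw [e5]; ring⟩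
  have e7 : Z ∣ Z' := by
    rcases (hZ.dvd_mul).1 e6 with h1 | h1
    · exact absurd (Nat.le_of_dvd hX h1) (by omega)
    · exact h1
  have e8 : Z = Z' := (Nat.prime_dvd_prime_iff_eq hZ hZ').1 e7
  refine ⟨e8, ?_⟩
  rw [← e8] at e5
  exact Nat.eq_of_mul_eq_mul_right hZ.pos e5

theorem PR_low (ε : ℝ) (hε : 0 < ε) : ∃ c : ℝ, 0 < c ∧ ∀ Q N : ℝ, 1 ≤ Q → 4 * Q ≤ N →
    c * Q * N ^ (-ε) ≤ (PR Q).card := by
  obtain ⟨c, hc, h⟩ := card_PR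
  refine ⟨c * ε, by positivity, fun Q N hQ hN => ?_⟩
  have h1 := h Q hQ
  have hN0 : 0 < N := by linarith
  have hl : 0 < Real.log (4 * Q) := Real.log_pos (by linarith)
  have h2 : Real.log (4 * Q) ≤ N ^ ε / ε :=
    (Real.log_le_log (by linarith) hN).trans (Real.log_le_rpow_div hN0.le hε)
  have h3 : 0 < N ^ ε := Real.rpow_pos_of_pos hN0 _
  refine le_trans ?_ h1
  rw [le_div_iff₀ hl, Real.rpow_neg hN0.le]
  calc c * ε * Q * (N ^ ε)⁻¹ * Real.log (4 * Q) ≤ c * ε * Q * (N ^ ε)⁻¹ * (N ^ ε / ε) := by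
        gcongr
    _ = c * Q := by field_simp

/-- `A X + B Y = C Z` has a positive solution with `X Y Z` at most `R` -/
def Sp (R : ℝ) (A B C : ℕ) : Prop := ∃ X Y Z : ℕ, 0 < X ∧ 0 < Y ∧ 0 < Z ∧
  A * X + B * Y = C * Z ∧ ((X * Y * Z : ℕ) : ℝ) ≤ R

/-- many coefficients have a solution with a small product -/
theorem count_low (ε : ℝ) (hε : 0 < ε) : ∃ c : ℝ, 0 < c ∧ ∀ (N : ℕ) (H : ℝ), 2 ≤ N → 1 ≤ H →
    H ^ 2 ≤ N → ∀ E : Finset (ℕ × ℕ × ℕ), (∀ A B C : ℕ, 1 ≤ A → A ≤ N → 1 ≤ B → B ≤ N →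
      1 ≤ C → C ≤ N → Sp (H ^ 3) A B C → (A, B, C) ∈ E) →
    c * (N : ℝ) ^ (2 - ε) * H ^ 2 ≤ (E.card : ℝ) := by
  classical
  obtain ⟨c0, hc0, hPR⟩ := PR_low (ε / 3) (by positivity)
  obtain ⟨c, hc⟩ : ∃ c : ℝ, c = min (1 / 24336) (c0 ^ 3 * (5 / 4) / 1600 / 676) := ⟨_, rfl⟩
  have hcpos : 0 < c := by rw [hc]; positivity
  refine ⟨c, hcpos, fun N H hN hH hHN E hE => ?_⟩
  have hNr : (2 : ℝ) ≤ N := by exact_mod_cast hN
  have hN0 : (0 : ℝ) < N := by linarith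
  have hH3 : (1 : ℝ) ≤ H ^ 3 := one_le_pow₀ hH
  by_cases hcase : H < 52
  · -- the solutions `A + B = C`
    obtain ⟨n, hn⟩ : ∃ n, n = N / 2 := ⟨_, rfl⟩
    have hsub : ((Finset.Icc 1 n ×ˢ Finset.Icc 1 n).image fun x => (x.1, x.2, x.1 + x.2)) ⊆ E := by
      intro y hy
      rw [Finset.mem_image] at hy
      obtain ⟨⟨a, b⟩, hx, rfl⟩ := hy
      rw [Finset.mem_product, Finset.mem_Icc, Finset.mem_Icc] at hx
      obtain ⟨⟨h1, h2⟩, h3, h4⟩ := hx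
      simp only at h1 h2 h3 h4 ⊢
      refine hE _ _ _ h1 (by omega) h3 (by omega) (by omega) (by omega)
        ⟨1, 1, 1, one_pos, one_pos, one_pos, by ring, ?_⟩
      simpa using hH3
    have h1 := Finset.card_le_card hsub
    rw [Finset.card_image_of_injective _ (by
      rintro ⟨a, b⟩ ⟨a', b'⟩ h
      simp only [Prod.mk.injEq] at h
      rw [Prod.mk.injEq]
      exact ⟨h.1, h.2.1⟩), Finset.card_product, Nat.card_Icc, Nat.add_sub_cancel] at h1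
    have h2 : ((n * n : ℕ) : ℝ) ≤ (E.card : ℝ) := by exact_mod_cast h1
    have h3 : (N : ℝ) ≤ 3 * n := by
      have : N ≤ 3 * n := by omega
      exact_mod_cast this
    have h4 : (N : ℝ) ^ (2 - ε) ≤ (N : ℝ) ^ (2 : ℝ) :=
      Real.rpow_le_rpow_of_exponent_le (by linarith) (by linarith)
    rw [Real.rpow_two] at h4
    have h5 : H ^ 2 ≤ 2704 := by nlinarith
    have h6 : c ≤ 1 / 24336 := by rw [hc]; exact min_le_left _ _
    have h7 : (N : ℝ) ^ 2 ≤ 9 * (n * n) := by nlinarith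
    push_cast at h2
    calc c * (N : ℝ) ^ (2 - ε) * H ^ 2 ≤ 1 / 24336 * (N : ℝ) ^ 2 * 2704 := by gcongr
      _ ≤ (n : ℝ) * n := by linarith
      _ ≤ _ := h2
  · push Not at hcase
    obtain ⟨q, hq⟩ : ∃ q : ℝ, q = N / 40 := ⟨_, rfl⟩
    obtain ⟨h, hh⟩ : ∃ h : ℝ, h = H / 26 := ⟨_, rfl⟩
    have hNbig : (2704 : ℝ) ≤ N := by nlinarith
    have hq1 : 1 ≤ q := by rw [hq]; linarith
    have hh2 : 2 ≤ h := by rw [hh]; linarith
    have hHN' : H ≤ N := by nlinarith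
    obtain ⟨m, hm⟩ : ∃ m : ℕ, m = ⌊h / 2⌋₊ := ⟨_, rfl⟩
    have hm1 : h / 4 ≤ m := by
      have e1 : h / 2 < m + 1 := by rw [hm]; exact Nat.lt_floor_add_one _
      have e2 : 1 ≤ m := by rw [hm]; exact Nat.le_floor (by push_cast; linarith)
      have e3 : (1 : ℝ) ≤ m := by exact_mod_cast e2
      linarith
    have hm2 : (m : ℝ) ≤ h / 2 := by rw [hm]; exact Nat.floor_le (by linarith)
    have h16 : 4 * h * (4 * h) < q := by rw [hh, hq]; nlinarith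
    obtain ⟨S, hS⟩ : ∃ S : Finset ((ℕ × ℕ) × (ℕ × ℕ)), S =
        (PR q ×ˢ PR (5 * q)) ×ˢ (PR h ×ˢ Finset.Icc 1 m) := ⟨_, rfl⟩
    have hSm : ∀ x ∈ S, x.1.1.Prime ∧ q ≤ x.1.1 ∧ (x.1.1 : ℝ) ≤ 4 * q ∧
        x.1.2.Prime ∧ 5 * q ≤ x.1.2 ∧ (x.1.2 : ℝ) ≤ 20 * q ∧
        x.2.1.Prime ∧ h ≤ x.2.1 ∧ (x.2.1 : ℝ) ≤ 4 * h ∧ 1 ≤ x.2.2 ∧ x.2.2 < x.2.1 := by
      intro x hx
      rw [hS, Finset.mem_product, Finset.mem_product, Finset.mem_product, Finset.mem_Icc] at hx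
      obtain ⟨⟨a1, a2⟩, a3, a4, a5⟩ := hx
      obtain ⟨b1, b2, b3⟩ := mem_PR hq1 a1
      obtain ⟨b4, b5, b6⟩ := mem_PR (by linarith) a2
      obtain ⟨b7, b8, b9⟩ := mem_PR (by linarith) a3
      refine ⟨b1, b2, b3, b4, b5, by linarith, b7, b8, b9, a4, ?_⟩
      have e1 : (x.2.2 : ℝ) ≤ m := by exact_mod_cast a5
      have e2 : (x.2.2 : ℝ) < x.2.1 := by linarith
      exact_mod_cast e2
    have hex : ∀ x ∈ S, ∃ y : ℕ × ℕ, 1 ≤ y.1 ∧ y.1 < x.2.1 ∧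
        x.1.1 * x.2.2 + x.1.2 * y.1 = y.2 * x.2.1 := by
      intro x hx
      obtain ⟨a1, a2, a3, a4, a5, a6, a7, a8, a9, a10, a11⟩ := hSm x hx
      have hZA : (x.2.1 : ℝ) < x.1.1 := by nlinarith
      have hZB : (x.2.1 : ℝ) < x.1.2 := by nlinarith
      have hZA' : x.2.1 < x.1.1 := by exact_mod_cast hZA
      have hZB' : x.2.1 < x.1.2 := by exact_mod_cast hZB
      obtain ⟨Y, h1, h2, h3⟩ := exY (A := x.1.1) (B := x.1.2) (X := x.2.2) a7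
        (fun hd => by
          have := (Nat.prime_dvd_prime_iff_eq a7 a1).1 hd
          omega)
        (fun hd => by
          have := (Nat.prime_dvd_prime_iff_eq a7 a4).1 hd
          omega)
        (fun hd => by
          have := Nat.le_of_dvd a10 hd
          omega)
      obtain ⟨C, hC⟩ := h3
      exact ⟨(Y, C), h1, h2, by rw [hC]; ring⟩
    choose! k k1 k2 k3 using hex
    have hinj : Set.InjOn (fun x : (ℕ × ℕ) × (ℕ × ℕ) => (x.1.1, x.1.2, (k x).2)) S := by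
      intro x hx y hy hxy
      simp only [Prod.mk.injEq] at hxy
      obtain ⟨u1, u2, u3⟩ := hxy
      have hx' := Finset.mem_coe.1 hx
      have hy' := Finset.mem_coe.1 hy
      obtain ⟨a1, a2, a3, a4, a5, a6, a7, a8, a9, a10, a11⟩ := hSm x hx'
      obtain ⟨b1, b2, b3, b4, b5, b6, b7, b8, b9, b10, b11⟩ := hSm y hy'
      have hne : x.1.1 ≠ x.1.2 := by
        intro he
        rw [he] at a3
        linarith
      have hlt : x.2.1 * y.2.1 < x.1.1 := by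
        have e1 : (x.2.1 : ℝ) * y.2.1 ≤ 4 * h * (4 * h) :=
          mul_le_mul a9 b9 (by positivity) (by linarith)
        have e2 : (x.2.1 : ℝ) * y.2.1 < x.1.1 := by linarith
        exact_mod_cast e2
      have hk := k3 y hy'
      rw [← u1, ← u2, ← u3] at hk
      obtain ⟨v1, v2⟩ := inj_aux a1 a4 hne a7 b7 a10 a11 (k2 x hx') b11 (k2 y hy') hlt
        (k3 x hx') hk
      refine Prod.ext (Prod.ext u1 u2) (Prod.ext v1 v2)
    have hmaps : ∀ x ∈ S, ((fun x : (ℕ × ℕ) × (ℕ × ℕ) => (x.1.1, x.1.2, (k x).2)) x) ∈ E := by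
      intro x hx
      obtain ⟨a1, a2, a3, a4, a5, a6, a7, a8, a9, a10, a11⟩ := hSm x hx
      have hY1 := k1 x hx
      have hY2 := k2 x hx
      have heq := k3 x hx
      have hZ0 := a7.pos
      have hAB : x.1.1 + x.1.2 ≤ N := by
        have : (x.1.1 : ℝ) + x.1.2 ≤ N := by
          rw [hq] at a3 a6
          linarith
        exact_mod_cast this
      have hC : (k x).2 ≤ x.1.1 + x.1.2 := by
        have e1 : (k x).2 * x.2.1 ≤ (x.1.1 + x.1.2) * x.2.1 := by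
          rw [← heq, add_mul]
          exact Nat.add_le_add (Nat.mul_le_mul_left _ a11.le) (Nat.mul_le_mul_left _ hY2.le)
        exact Nat.le_of_mul_le_mul_right e1 hZ0
      have hC0 : 1 ≤ (k x).2 := by
        rw [Nat.one_le_iff_ne_zero]
        intro h0
        rw [h0, zero_mul] at heq
        have := Nat.mul_pos a1.pos a10
        omega
      have hA1 := a1.pos
      have hB1 := a4.pos
      refine hE _ _ _ hA1 (by omega) hB1 (by omega) hC0 (by omega)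
        ⟨x.2.2, (k x).1, x.2.1, a10, hY1, hZ0, heq, ?_⟩
      have r2 : x.2.2 * (k x).1 * x.2.1 ≤ x.2.1 * x.2.1 * x.2.1 :=
        Nat.mul_le_mul_right _ (Nat.mul_le_mul a11.le hY2.le)
      have r3 : ((x.2.2 * (k x).1 * x.2.1 : ℕ) : ℝ) ≤ (x.2.1 : ℝ) * x.2.1 * x.2.1 := by
        exact_mod_cast r2
      have r4 : (x.2.1 : ℝ) ≤ H := by rw [hh] at a9; linarith
      calc ((x.2.2 * (k x).1 * x.2.1 : ℕ) : ℝ) ≤ (x.2.1 : ℝ) * x.2.1 * x.2.1 := r3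
        _ ≤ H * H * H := by gcongr
        _ = H ^ 3 := by ring
    have hcard := Finset.card_le_card_of_injOn _ hmaps hinj
    rw [hS, Finset.card_product, Finset.card_product, Finset.card_product, Nat.card_Icc,
      Nat.add_sub_cancel] at hcard
    have hcard' : ((PR q).card : ℝ) * (PR (5 * q)).card * ((PR h).card * m) ≤ (E.card : ℝ) := by
      exact_mod_cast hcard
    have p1 := hPR q N hq1 (by rw [hq]; linarith)
    have p2 := hPR (5 * q) N (by linarith) (by rw [hq]; linarith)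
    have p3 := hPR h N (by linarith) (by rw [hh]; linarith)
    have hpw : 0 < (N : ℝ) ^ (-(ε / 3)) := Real.rpow_pos_of_pos hN0 _
    have hprod : (c0 * q * (N : ℝ) ^ (-(ε / 3))) * (c0 * (5 * q) * (N : ℝ) ^ (-(ε / 3))) *
        ((c0 * h * (N : ℝ) ^ (-(ε / 3))) * (h / 4)) ≤
        ((PR q).card : ℝ) * (PR (5 * q)).card * ((PR h).card * m) := by
      gcongr
    have hpow : (N : ℝ) ^ (2 - ε) = (N : ℝ) ^ 2 * ((N : ℝ) ^ (-(ε / 3)) * (N : ℝ) ^ (-(ε / 3)) *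
        (N : ℝ) ^ (-(ε / 3))) := by
      rw [← Real.rpow_add hN0, ← Real.rpow_add hN0, ← Real.rpow_natCast, ← Real.rpow_add hN0]
      congr 1
      push_cast
      ring
    have hcle : c ≤ c0 ^ 3 * (5 / 4) / 1600 / 676 := by rw [hc]; exact min_le_right _ _
    calc c * (N : ℝ) ^ (2 - ε) * H ^ 2 ≤
        (c0 ^ 3 * (5 / 4) / 1600 / 676) * (N : ℝ) ^ (2 - ε) * H ^ 2 := by gcongr
      _ = (c0 * q * (N : ℝ) ^ (-(ε / 3))) * (c0 * (5 * q) * (N : ℝ) ^ (-(ε / 3))) *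
        ((c0 * h * (N : ℝ) ^ (-(ε / 3))) * (h / 4)) := by
          rw [hpow, hq, hh]
          ring
      _ ≤ _ := hprod.trans hcard'

/-- the number of the coefficients which have a solution with a small radical, upper bound -/
theorem count_up (ε : ℝ) (hε : 0 < ε) : ∃ K : ℝ, ∀ (N : ℕ) (R : ℝ), 1 ≤ N → 1 ≤ R →
    R ≤ (N : ℝ) ^ (3 / 2 : ℝ) → ∀ E : Finset (ℕ × ℕ × ℕ), (∀ e ∈ E, 1 ≤ e.1 ∧ e.1 ≤ N ∧
      1 ≤ e.2.1 ∧ e.2.1 ≤ N ∧ 1 ≤ e.2.2 ∧ e.2.2 ≤ N ∧ (Sm R e.1 e.2.1 e.2.2 ∨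
        Sm R e.2.1 e.2.2 e.1 ∨ Sm R e.1 e.2.2 e.2.1)) →
    (E.card : ℝ) ≤ K * (N : ℝ) ^ (2 + ε) * R ^ (2 / 3 : ℝ) := by
  classical
  obtain ⟨D, hD, hcnt⟩ := count_pos (ε / 41) (by positivity)
  refine ⟨3 * D, fun N R hN hR1 hRN E hE => ?_⟩
  have hNr : (1 : ℝ) ≤ N := by exact_mod_cast hN
  have hN0 : (0 : ℝ) < N := by linarith
  have hR0 : 0 < R := by linarith
  have hWb : ((N : ℝ) ^ 3 * R) ^ (2 / 3 + 9 * (ε / 41)) ≤ (N : ℝ) ^ (2 + ε) * R ^ (2 / 3 : ℝ) := by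
    have e0 : 0 < (N : ℝ) ^ 3 * R := by positivity
    rw [Real.rpow_add e0, Real.mul_rpow (by positivity) hR0.le]
    have e1 : ((N : ℝ) ^ 3) ^ (2 / 3 : ℝ) = (N : ℝ) ^ (2 : ℝ) := by
      rw [← Real.rpow_natCast, ← Real.rpow_mul hN0.le]
      norm_num
    have e2 : ((N : ℝ) ^ 3 * R) ^ (9 * (ε / 41)) ≤ (N : ℝ) ^ ε := by
      have f1 : (N : ℝ) ^ 3 * R ≤ (N : ℝ) ^ (9 / 2 : ℝ) := by
        calc (N : ℝ) ^ 3 * R ≤ (N : ℝ) ^ 3 * (N : ℝ) ^ (3 / 2 : ℝ) := by gcongr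
          _ = (N : ℝ) ^ (9 / 2 : ℝ) := by
              rw [← Real.rpow_natCast, ← Real.rpow_add hN0]
              norm_num
      calc ((N : ℝ) ^ 3 * R) ^ (9 * (ε / 41)) ≤ ((N : ℝ) ^ (9 / 2 : ℝ)) ^ (9 * (ε / 41)) :=
            Real.rpow_le_rpow e0.le f1 (by positivity)
        _ = (N : ℝ) ^ (9 / 2 * (9 * (ε / 41))) := by rw [← Real.rpow_mul hN0.le]
        _ ≤ (N : ℝ) ^ ε := Real.rpow_le_rpow_of_exponent_le hNr (by linarith)
    rw [e1]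
    calc (N : ℝ) ^ (2 : ℝ) * R ^ (2 / 3 : ℝ) * ((N : ℝ) ^ 3 * R) ^ (9 * (ε / 41)) ≤
        (N : ℝ) ^ (2 : ℝ) * R ^ (2 / 3 : ℝ) * (N : ℝ) ^ ε := by gcongr
      _ = _ := by rw [Real.rpow_add hN0]; ring
  have hbd : ∀ E' : Finset (ℕ × ℕ × ℕ), (∀ e ∈ E', 1 ≤ e.1 ∧ e.1 ≤ N ∧ 1 ≤ e.2.1 ∧ e.2.1 ≤ N ∧
      1 ≤ e.2.2 ∧ e.2.2 ≤ N ∧ Sm R e.1 e.2.1 e.2.2) →
      (E'.card : ℝ) ≤ D * ((N : ℝ) ^ (2 + ε) * R ^ (2 / 3 : ℝ)) := by
    intro E' hE'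
    exact (hcnt N R hN hR1 E' hE').trans (mul_le_mul_of_nonneg_left hWb hD.le)
  obtain ⟨E1, hE1⟩ : ∃ E1, E1 = E.filter fun e => Sm R e.1 e.2.1 e.2.2 := ⟨_, rfl⟩
  obtain ⟨E2, hE2⟩ : ∃ E2, E2 = E.filter fun e => Sm R e.2.1 e.2.2 e.1 := ⟨_, rfl⟩
  obtain ⟨E3, hE3⟩ : ∃ E3, E3 = E.filter fun e => Sm R e.1 e.2.2 e.2.1 := ⟨_, rfl⟩
  have hsub : E ⊆ (E1 ∪ E2) ∪ E3 := by
    intro e he
    obtain ⟨-, -, -, -, -, -, h⟩ := hE e he
    rw [Finset.mem_union, Finset.mem_union, hE1, hE2, hE3,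
      Finset.mem_filter, Finset.mem_filter, Finset.mem_filter]
    tauto
  have c0 : E.card ≤ (E1.card + E2.card) + E3.card :=
    (Finset.card_le_card hsub).trans ((Finset.card_union_le _ _).trans
      (Nat.add_le_add (Finset.card_union_le _ _) le_rfl))
  have c1 : (E1.card : ℝ) ≤ D * ((N : ℝ) ^ (2 + ε) * R ^ (2 / 3 : ℝ)) := by
    refine hbd E1 fun e he => ?_
    rw [hE1, Finset.mem_filter] at he
    obtain ⟨h1, h2, h3, h4, h5, h6, -⟩ := hE e he.1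
    exact ⟨h1, h2, h3, h4, h5, h6, he.2⟩
  have c2 : (E2.card : ℝ) ≤ D * ((N : ℝ) ^ (2 + ε) * R ^ (2 / 3 : ℝ)) := by
    have e1 : (E2.image fun e => (e.2.1, e.2.2, e.1)).card = E2.card := by
      refine Finset.card_image_of_injective _ ?_
      rintro ⟨a, b, c⟩ ⟨a', b', c'⟩ h
      simp only [Prod.mk.injEq] at h ⊢
      exact ⟨h.2.2, h.1, h.2.1⟩
    rw [← e1]
    refine hbd _ fun y hy => ?_
    rw [Finset.mem_image] at hy
    obtain ⟨e, he, rfl⟩ := hy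
    rw [hE2, Finset.mem_filter] at he
    obtain ⟨h1, h2, h3, h4, h5, h6, -⟩ := hE e he.1
    exact ⟨h3, h4, h5, h6, h1, h2, he.2⟩
  have c3 : (E3.card : ℝ) ≤ D * ((N : ℝ) ^ (2 + ε) * R ^ (2 / 3 : ℝ)) := by
    have e1 : (E3.image fun e => (e.1, e.2.2, e.2.1)).card = E3.card := by
      refine Finset.card_image_of_injective _ ?_
      rintro ⟨a, b, c⟩ ⟨a', b', c'⟩ h
      simp only [Prod.mk.injEq] at h ⊢
      exact ⟨h.1, h.2.2, h.2.1⟩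
    rw [← e1]
    refine hbd _ fun y hy => ?_
    rw [Finset.mem_image] at hy
    obtain ⟨e, he, rfl⟩ := hy
    rw [hE3, Finset.mem_filter] at he
    obtain ⟨h1, h2, h3, h4, h5, h6, -⟩ := hE e he.1
    exact ⟨h1, h2, h5, h6, h3, h4, he.2⟩
  have c5 : (E.card : ℝ) ≤ (E1.card + E2.card) + E3.card := by exact_mod_cast c0
  calc (E.card : ℝ) ≤ _ := c5
    _ ≤ (D * ((N : ℝ) ^ (2 + ε) * R ^ (2 / 3 : ℝ)) + D * ((N : ℝ) ^ (2 + ε) * R ^ (2 / 3 : ℝ))) +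
        D * ((N : ℝ) ^ (2 + ε) * R ^ (2 / 3 : ℝ)) := by gcongr
    _ = _ := by ring

/-- few coefficients have a pair with a small ratio, real form -/
theorem few_pairs {N : ℕ} (hN : 1 ≤ N) (E : Finset (ℕ × ℕ × ℕ)) (hE : ∀ e ∈ E, 1 ≤ e.1 ∧ e.1 ≤ N ∧
    1 ≤ e.2.1 ∧ e.2.1 ≤ N ∧ 1 ≤ e.2.2 ∧ e.2.2 ≤ N ∧ (Pr (Nat.sqrt (3 * N)) e.2.1 e.2.2 ∨
      Pr (Nat.sqrt (3 * N)) e.1 e.2.2 ∨ Pr (Nat.sqrt (3 * N)) e.1 e.2.1)) :
    (E.card : ℝ) ≤ 12 * (N : ℝ) ^ (5 / 2 : ℝ) := by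
  have hNr : (1 : ℝ) ≤ N := by exact_mod_cast hN
  have hN0 : (0 : ℝ) < N := by linarith
  have e1 := count_zero N (Nat.sqrt (3 * N)) E hE
  have e2 : (E.card : ℝ) ≤ 6 * ((N : ℝ) * N * (Nat.sqrt (3 * N) : ℕ)) := by exact_mod_cast e1
  have e3 : ((Nat.sqrt (3 * N) : ℕ) : ℝ) ≤ 2 * (N : ℝ) ^ (1 / 2 : ℝ) := by
    rw [← Real.sqrt_eq_rpow]
    refine (Real.nat_sqrt_le_real_sqrt).trans ?_
    push_cast
    calc Real.sqrt (3 * (N : ℝ)) ≤ Real.sqrt (2 ^ 2 * (N : ℝ)) :=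
          Real.sqrt_le_sqrt (by linarith)
      _ = 2 * Real.sqrt N := by
          rw [Real.sqrt_mul (by norm_num), Real.sqrt_sq (by norm_num)]
  have e4 : (N : ℝ) * N * (N : ℝ) ^ (1 / 2 : ℝ) = (N : ℝ) ^ (5 / 2 : ℝ) := by
    have e5 : (N : ℝ) * N = (N : ℝ) ^ (2 : ℝ) := by
      rw [Real.rpow_two]; ring
    rw [e5, ← Real.rpow_add hN0]
    norm_num
  calc (E.card : ℝ) ≤ 6 * ((N : ℝ) * N * (2 * (N : ℝ) ^ (1 / 2 : ℝ))) :=
        e2.trans (by gcongr)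
    _ = 12 * ((N : ℝ) * N * (N : ℝ) ^ (1 / 2 : ℝ)) := by ring
    _ = _ := by rw [e4]

end Pool.Agent.TH194.MR
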