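import Pool.Agent.H925R.Szpiro.Twist

/-!
The minimal model with full 2-torsion attached to an abc triple, and the converse.
-/

set_option autoImplicit false

namespace Pool.Agent.TH194.MR

open Finset Pool.Agent.H925R.Szpiro

/-- the model with the roots `-(2u+v), u-v, u+2v` -/
def cA (u v : ℕ) : ℤ := 3 * ((u : ℤ) ^ 2 + u * v + (v : ℤ) ^ 2)

def cB (u v : ℕ) : ℤ := -((2 * (u : ℤ) + v) * (u - v) * (u + 2 * v))

theorem c_D (u v : ℕ) : D (cA u v) (cB u v) = 729 * ((u * v * (u + v) : ℕ) : ℤ) ^ 2 := by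
  unfold D cA cB
  push_cast
  ring

theorem c_full (u v : ℕ) : FullS (cA u v) (cB u v) := by
  refine ⟨-(2 * (u : ℚ) + v), (u : ℚ) - v, (u : ℚ) + 2 * v, fun x => ?_⟩
  unfold cA cB
  push_cast
  ring

theorem not_both {u v : ℕ} (huv : Nat.Coprime u v) {q : ℕ} (hq : q.Prime)
    (h : (q : ℤ) ∣ (u : ℤ) ^ 2 + u * v + (v : ℤ) ^ 2) :
    ¬ (q : ℤ) ∣ ((u * v * (u + v) : ℕ) : ℤ) := by
  intro hd
  have hqI : Prime (q : ℤ) := Nat.prime_iff_prime_int.1 hq
  have hno : ¬ ((q : ℤ) ∣ u ∧ (q : ℤ) ∣ v) := by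
    rintro ⟨h1, h2⟩
    exact Nat.not_coprime_of_dvd_of_dvd hq.one_lt (Int.natCast_dvd_natCast.1 h1)
      (Int.natCast_dvd_natCast.1 h2) huv
  have key1 : (q : ℤ) ∣ u → (q : ℤ) ∣ v := by
    intro h1
    have h2 : (q : ℤ) ∣ (v : ℤ) ^ 2 := by
      have e : (v : ℤ) ^ 2 = ((u : ℤ) ^ 2 + u * v + (v : ℤ) ^ 2) - u * (u + v) := by ring
      rw [e]
      exact dvd_sub h (h1.mul_right _)
    exact hqI.dvd_of_dvd_pow h2
  have key2 : (q : ℤ) ∣ v → (q : ℤ) ∣ u := by
    intro h1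
    have h2 : (q : ℤ) ∣ (u : ℤ) ^ 2 := by
      have e : (u : ℤ) ^ 2 = ((u : ℤ) ^ 2 + u * v + (v : ℤ) ^ 2) - v * (u + v) := by ring
      rw [e]
      exact dvd_sub h (h1.mul_right _)
    exact hqI.dvd_of_dvd_pow h2
  push_cast at hd
  rcases hqI.dvd_or_dvd hd with h1 | h1
  · rcases hqI.dvd_or_dvd h1 with h2 | h2
    · exact hno ⟨h2, key1 h2⟩
    · exact hno ⟨key2 h2, h2⟩
  · have h2 : (q : ℤ) ∣ (u : ℤ) * v := by
      have e : (u : ℤ) * v = (u + v) * (u + v) - ((u : ℤ) ^ 2 + u * v + (v : ℤ) ^ 2) := by ring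
      rw [e]
      exact dvd_sub (h1.mul_right _) h
    rcases hqI.dvd_or_dvd h2 with h3 | h3
    · exact hno ⟨h3, key1 h3⟩
    · exact hno ⟨key2 h3, h3⟩

theorem no_fourth {u v : ℕ} (huv : Nat.Coprime u v) {q : ℕ} (hq : q.Prime) (ha : (q : ℤ) ^ 4 ∣ cA u v) (hb : (q : ℤ) ^ 6 ∣ cB u v) : False := by
  have hqI : Prime (q : ℤ) := Nat.prime_iff_prime_int.1 hq
  have ha1 : (q : ℤ) ∣ cA u v := (dvd_pow_self _ (by norm_num)).trans ha
  have hb1 : (q : ℤ) ∣ cB u v := (dvd_pow_self _ (by norm_num)).trans hb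
  by_cases h3 : q = 3
  · -- `q = 3`
    rw [h3] at ha
    obtain ⟨k, hk⟩ := ha
    have h27 : (u : ℤ) ^ 2 + u * v + (v : ℤ) ^ 2 = 27 * k := by
      unfold cA at hk
      push_cast at hk
      linarith
    have hd : (3 : ℤ) ∣ ((u : ℤ) - v) ^ 2 := by
      refine ⟨9 * k - u * v, ?_⟩
      linear_combination h27
    have hd2 : (3 : ℤ) ∣ (u : ℤ) - v := Int.prime_three.dvd_of_dvd_pow hd
    obtain ⟨m, hm⟩ := hd2
    have hd3 : (3 : ℤ) ∣ (u : ℤ) * v := by
      refine ⟨3 * k - m ^ 2, ?_⟩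
      have e1 : ((u : ℤ) - v) ^ 2 = 9 * m ^ 2 := by rw [hm]; ring
      have e2 : 3 * ((u : ℤ) * v) = 27 * k - 9 * m ^ 2 := by
        rw [← e1]
        linear_combination h27
      linarith
    have h3I : (3 : ℤ) ∣ u ∧ (3 : ℤ) ∣ v := by
      rcases Int.prime_three.dvd_or_dvd hd3 with h | h
      · refine ⟨h, ?_⟩
        have e : (v : ℤ) = u - 3 * m := by linarith
        rw [e]
        exact dvd_sub h (dvd_mul_right _ _)
      · refine ⟨?_, h⟩
        have e : (u : ℤ) = v + 3 * m := by linarith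
        rw [e]
        exact dvd_add h (dvd_mul_right _ _)
    have e1 : 3 ∣ u := by exact_mod_cast h3I.1
    have e2 : 3 ∣ v := by exact_mod_cast h3I.2
    exact Nat.not_coprime_of_dvd_of_dvd (by norm_num) e1 e2 huv
  · have hq3 : ¬ (q : ℤ) ∣ 3 := by
      intro h
      have h1 : q ∣ 3 := by exact_mod_cast h
      exact h3 ((Nat.prime_dvd_prime_iff_eq hq (by norm_num)).1 h1)
    have h1 : (q : ℤ) ∣ (u : ℤ) ^ 2 + u * v + (v : ℤ) ^ 2 :=
      (hqI.dvd_or_dvd ha1).resolve_left hq3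
    have h2 : (q : ℤ) ∣ D (cA u v) (cB u v) := by
      unfold D
      exact dvd_sub ((ha1.pow (by norm_num)).mul_left 4) ((hb1.pow (by norm_num)).mul_left 27)
    rw [c_D] at h2
    have h4 : (q : ℤ) ∣ ((u * v * (u + v) : ℕ) : ℤ) := by
      rcases hqI.dvd_or_dvd h2 with h | h
      · exfalso
        have e : (729 : ℤ) = 3 ^ 6 := by norm_num
        rw [e] at h
        exact hq3 (hqI.dvd_of_dvd_pow h)
      · exact hqI.dvd_of_dvd_pow h
    exact not_both huv hq h1 h4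

theorem c_min {u v : ℕ} (huv : Nat.Coprime u v) (hu : 0 < u) (hv : 0 < v) :
    IsMin (cA u v) (cB u v) := by
  have hP : 0 < u * v * (u + v) := by positivity
  have hP' : (0 : ℤ) < ((u * v * (u + v) : ℕ) : ℤ) := by exact_mod_cast hP
  refine ⟨by rw [c_D]; positivity, ?_⟩
  intro w a' b' hw ha hb
  have hden : (w.den : ℤ) ^ 4 ∣ cA u v ∧ (w.den : ℤ) ^ 6 ∣ cB u v := by
    have hnd : IsCoprime (w.den : ℤ) w.num := by
      have h1 := w.reduced
      have h2 := Int.isCoprime_iff_gcd_eq_one.2 (by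
        rw [Int.gcd_comm]; exact h1 : Int.gcd (w.den : ℤ) w.num = 1)
      exact h2
    have hq : (w.den : ℚ) ≠ 0 := by exact_mod_cast w.den_nz
    have hue : w = (w.num : ℚ) / (w.den : ℚ) := (Rat.num_div_den w).symm
    constructor
    · have e1 : (a' : ℚ) * (w.den : ℚ) ^ 4 = (w.num : ℚ) ^ 4 * cA u v := by
        rw [ha]
        nth_rewrite 1 [hue]
        field_simp
      have e2 : a' * (w.den : ℤ) ^ 4 = w.num ^ 4 * cA u v := by exact_mod_cast e1
      have e3 : (w.den : ℤ) ^ 4 ∣ w.num ^ 4 * cA u v := ⟨a', by rw [← e2]; ring⟩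
      exact (IsCoprime.pow hnd).dvd_of_dvd_mul_left e3
    · have e1 : (b' : ℚ) * (w.den : ℚ) ^ 6 = (w.num : ℚ) ^ 6 * cB u v := by
        rw [hb]
        nth_rewrite 1 [hue]
        field_simp
      have e2 : b' * (w.den : ℤ) ^ 6 = w.num ^ 6 * cB u v := by exact_mod_cast e1
      have e3 : (w.den : ℤ) ^ 6 ∣ w.num ^ 6 * cB u v := ⟨b', by rw [← e2]; ring⟩
      exact (IsCoprime.pow hnd).dvd_of_dvd_mul_left e3
  have hden1 : w.den = 1 := by
    by_contra hne
    obtain ⟨q, hq, hqd⟩ := Nat.exists_prime_and_dvd hne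
    have hqz : (q : ℤ) ∣ (w.den : ℤ) := Int.natCast_dvd_natCast.2 hqd
    exact no_fourth huv hq ((pow_dvd_pow_of_dvd hqz 4).trans hden.1)
      ((pow_dvd_pow_of_dvd hqz 6).trans hden.2)
  have hnum : (w.num : ℚ) = w := by
    have := Rat.num_div_den w
    rw [hden1] at this
    simpa using this
  have hn0 : w.num ≠ 0 := Rat.num_ne_zero.2 hw
  have e1 : ((D a' b' : ℤ) : ℚ) = w ^ 12 * ((D (cA u v) (cB u v) : ℤ) : ℚ) := by
    unfold D
    push_cast
    rw [ha, hb]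
    ring
  have e2 : D a' b' = w.num ^ 12 * D (cA u v) (cB u v) := by
    rw [← hnum] at e1
    exact_mod_cast e1
  rw [e2, abs_mul]
  have h12 : 1 ≤ |w.num ^ 12| := Int.one_le_abs (pow_ne_zero _ hn0)
  nlinarith [abs_nonneg (D (cA u v) (cB u v))]

/-- the conductor of the curve of a triple -/
theorem c_cond {u v : ℕ} (huv : Nat.Coprime u v) (hu : 0 < u) (hv : 0 < v) :
    condS (cA u v) (cB u v) =
      ∏ q ∈ (u * v * (u + v)).primeFactors.filter (fun q => 5 ≤ q), q := by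
  have hP : 0 < u * v * (u + v) := by positivity
  obtain ⟨m, hm⟩ : ∃ m, m = u * v * (u + v) := ⟨_, rfl⟩
  have hD : (D (cA u v) (cB u v)).natAbs = 729 * m ^ 2 := by
    rw [c_D, hm, Int.natAbs_mul, Int.natAbs_pow, Int.natAbs_natCast]
    rfl
  have hset : (729 * m ^ 2).primeFactors.filter (fun q => 5 ≤ q) =
      m.primeFactors.filter (fun q => 5 ≤ q) := by
    ext q
    simp only [Finset.mem_filter, Nat.mem_primeFactors]
    constructor
    · rintro ⟨⟨h1, h2, -⟩, h4⟩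
      refine ⟨⟨h1, ?_, by omega⟩, h4⟩
      rcases h1.dvd_mul.1 h2 with h | h
      · exfalso
        have e : (729 : ℕ) = 3 ^ 6 := by norm_num
        rw [e] at h
        have := Nat.le_of_dvd (by norm_num) (h1.dvd_of_dvd_pow h)
        omega
      · exact h1.dvd_of_dvd_pow h
    · rintro ⟨⟨h1, h2, -⟩, h4⟩
      refine ⟨⟨h1, (h2.trans (dvd_pow_self _ two_ne_zero)).mul_left _, ?_⟩, h4⟩
      have : 0 < m := by omega
      positivity
  unfold condS
  rw [hD, hset, ← hm]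
  refine prod_congr rfl fun q hq => ?_
  obtain ⟨hq1, hq2⟩ := mem_filter.1 hq
  have hqp := Nat.prime_of_mem_primeFactors hq1
  rw [if_neg]
  intro hd
  have hqI : Prime (q : ℤ) := Nat.prime_iff_prime_int.1 hqp
  have h1 : (q : ℤ) ∣ (u : ℤ) ^ 2 + u * v + (v : ℤ) ^ 2 := by
    refine (hqI.dvd_or_dvd hd).resolve_left fun h => ?_
    have h5 : q ∣ 3 := by exact_mod_cast h
    have := Nat.le_of_dvd (by norm_num) h5
    omega
  refine not_both huv hqp h1 ?_
  rw [← hm]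
  exact Int.natCast_dvd_natCast.2 (Nat.dvd_of_mem_primeFactors hq1)

/-- a squarefree integer prime to 6 divides an integer as soon as its primes do -/
theorem dvd_of_primes {n m : ℕ} (hn : Squarefree n) (h : ∀ q ∈ n.primeFactors, q ∣ m) : n ∣ m := by
  rw [← Nat.prod_primeFactors_of_squarefree hn]
  exact Finset.prod_primes_dvd m (fun q hq => (Nat.prime_of_mem_primeFactors hq).prime) h

theorem five_le {n q : ℕ} (h6 : Nat.Coprime n 6) (hq : q ∈ n.primeFactors) : 5 ≤ q := by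
  have hp := Nat.prime_of_mem_primeFactors hq
  have hd := Nat.dvd_of_mem_primeFactors hq
  by_contra hcon
  have h2 := hp.two_le
  have h3 : q ∣ 6 := by
    have : q = 2 ∨ q = 3 ∨ q = 4 := by omega
    rcases this with h | h | h
    · rw [h]; norm_num
    · rw [h]; norm_num
    · rw [h] at hp
      exact absurd hp (by norm_num)
  exact Nat.not_coprime_of_dvd_of_dvd hp.one_lt hd h3 h6

/-- from a triple to a curve -/
theorem curve_of {n a b c : ℕ} (hn : Squarefree n) (h6 : Nat.Coprime n 6) (ha : 0 < a) (hb : 0 < b)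
    (hc : a + b = c) (hab : Nat.gcd a b = 1) (hd : n ∣ a * b * c) :
    ∃ A B : ℤ, IsMin A B ∧ FullS A B ∧ n ∣ condS A B ∧
      condS A B ≤ ∏ p ∈ (a * b * c).primeFactors, p := by
  subst hc
  refine ⟨cA a b, cB a b, c_min hab ha hb, c_full a b, ?_, ?_⟩
  · rw [c_cond hab ha hb]
    refine dvd_of_primes hn fun q hq => ?_
    refine Finset.dvd_prod_of_mem (fun q => q) ?_
    rw [Finset.mem_filter]
    refine ⟨?_, five_le h6 hq⟩
    exact Nat.primeFactors_mono hd (by positivity) hq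
  · rw [c_cond hab ha hb]
    exact prod_le_prod_of_subset_of_one_le' (filter_subset _ _)
      fun q hq _ => (Nat.prime_of_mem_primeFactors hq).one_le

/-- from a curve to a triple -/
theorem triple_of {n : ℕ} (hn : Squarefree n) (h6 : Nat.Coprime n 6) {A B : ℤ} (hmin : IsMin A B)
    (hf : FullS A B) (hd : n ∣ condS A B) :
    ∃ d m u v : ℕ, n = d * m ∧ 0 < u ∧ 0 < v ∧ Nat.gcd u v = 1 ∧ m ∣ u * v * (u + v) ∧
      (∏ p ∈ (u * v * (u + v)).primeFactors, p) * d ^ 2 ≤ 6 * condS A B := by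
  obtain ⟨i, j, g₁, g₂, u, v, -, -, hg1, hg2, hu, hv, huv, hg, -, hD, hc⟩ := twist_pair A B hmin hf
  have hD0 : D A B ≠ 0 := hmin.1
  have hn0 : n ≠ 0 := hn.ne_zero
  have hdvd : n ∣ g₂ * (u * v * (u + v)) := by
    refine dvd_of_primes hn fun q hq => ?_
    have hqp := Nat.prime_of_mem_primeFactors hq
    have h5 := five_le h6 hq
    have hqI : Prime (q : ℤ) := Nat.prime_iff_prime_int.1 hqp
    -- `q ∣ D`
    have h1 : q ∣ condS A B := (Nat.dvd_of_mem_primeFactors hq).trans hd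
    unfold condS at h1
    obtain ⟨r, hr, hqr⟩ := (hqp.prime.dvd_finsetProd_iff _).1 h1
    rw [mem_filter] at hr
    have hrp := Nat.prime_of_mem_primeFactors hr.1
    have hqr' : q = r := by
      split_ifs at hqr with h
      · exact (Nat.prime_dvd_prime_iff_eq hqp hrp).1 (hqp.dvd_of_dvd_pow hqr)
      · exact (Nat.prime_dvd_prime_iff_eq hqp hrp).1 hqr
    have h2 : (q : ℤ) ∣ D A B := by
      rw [hqr', Int.natCast_dvd]
      exact Nat.dvd_of_mem_primeFactors hr.1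
    have hnot : ∀ (p e : ℕ), p.Prime → p < 5 → ¬ q ∣ p ^ e := by
      intro p e hp hp5 h
      have := (Nat.prime_dvd_prime_iff_eq hqp hp).1 (hqp.dvd_of_dvd_pow h)
      omega
    rw [hD] at h2
    rcases hqI.dvd_or_dvd h2 with h | h
    · have h3 := hqI.dvd_of_dvd_pow h
      have h4 : q ∣ 2 ^ i * 3 ^ j * (g₁ * g₂) := by exact_mod_cast h3
      rcases hqp.dvd_mul.1 h4 with h | h
      · rcases hqp.dvd_mul.1 h with h | h
        · exact absurd h (hnot 2 i (by norm_num) (by norm_num))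
        · exact absurd h (hnot 3 j (by norm_num) (by norm_num))
      · rcases hqp.dvd_mul.1 h with h | h
        · exact (h.trans hg).mul_left _
        · exact h.mul_right _
    · have h3 := hqI.dvd_of_dvd_pow h
      have h4 : q ∣ u * v * (u + v) := by exact_mod_cast h3
      exact h4.mul_left _
  obtain ⟨d, hdd⟩ : ∃ d, d = Nat.gcd n g₂ := ⟨_, rfl⟩
  have hdpos : 0 < d := by rw [hdd]; exact Nat.gcd_pos_of_pos_right _ hg2
  obtain ⟨m, hm⟩ : d ∣ n := by rw [hdd]; exact Nat.gcd_dvd_left _ _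
  obtain ⟨g, hgg⟩ : d ∣ g₂ := by rw [hdd]; exact Nat.gcd_dvd_right _ _
  have hcop : Nat.Coprime m g := by
    have h1 := Nat.coprime_div_gcd_div_gcd (m := n) (n := g₂) (by rw [← hdd]; exact hdpos)
    rw [← hdd] at h1
    have e1 : n / d = m := by rw [hm, Nat.mul_div_cancel_left _ hdpos]
    have e2 : g₂ / d = g := by rw [hgg, Nat.mul_div_cancel_left _ hdpos]
    rwa [e1, e2] at h1
  have hmd : m ∣ u * v * (u + v) := by
    rw [hm, hgg, mul_assoc] at hdvd
    exact hcop.dvd_of_dvd_mul_left (Nat.dvd_of_mul_dvd_mul_left hdpos hdvd)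
  refine ⟨d, m, u, v, hm, hu, hv, huv, hmd, ?_⟩
  refine le_trans ?_ hc
  have h1 : d ≤ g₂ := Nat.le_of_dvd hg2 ⟨g, hgg⟩
  have h2 : d ^ 2 ≤ (g₁ * g₂) * g₂ := by
    calc d ^ 2 = 1 * d * d := by ring
      _ ≤ (g₁ * g₂) * g₂ := Nat.mul_le_mul (Nat.mul_le_mul hg1 h1) h1
  calc (∏ p ∈ (u * v * (u + v)).primeFactors, p) * d ^ 2 ≤
      (∏ p ∈ (u * v * (u + v)).primeFactors, p) * ((g₁ * g₂) * g₂) := Nat.mul_le_mul_left _ h2
    _ = Pool.Agent.H328R2.ABC.rad (u * v * (u + v)) * (g₁ * g₂) * g₂ := by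
        have e : Pool.Agent.H328R2.ABC.rad (u * v * (u + v)) =
          ∏ p ∈ (u * v * (u + v)).primeFactors, p := rfl
        rw [e]
        ring

end Pool.Agent.TH194.MR
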