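import Pool.Agent.TH194.MR.Sup
import Pool.Agent.TH194.MR.Curve

/-!
Elliptic curves with full 2-torsion and good reduction outside `6 n`: for almost all `n` they are
quadratic twists of curves of small conductor.
-/

set_option autoImplicit false

namespace Pool.Agent.TH194.MR

open Finset Pool.Agent.H925R.Szpiro
open Pool.Agent.TH867.SR (Tr N3 rr)

/-- the `j`-invariant -/
def jI (a b : ℤ) : ℚ := 6912 * (a : ℚ) ^ 3 / (D a b : ℚ)

theorem to_tr2 {a b c : ℕ} (h : Triple a b c) : ∃ t : Fin 3 → ℕ, Tr t ∧ N3 t = a * b * c ∧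
    t 2 = c := by
  obtain ⟨ha, hb, hc, hg⟩ := h
  rcases le_total a b with hab | hab
  · exact ⟨![a, b, c], ⟨ha, hab, hg, hc⟩, rfl, rfl⟩
  · refine ⟨![b, a, c], ⟨hb, hab, ?_, ?_⟩, ?_, rfl⟩
    · show Nat.Coprime b a
      exact Nat.Coprime.symm hg
    · show b + a = c
      omega
    · show b * a * c = a * b * c
      ring

/-- a minimal curve with full 2-torsion is a twist of the curve of a triple -/
theorem frey_of {a b : ℤ} (hmin : IsMin a b) (hf : FullS a b) : ∃ u v : ℕ, 0 < u ∧ 0 < v ∧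
    Nat.gcd u v = 1 ∧ (∃ d : ℚ, d ≠ 0 ∧ (a : ℚ) = d ^ 2 * cA u v ∧ (b : ℚ) = d ^ 3 * cB u v) ∧
    ∀ p : ℕ, p ∣ u * v * (u + v) → (p : ℤ) ∣ D a b := by
  obtain ⟨i, j, g₁, g₂, u, v, -, -, hg1, hg2, hu, hv, huv, -, h3a, hD, -⟩ := twist_pair a b hmin hf
  obtain ⟨G, hG⟩ : ∃ G : ℕ, G = 2 ^ i * 3 ^ j * (g₁ * g₂) := ⟨_, rfl⟩
  rw [← hG] at h3a hD
  have hG0 : 0 < G := by rw [hG]; positivity
  have hGq : (G : ℚ) ≠ 0 := by exact_mod_cast hG0.ne'
  refine ⟨u, v, hu, hv, huv, ?_, ?_⟩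
  · have ha : (a : ℚ) = ((G : ℚ) / 3) ^ 2 * cA u v := by
      have h1 : (3 : ℚ) * a = (G : ℚ) ^ 2 * ((u : ℚ) ^ 2 + u * v + (v : ℚ) ^ 2) := by
        exact_mod_cast h3a
      unfold cA
      push_cast
      linarith
    have hDq : (4 : ℚ) * a ^ 3 - 27 * b ^ 2 = (G : ℚ) ^ 6 * ((u : ℚ) * v * (u + v)) ^ 2 := by
      have h1 : ((D a b : ℤ) : ℚ) = (G : ℚ) ^ 6 * ((u : ℚ) * v * (u + v)) ^ 2 := by
        rw [hD]; push_cast; ring
      rw [← h1]
      unfold D
      push_cast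
      ring
    have hb2 : ((b : ℚ) - ((G : ℚ) / 3) ^ 3 * cB u v) * ((b : ℚ) + ((G : ℚ) / 3) ^ 3 * cB u v) =
        0 := by
      have h2 : (27 : ℚ) * b ^ 2 = 4 * (((G : ℚ) / 3) ^ 2 * cA u v) ^ 3 -
          (G : ℚ) ^ 6 * ((u : ℚ) * v * (u + v)) ^ 2 := by
        rw [← ha, ← hDq]; ring
      unfold cA at h2
      unfold cB
      push_cast at h2 ⊢
      linear_combination h2 / 27
    rcases mul_eq_zero.1 hb2 with h | h
    · exact ⟨(G : ℚ) / 3, div_ne_zero hGq (by norm_num), ha, by linarith⟩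
    · refine ⟨-((G : ℚ) / 3), neg_ne_zero.2 (div_ne_zero hGq (by norm_num)), ?_, ?_⟩
      · rw [neg_pow_two]; exact ha
      · linarith [show (-((G : ℚ) / 3)) ^ 3 * cB u v = -(((G : ℚ) / 3) ^ 3 * cB u v) by ring]
  · intro p hp
    rw [hD]
    have h1 : (p : ℤ) ∣ ((u * v * (u + v) : ℕ) : ℤ) := Int.natCast_dvd_natCast.2 hp
    refine Dvd.dvd.mul_left ?_ _
    refine (dvd_trans h1 ?_)
    push_cast
    exact dvd_pow_self _ two_ne_zero

theorem jI_twist {a b a' b' : ℤ} {d : ℚ} (hd : d ≠ 0) (ha : (a : ℚ) = d ^ 2 * a')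
    (hb : (b : ℚ) = d ^ 3 * b') : jI a b = jI a' b' := by
  unfold jI D
  push_cast
  rw [ha, hb]
  have e : 4 * (d ^ 2 * (a' : ℚ)) ^ 3 - 27 * (d ^ 3 * (b' : ℚ)) ^ 2 =
      d ^ 6 * (4 * (a' : ℚ) ^ 3 - 27 * (b' : ℚ) ^ 2) := by ring
  rw [e, show 6912 * (d ^ 2 * (a' : ℚ)) ^ 3 = d ^ 6 * (6912 * (a' : ℚ) ^ 3) by ring]
  exact mul_div_mul_left _ _ (pow_ne_zero _ hd)

/-- the height of the `j`-invariant of the curve of a triple -/
theorem jI_height {u v : ℕ} (hu : 0 < u) (hv : 0 < v) :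
    Real.log (max |((jI (cA u v) (cB u v)).num : ℝ)| ((jI (cA u v) (cB u v)).den : ℝ)) ≤
      6 + 6 * Real.log ((u + v : ℕ) : ℝ) := by
  obtain ⟨x, hx⟩ : ∃ x : ℕ, x = 256 * (u ^ 2 + u * v + v ^ 2) ^ 3 := ⟨_, rfl⟩
  obtain ⟨y, hy⟩ : ∃ y : ℕ, y = (u * v * (u + v)) ^ 2 := ⟨_, rfl⟩
  have hy0 : 0 < y := by rw [hy]; positivity
  have hx0 : 0 < x := by rw [hx]; positivity
  have hj : jI (cA u v) (cB u v) = ((x : ℤ) : ℚ) / ((y : ℤ) : ℚ) := by
    unfold jI
    rw [c_D, hx, hy]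
    unfold cA
    have hne : (((u : ℚ)) * v * (u + v)) ≠ 0 := by positivity
    push_cast
    field_simp
    ring
  have hnum : |((jI (cA u v) (cB u v)).num : ℝ)| ≤ x := by
    have h1 : (jI (cA u v) (cB u v)).num ∣ (x : ℤ) := by
      rw [hj, ← Rat.divInt_eq_div]
      exact Rat.num_dvd _ (by
        have : (0 : ℤ) < (y : ℤ) := by exact_mod_cast hy0
        omega)
    have h2 : |(jI (cA u v) (cB u v)).num| ≤ (x : ℤ) := by
      refine Int.le_of_dvd (by exact_mod_cast hx0) ?_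
      exact (abs_dvd _ _).2 h1
    exact_mod_cast h2
  have hden : ((jI (cA u v) (cB u v)).den : ℝ) ≤ y := by
    have h1 : ((jI (cA u v) (cB u v)).den : ℤ) ∣ (y : ℤ) := by
      rw [hj, ← Rat.divInt_eq_div]
      exact Rat.den_dvd _ _
    exact_mod_cast Int.le_of_dvd (by exact_mod_cast hy0) h1
  have hc1 : 1 ≤ u + v := by omega
  have hxb : x ≤ 256 * (u + v) ^ 6 := by
    rw [hx]
    refine Nat.mul_le_mul_left _ ?_
    calc (u ^ 2 + u * v + v ^ 2) ^ 3 ≤ ((u + v) ^ 2) ^ 3 := by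
          refine Nat.pow_le_pow_left ?_ 3
          nlinarith
      _ = (u + v) ^ 6 := by rw [← pow_mul]
  have hyb : y ≤ 256 * (u + v) ^ 6 := by
    rw [hy]
    calc (u * v * (u + v)) ^ 2 ≤ ((u + v) * (u + v) * (u + v)) ^ 2 := by
          refine Nat.pow_le_pow_left ?_ 2
          refine Nat.mul_le_mul_right _ (Nat.mul_le_mul ?_ ?_) <;> omega
      _ = (u + v) ^ 6 := by ring
      _ ≤ 256 * (u + v) ^ 6 := Nat.le_mul_of_pos_left _ (by norm_num)
  have hmax : max |((jI (cA u v) (cB u v)).num : ℝ)| ((jI (cA u v) (cB u v)).den : ℝ) ≤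
      256 * ((u + v : ℕ) : ℝ) ^ 6 := by
    refine max_le (hnum.trans ?_) (hden.trans ?_)
    · exact_mod_cast hxb
    · exact_mod_cast hyb
  have hpos : 0 < max |((jI (cA u v) (cB u v)).num : ℝ)| ((jI (cA u v) (cB u v)).den : ℝ) := by
    refine lt_max_of_lt_right ?_
    exact_mod_cast (jI (cA u v) (cB u v)).den_pos
  have hcr : (0 : ℝ) < ((u + v : ℕ) : ℝ) := by exact_mod_cast hc1
  refine (Real.log_le_log hpos hmax).trans ?_
  rw [Real.log_mul (by norm_num) (by positivity), Real.log_pow]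
  have h256 : Real.log 256 ≤ 6 := by
    rw [show (256 : ℝ) = 2 ^ 8 by norm_num, Real.log_pow]
    have := Real.log_two_lt_d9
    push_cast
    linarith
  push_cast
  linarith

/-- `n` is regular: all curves with full 2-torsion and good reduction outside `6 n` are quadratic
twists of curves of conductor at most `Y`, and the heights of their `j`-invariants are small -/
def Reg (n : ℕ) (Y : ℝ) : Prop :=
  ∀ a b : ℤ, IsMin a b → FullS a b →
    (∀ p : ℕ, p.Prime → 5 ≤ p → (p : ℤ) ∣ D a b → p ∣ n) →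
    (∃ (d : ℚ) (a' b' : ℤ), d ≠ 0 ∧ IsMin a' b' ∧ (a : ℚ) = d ^ 2 * a' ∧ (b : ℚ) = d ^ 3 * b' ∧
      (condS a' b' : ℝ) ≤ Y) ∧
    Real.log (max |((jI a b).num : ℝ)| ((jI a b).den : ℝ)) ≤
      Real.exp (4000 * (3 + Real.log Y) ^ 6)

theorem final_num {L z : ℝ} (hz : 3 ≤ z) (hL : L ≤ Real.exp (3000 * z ^ 6)) :
    6 + 6 * L ≤ Real.exp (4000 * z ^ 6) := by
  have h1 : (1 : ℝ) ≤ Real.exp (3000 * z ^ 6) := Real.one_le_exp (by positivity)
  have h2 : (12 : ℝ) ≤ Real.exp (1000 * z ^ 6) := by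
    have h3 : (3 : ℝ) ^ 6 ≤ z ^ 6 := pow_le_pow_left₀ (by norm_num) hz 6
    have h4 := Real.add_one_le_exp (1000 * z ^ 6)
    nlinarith
  have h5 : Real.exp (4000 * z ^ 6) = Real.exp (1000 * z ^ 6) * Real.exp (3000 * z ^ 6) := by
    rw [← Real.exp_add]
    congr 1
    ring
  rw [h5]
  nlinarith

/-- a curve which violates `Reg` gives a triple with a large radical supported by `6 n` -/
theorem reg_or {n : ℕ} (hn : 1 ≤ n) {Y : ℝ} (hY : 1 ≤ Y) (h : ¬ Reg n Y) :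
    ∃ s : ℕ, IsR s ∧ Y < s ∧ s ∣ n := by
  unfold Reg at h
  push Not at h
  obtain ⟨a, b, hmin, hf, hgood, hcon⟩ := h
  obtain ⟨u, v, hu, hv, huv, ⟨d, hd, ha, hb⟩, hp⟩ := frey_of hmin hf
  have hcond : condS (cA u v) (cB u v) = r6 (u * v * (u + v)) := c_cond huv hu hv
  have htri : Triple u v (u + v) := ⟨hu, hv, rfl, huv⟩
  refine ⟨r6 (u * v * (u + v)), ⟨u, v, u + v, htri, rfl⟩, ?_, ?_⟩
  · by_contra hle
    push Not at hle
    have h1 := hcon ⟨d, cA u v, cB u v, hd, c_min huv hu hv, ha, hb, by rw [hcond]; exact hle⟩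
    rw [jI_twist hd ha hb] at h1
    have h2 := jI_height hu hv
    obtain ⟨t, ht, htN, ht2⟩ := to_tr2 htri
    have h6Y : (1 : ℝ) ≤ 6 * Y := by linarith
    have h3 := Pool.Agent.TH867.SM.height_le ht h6Y (by
      rw [rr_rad ht]
      refine Real.log_le_log (by exact_mod_cast rad_pos _) ?_
      rw [htN]
      have e1 : ((rad (u * v * (u + v)) : ℕ) : ℝ) ≤ ((6 * r6 (u * v * (u + v)) : ℕ) : ℝ) := by
        exact_mod_cast rad_le_r6 _
      push_cast at e1
      linarith)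
    rw [ht2] at h3
    have hlY : 0 ≤ Real.log Y := Real.log_nonneg hY
    have h4 : 1 + Real.log (6 * Y) ≤ 3 + Real.log Y := by
      rw [Real.log_mul (by norm_num) (by linarith)]
      have : Real.log 6 ≤ 2 := by
        rw [Real.log_le_iff_le_exp (by norm_num)]
        have h8 : Real.exp 2 = Real.exp 1 * Real.exp 1 := by rw [← Real.exp_add]; norm_num
        have h9 := Real.exp_one_gt_d9
        rw [h8]
        nlinarith
      linarith
    have h5 : Real.log ((u + v : ℕ) : ℝ) ≤ Real.exp (3000 * (3 + Real.log Y) ^ 6) := by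
      refine h3.trans (Real.exp_le_exp.2 ?_)
      have h6 : 0 ≤ 1 + Real.log (6 * Y) := by
        have := Real.log_nonneg h6Y
        linarith
      exact mul_le_mul_of_nonneg_left (pow_le_pow_left₀ h6 h4 6) (by norm_num)
    have h7 := final_num (by linarith) h5
    linarith
  · unfold r6
    refine Finset.prod_primes_dvd n (fun p hp' => ?_) (fun p hp' => ?_)
    · exact (Nat.prime_of_mem_primeFactors (Finset.mem_filter.1 hp').1).prime
    · rw [Finset.mem_filter] at hp'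
      exact hgood p (Nat.prime_of_mem_primeFactors hp'.1) hp'.2
        (hp p (Nat.dvd_of_mem_primeFactors hp'.1))

end Pool.Agent.TH194.MR
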