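import Mathlib

/-!
Short coprime vectors in the lattice `x ∣ a`, `y ∣ b`, `z ∣ a + b`.
-/

set_option autoImplicit false

namespace Pool.Agent.TH194.MR

open Finset

/-- an integer close to a quotient -/
theorem near_int (s m : ℤ) (hm : 0 < m) : ∃ k : ℤ, |2 * (s - k * m)| ≤ m := by
  refine ⟨(2 * s + m) / (2 * m), ?_⟩
  have h1 := Int.emod_add_mul_ediv (2 * s + m) (2 * m)
  have h2 := Int.emod_nonneg (2 * s + m) (b := 2 * m) (by omega)
  have h3 := Int.emod_lt_of_pos (2 * s + m) (b := 2 * m) (by omega)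
  obtain ⟨r, hr⟩ : ∃ r, r = (2 * s + m) % (2 * m) := ⟨_, rfl⟩
  obtain ⟨k, hk⟩ : ∃ k, k = (2 * s + m) / (2 * m) := ⟨_, rfl⟩
  rw [← hr] at h1 h2 h3
  rw [← hk] at h1 ⊢
  have h4 : 2 * (s - k * m) = r - m := by linarith
  rw [h4, abs_le]
  constructor <;> linarith

/-- a reduced basis -/
theorem reduce (x1 y1 x2 y2 D : ℤ) (hD : x1 * y2 - x2 * y1 = D) (hD0 : 0 < D) :
    ∃ i j k l : ℤ, i * l - j * k = 1 ∧
      0 < (i * x1 + j * x2) ^ 2 + (i * y1 + j * y2) ^ 2 ∧
      3 * ((i * x1 + j * x2) ^ 2 + (i * y1 + j * y2) ^ 2) ^ 2 ≤ 4 * D ^ 2 ∧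
      4 * (((i * x1 + j * x2) ^ 2 + (i * y1 + j * y2) ^ 2) *
        ((k * x1 + l * x2) ^ 2 + (k * y1 + l * y2) ^ 2)) ≤
        4 * D ^ 2 + ((i * x1 + j * x2) ^ 2 + (i * y1 + j * y2) ^ 2) ^ 2 := by
  classical
  obtain ⟨q, hq⟩ : ∃ q : ℤ → ℤ → ℤ, q = fun i j => (i * x1 + j * x2) ^ 2 + (i * y1 + j * y2) ^ 2 :=
    ⟨_, rfl⟩
  have hqe : ∀ i j, q i j = (i * x1 + j * x2) ^ 2 + (i * y1 + j * y2) ^ 2 := by
    intro i j; rw [hq]
  have hq0 : ∀ i j, 0 ≤ q i j := by intro i j; rw [hqe]; positivity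
  have hqpos : ∀ i j, (i ≠ 0 ∨ j ≠ 0) → 0 < q i j := by
    intro i j hij
    rcases (hq0 i j).lt_or_eq with h | h
    · exact h
    · exfalso
      rw [hqe] at h
      have h1 : i * x1 + j * x2 = 0 := by nlinarith [sq_nonneg (i * x1 + j * x2), sq_nonneg (i * y1 + j * y2)]
      have h2 : i * y1 + j * y2 = 0 := by nlinarith [sq_nonneg (i * x1 + j * x2), sq_nonneg (i * y1 + j * y2)]
      have h3 : i * D = 0 := by
        rw [← hD]
        linear_combination y2 * h1 - x2 * h2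
      have h4 : j * D = 0 := by
        rw [← hD]
        linear_combination x1 * h2 - y1 * h1
      rcases hij with h5 | h5
      · rcases mul_eq_zero.1 h3 with h6 | h6
        · exact h5 h6
        · omega
      · rcases mul_eq_zero.1 h4 with h6 | h6
        · exact h5 h6
        · omega
  -- the shortest vector
  have hex : ∃ m : ℕ, ∃ i j : ℤ, (i ≠ 0 ∨ j ≠ 0) ∧ (m : ℤ) = q i j :=
    ⟨(q 1 0).toNat, 1, 0, Or.inl one_ne_zero, Int.toNat_of_nonneg (hq0 1 0)⟩
  obtain ⟨i, j, hij, hm⟩ := Nat.find_spec hex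
  have hmin : ∀ i' j' : ℤ, (i' ≠ 0 ∨ j' ≠ 0) → q i j ≤ q i' j' := by
    intro i' j' h
    by_contra hcon
    rw [not_le, ← hm] at hcon
    have h1 : (q i' j').toNat < Nat.find hex := by
      have := Int.toNat_of_nonneg (hq0 i' j')
      omega
    exact Nat.find_min hex h1 ⟨i', j', h, Int.toNat_of_nonneg (hq0 i' j')⟩
  -- it is primitive
  have hcop : IsCoprime i j := by
    rw [Int.isCoprime_iff_gcd_eq_one]
    have hg0 : 0 < Int.gcd i j := by
      rw [Int.gcd_pos_iff]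
      exact hij
    obtain ⟨g, hg⟩ : ∃ g, g = Int.gcd i j := ⟨_, rfl⟩
    obtain ⟨i', hi'⟩ := Int.gcd_dvd_left (a := i) (b := j)
    obtain ⟨j', hj'⟩ := Int.gcd_dvd_right (a := i) (b := j)
    rw [← hg] at hg0 hi' hj' ⊢
    by_contra hne
    have hg2 : 2 ≤ (g : ℤ) := by
      have : 2 ≤ g := by omega
      exact_mod_cast this
    have hij' : i' ≠ 0 ∨ j' ≠ 0 := by
      rcases hij with h | h
      · left; rintro rfl; exact h (by rw [hi', mul_zero])
      · right; rintro rfl; exact h (by rw [hj', mul_zero])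
    have h1 := hmin i' j' hij'
    have h2 : q i j = (g : ℤ) ^ 2 * q i' j' := by
      rw [hqe, hqe, hi', hj']
      ring
    have h3 := hqpos i' j' hij'
    rw [h2] at h1
    have h4 : 4 ≤ (g : ℤ) ^ 2 := by nlinarith
    have h5 : 4 * q i' j' ≤ (g : ℤ) ^ 2 * q i' j' := mul_le_mul_of_nonneg_right h4 h3.le
    linarith
  obtain ⟨u, v, huv⟩ := hcop
  -- `u * i + v * j = 1`
  have hqij : 0 < q i j := hqpos i j hij
  obtain ⟨s, hs⟩ : ∃ s, s = (i * x1 + j * x2) * (-v * x1 + u * x2) +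
    (i * y1 + j * y2) * (-v * y1 + u * y2) := ⟨_, rfl⟩
  obtain ⟨r, hr⟩ := near_int s (q i j) hqij
  obtain ⟨k, hk⟩ : ∃ k, k = -v - r * i := ⟨_, rfl⟩
  obtain ⟨l, hl⟩ : ∃ l, l = u - r * j := ⟨_, rfl⟩
  have hdet : i * l - j * k = 1 := by rw [hk, hl]; linear_combination huv
  have hkl : k ≠ 0 ∨ l ≠ 0 := by
    by_contra hcon
    push Not at hcon
    rw [hcon.1, hcon.2] at hdet
    simp at hdet
  have hle := hmin k l hkl
  -- the scalar product
  have hsp : (i * x1 + j * x2) * (k * x1 + l * x2) + (i * y1 + j * y2) * (k * y1 + l * y2) =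
      s - r * q i j := by
    rw [hqe, hs, hk, hl]; ring
  have hlag : q i j * q k l = D ^ 2 + (s - r * q i j) ^ 2 := by
    rw [← hsp, hqe, hqe]
    have h1 : (i * x1 + j * x2) * (k * y1 + l * y2) - (k * x1 + l * x2) * (i * y1 + j * y2) = D := by
      rw [← hD]
      linear_combination (x1 * y2 - x2 * y1) * hdet
    rw [← h1]
    ring
  have hsq : 4 * (s - r * q i j) ^ 2 ≤ (q i j) ^ 2 := by
    have h1 := abs_le.1 hr
    nlinarith
  have hmul : q i j * q i j ≤ q i j * q k l := mul_le_mul_of_nonneg_left hle hqij.le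
  refine ⟨i, j, k, l, hdet, ?_, ?_, ?_⟩
  · rw [← hqe]; exact hqij
  · rw [← hqe]; nlinarith
  · rw [← hqe, ← hqe]; nlinarith

/-- avoiding a residue class modulo each of finitely many primes -/
theorem avoid (Q : Finset ℕ) (hQ : ∀ q ∈ Q, q.Prime) (bad : ℕ → ℕ → Prop)
    (hbad : ∀ q ∈ Q, ∀ k k', bad q k → bad q k' → k ≡ k' [MOD q]) :
    ∃ k ≤ 8 ^ Q.card, ∀ q ∈ Q, ¬ bad q k := by
  classical
  obtain ⟨ω, hω⟩ : ∃ ω, ω = Q.card := ⟨_, rfl⟩
  obtain ⟨Q1, hQ1⟩ : ∃ Q1, Q1 = Q.filter fun q => q ≤ ω := ⟨_, rfl⟩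
  have hQ1p : ∀ q ∈ Q1, q.Prime := fun q hq => by
    rw [hQ1] at hq
    exact hQ q (Finset.mem_filter.1 hq).1
  -- good residues for the small primes
  have hc : ∀ q : ℕ, ∃ c : ℕ, q ∈ Q → ∀ k, k ≡ c [MOD q] → ¬ bad q k := by
    intro q
    by_cases h : ∃ k0, bad q k0
    · obtain ⟨k0, hk0⟩ := h
      refine ⟨k0 + 1, fun hq k hk hb => ?_⟩
      have h1 := hbad q hq k k0 hb hk0
      have h2 : k0 + 1 ≡ k0 + 0 [MOD q] := hk.symm.trans h1
      have h3 := Nat.ModEq.add_left_cancel' k0 h2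
      have h4 : q ∣ 1 := (Nat.modEq_zero_iff_dvd).1 h3
      exact (hQ q hq).one_lt.ne' (Nat.dvd_one.1 h4)
    · exact ⟨0, fun _ k _ hb => h ⟨k, hb⟩⟩
  choose c hc using hc
  obtain ⟨c0, hc0⟩ := Nat.chineseRemainderOfFinset c (fun q => q) Q1
    (fun q hq => (hQ1p q hq).ne_zero) (fun q hq q' hq' hne =>
      (Nat.coprime_primes (hQ1p q hq) (hQ1p q' hq')).2 hne)
  obtain ⟨W, hW⟩ : ∃ W, W = ∏ q ∈ Q1, q := ⟨_, rfl⟩
  have hW0 : 0 < W := by rw [hW]; exact Finset.prod_pos fun q hq => (hQ1p q hq).pos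
  have hW4 : W ≤ 4 ^ ω := by
    refine le_trans ?_ (primorial_le_four_pow ω)
    rw [hW, primorial]
    refine Finset.prod_le_prod_of_subset_of_one_le' ?_ ?_
    · intro q hq
      rw [Finset.mem_filter, Finset.mem_range]
      have h1 := hQ1p q hq
      rw [hQ1, Finset.mem_filter] at hq
      exact ⟨by omega, h1⟩
    · intro q hq _
      exact (Finset.mem_filter.1 hq).2.one_lt.le
  obtain ⟨e, he⟩ : ∃ e, e = c0 % W := ⟨_, rfl⟩
  have heW : e < W := by rw [he]; exact Nat.mod_lt _ hW0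
  have hsmall : ∀ j, ∀ q ∈ Q1, ¬ bad q (e + W * j) := by
    intro j q hq
    have hqQ : q ∈ Q := by
      rw [hQ1] at hq
      exact (Finset.mem_filter.1 hq).1
    have hqW : q ∣ W := by rw [hW]; exact Finset.dvd_prod_of_mem _ hq
    refine hc q hqQ _ ?_
    have h1 : e + W * j ≡ e + 0 [MOD q] :=
      Nat.ModEq.add_left _ ((Nat.modEq_zero_iff_dvd).2 (hqW.mul_right j))
    have h2 : e ≡ c0 [MOD q] := by
      rw [he]
      exact (Nat.mod_modEq c0 W).of_dvd hqW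
    exact (h1.trans h2).trans (hc0 q hq)
  -- the large primes
  obtain ⟨Q2, hQ2⟩ : ∃ Q2, Q2 = Q.filter fun q => ¬ q ≤ ω := ⟨_, rfl⟩
  obtain ⟨B, hB⟩ : ∃ B, B = (Finset.range (ω + 1)).filter fun j => ∃ q ∈ Q2, bad q (e + W * j) :=
    ⟨_, rfl⟩
  have hBc : B.card ≤ Q2.card := by
    have hex : ∀ j ∈ B, ∃ q ∈ Q2, bad q (e + W * j) := fun j hj => by
      rw [hB] at hj
      exact (Finset.mem_filter.1 hj).2
    choose! f hf1 hf2 using hex
    refine Finset.card_le_card_of_injOn f (fun j hj => hf1 j hj) ?_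
    intro j hj j' hj' hff
    have hj1 := hf2 j hj
    have hj2 := hf2 j' hj'
    rw [← hff] at hj2
    have hq2 := hf1 j hj
    rw [hQ2, Finset.mem_filter] at hq2
    have hp := hQ _ hq2.1
    have h1 := hbad _ hq2.1 _ _ hj1 hj2
    have h2 : W * j ≡ W * j' [MOD f j] := Nat.ModEq.add_left_cancel' e h1
    have hcop : Nat.Coprime (f j) W := by
      rw [hp.coprime_iff_not_dvd, hW]
      intro hd
      obtain ⟨q, hq, hdq⟩ := (hp.prime.dvd_finsetProd_iff _).1 hd
      have hqp := hQ1p q hq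
      have : f j = q := (Nat.prime_dvd_prime_iff_eq hp hqp).1 hdq
      rw [hQ1, Finset.mem_filter] at hq
      rw [this] at hq2
      exact hq2.2 hq.2
    have h3 : j ≡ j' [MOD f j] := Nat.ModEq.cancel_left_of_coprime hcop h2
    have hb1 : j ∈ B := hj
    have hb2 : j' ∈ B := hj'
    rw [hB, Finset.mem_filter, Finset.mem_range] at hb1 hb2
    exact Nat.ModEq.eq_of_lt_of_lt h3 (by omega) (by omega)
  have hQ2c : Q2.card ≤ ω := by
    rw [hQ2, hω]; exact Finset.card_filter_le _ _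
  obtain ⟨j, hj, hjB⟩ : ∃ j ∈ Finset.range (ω + 1), j ∉ B := by
    by_contra hcon
    push Not at hcon
    have h1 : (Finset.range (ω + 1)) ⊆ B := fun j hj => hcon j hj
    have h2 := Finset.card_le_card h1
    rw [Finset.card_range] at h2
    omega
  rw [Finset.mem_range] at hj
  refine ⟨e + W * j, ?_, fun q hq hb => ?_⟩
  · have h1 : e + W * j ≤ W * (ω + 1) := by
      have : W * j ≤ W * ω := Nat.mul_le_mul_left _ (by omega)
      have h3 : W * (ω + 1) = W * ω + W := by ring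
      omega
    have h2 : ω + 1 ≤ 2 ^ ω := Nat.lt_two_pow_self
    rw [← hω]
    calc e + W * j ≤ W * (ω + 1) := h1
      _ ≤ 4 ^ ω * 2 ^ ω := Nat.mul_le_mul hW4 h2
      _ = 8 ^ ω := by rw [← mul_pow]; norm_num
  · by_cases hqω : q ≤ ω
    · exact hsmall j q (by rw [hQ1, Finset.mem_filter]; exact ⟨hq, hqω⟩) hb
    · apply hjB
      rw [hB, Finset.mem_filter, Finset.mem_range]
      exact ⟨hj, q, by rw [hQ2, Finset.mem_filter]; exact ⟨hq, hqω⟩, hb⟩

/-- a reduced basis of the lattice -/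
theorem lattice {x y z : ℕ} (hx : 0 < x) (hy : 0 < y) (hz : 0 < z) (hxy : Nat.Coprime x y)
    (hxz : Nat.Coprime x z) (hyz : Nat.Coprime y z) :
    ∃ a b c d : ℤ, ((x : ℤ) ∣ a ∧ (y : ℤ) ∣ b ∧ (z : ℤ) ∣ a + b) ∧
      ((x : ℤ) ∣ c ∧ (y : ℤ) ∣ d ∧ (z : ℤ) ∣ c + d) ∧
      a * d - b * c = ((x * y * z : ℕ) : ℤ) ∧ 0 < a ^ 2 + b ^ 2 ∧
      3 * (a ^ 2 + b ^ 2) ^ 2 ≤ 4 * ((x * y * z : ℕ) : ℤ) ^ 2 ∧
      4 * ((a ^ 2 + b ^ 2) * (c ^ 2 + d ^ 2)) ≤
        4 * ((x * y * z : ℕ) : ℤ) ^ 2 + (a ^ 2 + b ^ 2) ^ 2 ∧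
      ∀ q : ℕ, q.Prime → (q : ℤ) ∣ a → (q : ℤ) ∣ b → (q : ℤ) ∣ c → (q : ℤ) ∣ d → False := by
  have hcop : IsCoprime (y : ℤ) (z : ℤ) := Nat.isCoprime_iff_coprime.2 hyz
  obtain ⟨u, v, huv⟩ := hcop
  -- `u y + v z = 1`
  obtain ⟨μ, hμ⟩ : ∃ μ : ℤ, μ = -(x : ℤ) * u := ⟨_, rfl⟩
  have hμz : (z : ℤ) ∣ x + y * μ := by
    refine ⟨x * v, ?_⟩
    rw [hμ]
    linear_combination (x : ℤ) * (-huv)
  have hD : (x : ℤ) * (y * z) - 0 * (y * μ) = ((x * y * z : ℕ) : ℤ) := by push_cast; ring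
  have hD0 : (0 : ℤ) < ((x * y * z : ℕ) : ℤ) := by
    exact_mod_cast Nat.mul_pos (Nat.mul_pos hx hy) hz
  obtain ⟨i, j, k, l, hdet, h1, h2, h3⟩ := reduce (x : ℤ) (y * μ) 0 (y * z) _ hD hD0
  have hmem : ∀ i j : ℤ, (x : ℤ) ∣ i * x + j * 0 ∧ (y : ℤ) ∣ i * (y * μ) + j * (y * z) ∧
      (z : ℤ) ∣ (i * x + j * 0) + (i * (y * μ) + j * (y * z)) := by
    intro i j
    refine ⟨?_, ?_, ?_⟩
    · rw [mul_zero, add_zero]; exact dvd_mul_left _ _
    · exact dvd_add ((dvd_mul_right _ _).mul_left _) ((dvd_mul_right _ _).mul_left _)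
    · have e1 : (i * x + j * 0) + (i * (y * μ) + j * (y * z)) = i * (x + y * μ) + (j * y) * z := by
        ring
      rw [e1]
      exact dvd_add (hμz.mul_left _) (dvd_mul_left _ _)
  refine ⟨i * x + j * 0, i * (y * μ) + j * (y * z), k * x + l * 0, k * (y * μ) + l * (y * z),
    hmem i j, hmem k l, ?_, h1, h2, h3, ?_⟩
  · rw [← hD]
    linear_combination ((x : ℤ) * (y * z)) * hdet
  · intro q hq ha hb hc hd
    have g1 : (q : ℤ) ∣ x := by
      have e1 : (x : ℤ) = l * (i * x + j * 0) - j * (k * x + l * 0) := by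
        linear_combination (-(x : ℤ)) * hdet
      rw [e1]
      exact dvd_sub (ha.mul_left _) (hc.mul_left _)
    have g2 : (q : ℤ) ∣ (y * z : ℕ) := by
      have e1 : ((y * z : ℕ) : ℤ) = i * (k * (y * μ) + l * (y * z)) -
          k * (i * (y * μ) + j * (y * z)) := by
        push_cast
        linear_combination (-((y : ℤ) * z)) * hdet
      rw [e1]
      exact dvd_sub (hd.mul_left _) (hb.mul_left _)
    have g1' : q ∣ x := by exact_mod_cast g1
    have g2' : q ∣ y * z := by exact_mod_cast g2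
    exact Nat.not_coprime_of_dvd_of_dvd hq.one_lt g1' g2' (Nat.Coprime.mul_right hxy hxz)

/-- a vector with coprime coordinates -/
theorem coprime_vec {x y z : ℕ} {a b c d : ℤ} (hn : 0 < x * y * z)
    (hdet : a * d - b * c = ((x * y * z : ℕ) : ℤ))
    (hq : ∀ q : ℕ, q.Prime → (q : ℤ) ∣ a → (q : ℤ) ∣ b → (q : ℤ) ∣ c → (q : ℤ) ∣ d → False) :
    ∃ k : ℕ, k ≤ 8 ^ (x * y * z).primeFactors.card ∧ Int.gcd (c + k * a) (d + k * b) = 1 := by
  obtain ⟨k, hk, hkb⟩ := avoid (x * y * z).primeFactors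
    (fun q hq => Nat.prime_of_mem_primeFactors hq)
    (fun q k => (q : ℤ) ∣ c + k * a ∧ (q : ℤ) ∣ d + k * b) (by
      intro q hqm k k' hk hk'
      have hqp := Nat.prime_of_mem_primeFactors hqm
      have hqz : Prime (q : ℤ) := Nat.prime_iff_prime_int.1 hqp
      have e1 : (q : ℤ) ∣ ((k : ℤ) - k') * a := by
        have := dvd_sub hk.1 hk'.1
        have e : c + (k : ℤ) * a - (c + k' * a) = ((k : ℤ) - k') * a := by ring
        rwa [e] at this
      have e2 : (q : ℤ) ∣ ((k : ℤ) - k') * b := by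
        have := dvd_sub hk.2 hk'.2
        have e : d + (k : ℤ) * b - (d + k' * b) = ((k : ℤ) - k') * b := by ring
        rwa [e] at this
      by_cases h : (q : ℤ) ∣ (k : ℤ) - k'
      · exact ((Int.natCast_modEq_iff).1 ((Int.modEq_iff_dvd).2 h)).symm
      · exfalso
        have ha := (hqz.dvd_or_dvd e1).resolve_left h
        have hb := (hqz.dvd_or_dvd e2).resolve_left h
        have hc := (dvd_add_left (ha.mul_left (k : ℤ))).1 hk.1
        have hd := (dvd_add_left (hb.mul_left (k : ℤ))).1 hk.2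
        exact hq q hqp ha hb hc hd)
  refine ⟨k, hk, ?_⟩
  by_contra hne
  obtain ⟨q, hqp, hqd⟩ := Nat.exists_prime_and_dvd hne
  have h1 : (q : ℤ) ∣ c + k * a := (Int.natCast_dvd_natCast.2 hqd).trans (Int.gcd_dvd_left ..)
  have h2 : (q : ℤ) ∣ d + k * b := (Int.natCast_dvd_natCast.2 hqd).trans (Int.gcd_dvd_right ..)
  have h3 : (q : ℤ) ∣ ((x * y * z : ℕ) : ℤ) := by
    rw [← hdet]
    have e : a * d - b * c = a * (d + k * b) - b * (c + k * a) := by ring
    rw [e]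
    exact dvd_sub (h2.mul_left _) (h1.mul_left _)
  have h4 : q ∣ x * y * z := Int.natCast_dvd_natCast.1 h3
  exact hkb q (Nat.mem_primeFactors.2 ⟨hqp, h4, hn.ne'⟩) ⟨h1, h2⟩

/-- a triple of positive integers from a signed one -/
theorem pos_triple {A B : ℤ} (hA : A ≠ 0) (hB : B ≠ 0) (hAB : A + B ≠ 0)
    (hg : Int.gcd A B = 1) : ∃ a b c : ℕ, 0 < a ∧ 0 < b ∧ a + b = c ∧ Nat.gcd a b = 1 ∧
      a * b * c = (A * B * (A + B)).natAbs := by
  have key : ∀ a b : ℤ, 0 < a → 0 < b → IsCoprime a b →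
      ∃ a' b' c' : ℕ, 0 < a' ∧ 0 < b' ∧ a' + b' = c' ∧ Nat.gcd a' b' = 1 ∧
        a' * b' * c' = (a * b * (a + b)).natAbs := by
    intro a b ha hb hab
    refine ⟨a.natAbs, b.natAbs, (a + b).natAbs, by omega, by omega, by omega, ?_, ?_⟩
    · exact Int.isCoprime_iff_gcd_eq_one.1 hab
    · rw [Int.natAbs_mul, Int.natAbs_mul]
  have hc : IsCoprime A B := Int.isCoprime_iff_gcd_eq_one.2 hg
  rcases lt_or_gt_of_ne hA with h1 | h1 <;> rcases lt_or_gt_of_ne hB with h2 | h2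
  · obtain ⟨a, b, c, e1, e2, e3, e4, e5⟩ := key (-A) (-B) (by omega) (by omega) hc.neg_neg
    refine ⟨a, b, c, e1, e2, e3, e4, e5.trans ?_⟩
    rw [show -A * -B * (-A + -B) = -(A * B * (A + B)) by ring, Int.natAbs_neg]
  · rcases lt_or_gt_of_ne hAB with h3 | h3
    · -- `-A = B + -(A + B)`
      obtain ⟨a, b, c, e1, e2, e3, e4, e5⟩ := key B (-(A + B)) h2 (by omega) (by
        have := hc.symm
        have h4 : IsCoprime B (A + B * 1) := IsCoprime.add_mul_left_right this 1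
        rw [mul_one] at h4
        exact h4.neg_right)
      refine ⟨a, b, c, e1, e2, e3, e4, e5.trans ?_⟩
      rw [show B * -(A + B) * (B + -(A + B)) = A * B * (A + B) by ring]
    · obtain ⟨a, b, c, e1, e2, e3, e4, e5⟩ := key (-A) (A + B) (by omega) h3 (by
        have h4 : IsCoprime A (B + A * 1) := IsCoprime.add_mul_left_right hc 1
        rw [mul_one, add_comm] at h4
        exact h4.neg_left)
      refine ⟨a, b, c, e1, e2, e3, e4, e5.trans ?_⟩
      rw [show -A * (A + B) * (-A + (A + B)) = -(A * B * (A + B)) by ring, Int.natAbs_neg]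
  · rcases lt_or_gt_of_ne hAB with h3 | h3
    · obtain ⟨a, b, c, e1, e2, e3, e4, e5⟩ := key A (-(A + B)) h1 (by omega) (by
        have h4 : IsCoprime A (B + A * 1) := IsCoprime.add_mul_left_right hc 1
        rw [mul_one, add_comm] at h4
        exact h4.neg_right)
      refine ⟨a, b, c, e1, e2, e3, e4, e5.trans ?_⟩
      rw [show A * -(A + B) * (A + -(A + B)) = A * B * (A + B) by ring]
    · obtain ⟨a, b, c, e1, e2, e3, e4, e5⟩ := key (-B) (A + B) (by omega) h3 (by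
        have := hc.symm
        have h4 : IsCoprime B (A + B * 1) := IsCoprime.add_mul_left_right this 1
        rw [mul_one] at h4
        exact h4.neg_left)
      refine ⟨a, b, c, e1, e2, e3, e4, e5.trans ?_⟩
      rw [show -B * (A + B) * (-B + (A + B)) = -(A * B * (A + B)) by ring, Int.natAbs_neg]
  · exact key A B h1 h2 hc

/-- a nonzero vector of the lattice with a vanishing coordinate is long -/
theorem long_of_zero {x y z : ℕ} (hx : 0 < x) (hy : 0 < y) (hz : 0 < z) (hxy : Nat.Coprime x y)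
    (hxz : Nat.Coprime x z) (hyz : Nat.Coprime y z) (hx2 : x ^ 2 ≤ x * y * z)
    (hy2 : y ^ 2 ≤ x * y * z) (hz2 : z ^ 2 ≤ x * y * z) {a b : ℤ}
    (h : (x : ℤ) ∣ a ∧ (y : ℤ) ∣ b ∧ (z : ℤ) ∣ a + b) (h0 : 0 < a ^ 2 + b ^ 2)
    (hab : a = 0 ∨ b = 0 ∨ a + b = 0) : ((x * y * z : ℕ) : ℤ) ≤ a ^ 2 + b ^ 2 := by
  obtain ⟨h1, h2, h3⟩ := h
  have key : ∀ u v w : ℕ, 0 < u → 0 < v → 0 < w → Nat.Coprime u v → w ^ 2 ≤ u * v * w →
      ∀ c : ℤ, c ≠ 0 → (u : ℤ) ∣ c → (v : ℤ) ∣ c → ((u * v * w : ℕ) : ℤ) ≤ c ^ 2 := by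
    intro u v w hu hv hw huv hw2 c hc huc hvc
    have e1 : ((u * v : ℕ) : ℤ) ∣ c := by
      push_cast
      exact IsCoprime.mul_dvd (Nat.isCoprime_iff_coprime.2 huv) huc hvc
    have e2 : u * v ≤ c.natAbs := Nat.le_of_dvd (Int.natAbs_pos.2 hc) (Int.natCast_dvd.1 e1)
    have e3 : w ≤ u * v := by
      rw [sq] at hw2
      exact Nat.le_of_mul_le_mul_right hw2 hw
    have e4 : u * v * w ≤ c.natAbs ^ 2 := by
      rw [sq]
      exact Nat.mul_le_mul e2 (e3.trans e2)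
    calc ((u * v * w : ℕ) : ℤ) ≤ ((c.natAbs ^ 2 : ℕ) : ℤ) := by exact_mod_cast e4
      _ = c ^ 2 := by push_cast; rw [sq_abs]
  rcases hab with h4 | h4 | h4
  · rw [h4] at h0 h3 ⊢
    rw [zero_add] at h3
    have hb : b ≠ 0 := by rintro rfl; simp at h0
    have := key y z x hy hz hx hyz (by rw [show y * z * x = x * y * z by ring]; exact hx2) b hb h2 h3
    rw [show y * z * x = x * y * z by ring] at this
    linarith
  · rw [h4] at h0 h3 ⊢
    rw [add_zero] at h3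
    have ha : a ≠ 0 := by rintro rfl; simp at h0
    have := key x z y hx hz hy hxz (by rw [show x * z * y = x * y * z by ring]; exact hy2) a ha h1 h3
    rw [show x * z * y = x * y * z by ring] at this
    linarith
  · have hb : b = -a := by linarith
    rw [hb] at h0 h2 ⊢
    have ha : a ≠ 0 := by rintro rfl; simp at h0
    have h2' : (y : ℤ) ∣ a := (dvd_neg).1 h2
    have := key x y z hx hy hz hxy hz2 a ha h1 h2'
    have h5 : (0 : ℤ) ≤ (-a) ^ 2 := sq_nonneg _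
    linarith

/-- three coprime factors -/
theorem three_factors {n : ℕ} (hn : 2 ≤ n)
    (hq : ∀ q ∈ n.primeFactors, (q ^ n.factorization q) ^ 2 ≤ n) :
    ∃ x y z : ℕ, 0 < x ∧ 0 < y ∧ 0 < z ∧ Nat.Coprime x y ∧ Nat.Coprime x z ∧ Nat.Coprime y z ∧
      x * y * z = n ∧ x ^ 2 ≤ n ∧ y ^ 2 ≤ n ∧ z ^ 2 ≤ n := by
  classical
  have hn0 : n ≠ 0 := by omega
  obtain ⟨g, hg⟩ : ∃ g : ℕ → ℕ, g = fun q => q ^ n.factorization q := ⟨_, rfl⟩
  obtain ⟨f, hf⟩ : ∃ f : Finset ℕ → ℕ, f = fun A => ∏ q ∈ A, g q := ⟨_, rfl⟩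
  have hprod : f n.primeFactors = n := by
    rw [hf, hg]
    exact Nat.prod_factorization_pow_eq_self hn0
  have hgpos : ∀ q ∈ n.primeFactors, 0 < g q := by
    intro q hq
    rw [hg]
    exact pow_pos (Nat.prime_of_mem_primeFactors hq).pos _
  have hfpos : ∀ A ⊆ n.primeFactors, 0 < f A := by
    intro A hA
    rw [hf]
    exact Finset.prod_pos fun q hq => hgpos q (hA hq)
  have hfcop : ∀ A ⊆ n.primeFactors, ∀ B ⊆ n.primeFactors, Disjoint A B →
      Nat.Coprime (f A) (f B) := by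
    intro A hA B hB hAB
    rw [hf]
    refine Nat.Coprime.prod_left fun q hq => Nat.Coprime.prod_right fun r hr => ?_
    rw [hg]
    refine Nat.Coprime.pow _ _ ((Nat.coprime_primes (Nat.prime_of_mem_primeFactors (hA hq))
      (Nat.prime_of_mem_primeFactors (hB hr))).2 ?_)
    rintro rfl
    exact (Finset.disjoint_left.1 hAB hq) hr
  -- a maximal set
  obtain ⟨S, hS⟩ : ∃ S, S = n.primeFactors.powerset.filter fun A => (f A) ^ 2 ≤ n := ⟨_, rfl⟩
  have hSne : S.Nonempty := by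
    refine ⟨∅, ?_⟩
    rw [hS, Finset.mem_filter, Finset.mem_powerset]
    refine ⟨Finset.empty_subset _, ?_⟩
    rw [hf]
    simp
    omega
  obtain ⟨A, hAS, hmax⟩ := Finset.exists_max_image S (fun A => A.card) hSne
  have hA := hAS
  rw [hS, Finset.mem_filter, Finset.mem_powerset] at hA
  have hAne : A ≠ n.primeFactors := by
    intro h
    rw [h, hprod] at hA
    have := hA.2
    nlinarith
  obtain ⟨q, hqn, hqA⟩ : ∃ q ∈ n.primeFactors, q ∉ A := by
    by_contra hcon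
    push Not at hcon
    exact hAne (Finset.Subset.antisymm hA.1 fun q hq => hcon q hq)
  have hins : insert q A ⊆ n.primeFactors := by
    intro r hr
    rcases Finset.mem_insert.1 hr with h | h
    · rw [h]; exact hqn
    · exact hA.1 h
  have hbig : n < (f (insert q A)) ^ 2 := by
    by_contra hcon
    rw [not_lt] at hcon
    have h1 : insert q A ∈ S := by
      rw [hS, Finset.mem_filter, Finset.mem_powerset]
      exact ⟨hins, hcon⟩
    have h2 := hmax _ h1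
    simp only [Finset.card_insert_of_notMem hqA] at h2
    omega
  have hfins : f (insert q A) = f A * g q := by
    rw [hf]
    show ∏ r ∈ insert q A, g r = _
    rw [Finset.prod_insert hqA, mul_comm]
  obtain ⟨R, hR⟩ : ∃ R, R = n.primeFactors \ insert q A := ⟨_, rfl⟩
  have hRsub : R ⊆ n.primeFactors := by rw [hR]; exact Finset.sdiff_subset
  have hqs : ({q} : Finset ℕ) ⊆ n.primeFactors := by
    intro r hr
    rw [Finset.mem_singleton] at hr
    rw [hr]; exact hqn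
  have hfq : f {q} = g q := by rw [hf]; exact Finset.prod_singleton _ _
  have htot : f A * g q * f R = n := by
    rw [← hfins, mul_comm, hR]
    calc f (n.primeFactors \ insert q A) * f (insert q A) = f n.primeFactors := by
          rw [hf]
          exact Finset.prod_sdiff hins
      _ = n := hprod
  refine ⟨f A, g q, f R, hfpos A hA.1, hgpos q hqn, hfpos R hRsub, ?_, ?_, ?_, htot, hA.2,
    (by have := hq q hqn; rw [hg]; exact this), ?_⟩
  · rw [← hfq]
    exact hfcop A hA.1 _ hqs (Finset.disjoint_singleton_right.2 hqA)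
  · refine hfcop A hA.1 R hRsub ?_
    rw [hR]
    exact Finset.disjoint_sdiff.mono_left (Finset.subset_insert _ _)
  · rw [← hfq]
    refine hfcop _ hqs R hRsub ?_
    rw [hR, Finset.disjoint_singleton_left, Finset.mem_sdiff]
    exact fun h => h.2 (Finset.mem_insert_self _ _)
  · have h1 : (f A * g q) ^ 2 * (f R) ^ 2 = n * n := by
      rw [← mul_pow, htot, sq]
    rw [hfins] at hbig
    have h2 : n * (f R) ^ 2 ≤ (f A * g q) ^ 2 * (f R) ^ 2 := Nat.mul_le_mul_right _ hbig.le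
    rw [h1] at h2
    exact Nat.le_of_mul_le_mul_left h2 (by omega)

end Pool.Agent.TH194.MR
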