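import Pool.Agent.TH194.MR.Up

/-!
The least radical of an abc triple whose product is divisible by `n`, for almost all `n`.
-/

set_option autoImplicit false

namespace Pool.Agent.TH194.MR

open Finset

/-- triples of small radical: few `n` -/
theorem lower_set (ε : ℝ) (hε : 0 < ε) (hε1 : ε ≤ 1) : ∃ D : ℝ, 0 < D ∧ ∀ N : ℕ, 1 ≤ N →
    ∀ E : Finset ℕ, (∀ n ∈ E, 1 ≤ n ∧ n ≤ N ∧ ∃ a b c : ℕ, Triple a b c ∧ n ∣ a * b * c ∧
      (rad (a * b * c) : ℝ) ≤ level n * (n : ℝ) ^ (-ε)) →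
    (E.card : ℝ) ≤ D * (N : ℝ) ^ (1 - ε / 2) := by
  classical
  obtain ⟨η, hη⟩ : ∃ η, η = ε / 24 := ⟨_, rfl⟩
  have hη0 : 0 < η := by rw [hη]; positivity
  obtain ⟨D1, hD1, h1⟩ := count_all η hη0
  obtain ⟨D2, hD2, h2⟩ := count_prime η hη0
  obtain ⟨D3, hD3⟩ : ∃ D3 : ℝ, D3 = 1 / (η * Real.log 2) + 1 := ⟨_, rfl⟩
  have hl2 : 0 < Real.log 2 := Real.log_pos (by norm_num)
  have hD30 : 0 < D3 := by rw [hD3]; positivity
  refine ⟨D1 + D3 * (D2 * 2 ^ (2 * η)), by positivity, fun N hN E hE => ?_⟩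
  have hNr : (1 : ℝ) ≤ N := by exact_mod_cast hN
  have hN0 : (0 : ℝ) < N := by linarith
  obtain ⟨E1, hE1⟩ : ∃ E1, E1 = E.filter fun n => ∃ a b c : ℕ, Triple a b c ∧ n ∣ a * b * c ∧
      (rad (a * b * c) : ℝ) ≤ (N : ℝ) ^ (3 / 2 - ε) := ⟨_, rfl⟩
  obtain ⟨E2, hE2⟩ : ∃ E2 : ℕ → Finset ℕ, E2 = fun j => E.filter fun n => ∃ p : ℕ, p.Prime ∧
      ((2 : ℝ) ^ j) ≤ p ∧ (p : ℝ) ≤ 2 * 2 ^ j ∧ p ∣ n ∧ ∃ a b c : ℕ, Triple a b c ∧
      n ∣ a * b * c ∧ (rad (a * b * c) : ℝ) ≤ (N : ℝ) ^ (1 - ε) * p := ⟨_, rfl⟩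
  have hcov : E ⊆ E1 ∪ (Finset.range (Nat.log 2 N + 1)).biUnion E2 := by
    intro n hn
    obtain ⟨n1, n2, a, b, c, t1, t2, t3⟩ := hE n hn
    have hn0 : (0 : ℝ) < n := by exact_mod_cast n1
    have hnN : (n : ℝ) ≤ N := by exact_mod_cast n2
    rw [Finset.mem_union]
    rcases le_total ((n : ℝ) * gp n) ((n : ℝ) ^ (3 / 2 : ℝ)) with h | h
    · left
      rw [hE1, Finset.mem_filter]
      refine ⟨hn, a, b, c, t1, t2, t3.trans ?_⟩
      rw [level, max_eq_left h, ← Real.rpow_add hn0]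
      exact Real.rpow_le_rpow hn0.le hnN (by linarith)
    · right
      have hn2 : 2 ≤ n := by
        by_contra hcon
        have hn1 : n = 1 := by omega
        rw [hn1] at h
        have : gp 1 = 0 := by
          rw [gp, Nat.primeFactors_one]
          rfl
        rw [this] at h
        norm_num at h
      have hgm := gp_mem hn2
      have hgp := Nat.prime_of_mem_primeFactors hgm
      have hgd := Nat.dvd_of_mem_primeFactors hgm
      have hgn : gp n ≤ N := (Nat.le_of_dvd n1 hgd).trans n2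
      rw [Finset.mem_biUnion]
      refine ⟨Nat.log 2 (gp n), ?_, ?_⟩
      · rw [Finset.mem_range]
        exact Nat.lt_succ_of_le (Nat.log_mono_right hgn)
      · rw [hE2]
        show n ∈ E.filter _
        rw [Finset.mem_filter]
        refine ⟨hn, gp n, hgp, ?_, ?_, hgd, a, b, c, t1, t2, t3.trans ?_⟩
        · exact_mod_cast Nat.pow_log_le_self 2 hgp.ne_zero
        · have e1 := (Nat.lt_pow_succ_log_self (b := 2) (by norm_num) (gp n)).le
          rw [pow_succ, mul_comm] at e1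
          exact_mod_cast e1
        · rw [level, max_eq_right h, mul_right_comm]
          refine mul_le_mul_of_nonneg_right ?_ (Nat.cast_nonneg _)
          calc (n : ℝ) * (n : ℝ) ^ (-ε) = (n : ℝ) ^ (1 - ε) := by
                nth_rewrite 1 [← Real.rpow_one (n : ℝ)]
                rw [← Real.rpow_add hn0]
                congr 1
            _ ≤ _ := Real.rpow_le_rpow hn0.le hnN (by linarith)
  have hNe : ∀ u v : ℝ, u ≤ v → (N : ℝ) ^ u ≤ (N : ℝ) ^ v := fun u v huv =>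
    Real.rpow_le_rpow_of_exponent_le hNr huv
  -- the first set
  have c1 : (E1.card : ℝ) ≤ D1 * (N : ℝ) ^ (1 - ε / 2) := by
    have e1 := h1 N ((N : ℝ) ^ (3 / 2 - ε)) hN (Real.one_le_rpow hNr (by linarith)) E1
      (fun n hn => by
        rw [hE1, Finset.mem_filter] at hn
        exact ⟨(hE n hn.1).1, (hE n hn.1).2.1, hn.2⟩)
    refine e1.trans ?_
    rw [mul_assoc, ← Real.rpow_mul hN0.le, ← Real.rpow_add hN0]
    refine mul_le_mul_of_nonneg_left (hNe _ _ ?_) hD1.le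
    rw [hη]
    nlinarith
  -- the second set
  have c2 : ∀ j ∈ Finset.range (Nat.log 2 N + 1), ((E2 j).card : ℝ) ≤
      D2 * 2 ^ (2 * η) * (N : ℝ) ^ (1 - ε + 5 * η) := by
    intro j hj
    have hjN : (2 : ℝ) ^ j ≤ N := by
      rw [Finset.mem_range] at hj
      have e1 : 2 ^ j ≤ 2 ^ (Nat.log 2 N) := Nat.pow_le_pow_right (by norm_num) (by omega)
      exact_mod_cast e1.trans (Nat.pow_log_le_self 2 (by omega))
    have hY1 : 1 ≤ (N : ℝ) ^ (1 - ε) := Real.one_le_rpow hNr (by linarith)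
    have e1 := h2 N ((N : ℝ) ^ (1 - ε)) (2 ^ j) hN hY1 (one_le_pow₀ (by norm_num)) (E2 j)
      (fun n hn => by
        rw [hE2] at hn
        replace hn : n ∈ E.filter _ := hn
        rw [Finset.mem_filter] at hn
        exact ⟨(hE n hn.1).1, (hE n hn.1).2.1, hn.2⟩)
    refine e1.trans ?_
    have e2 : (2 * (2 : ℝ) ^ j * (N : ℝ) ^ (1 - ε)) ^ (2 * η) ≤
        2 ^ (2 * η) * (N : ℝ) ^ (4 * η) := by
      calc (2 * (2 : ℝ) ^ j * (N : ℝ) ^ (1 - ε)) ^ (2 * η) ≤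
          (2 * (N : ℝ) ^ (2 : ℝ)) ^ (2 * η) := by
            refine Real.rpow_le_rpow (by positivity) ?_ (by positivity)
            have e3 : (N : ℝ) ^ (1 - ε) ≤ N := by
              calc (N : ℝ) ^ (1 - ε) ≤ (N : ℝ) ^ (1 : ℝ) := hNe _ _ (by linarith)
                _ = N := Real.rpow_one _
            have e4 : (2 : ℝ) ^ j * (N : ℝ) ^ (1 - ε) ≤ N * N :=
              mul_le_mul hjN e3 (by positivity) hN0.le
            have e5 : (N : ℝ) ^ (2 : ℝ) = N * N := by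
              rw [show (2 : ℝ) = ((2 : ℕ) : ℝ) by norm_num, Real.rpow_natCast, sq]
            rw [e5]
            linarith
        _ = 2 ^ (2 * η) * (N : ℝ) ^ (4 * η) := by
            rw [Real.mul_rpow (by norm_num) (by positivity), ← Real.rpow_mul hN0.le]
            congr 2
            ring
    calc D2 * (N : ℝ) ^ η * (2 * 2 ^ j * (N : ℝ) ^ (1 - ε)) ^ (2 * η) * (N : ℝ) ^ (1 - ε) ≤
        D2 * (N : ℝ) ^ η * (2 ^ (2 * η) * (N : ℝ) ^ (4 * η)) * (N : ℝ) ^ (1 - ε) :=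
          mul_le_mul_of_nonneg_right (mul_le_mul_of_nonneg_left e2 (by positivity))
            (by positivity)
      _ = D2 * 2 ^ (2 * η) * (((N : ℝ) ^ η * (N : ℝ) ^ (4 * η)) * (N : ℝ) ^ (1 - ε)) := by ring
      _ = _ := by
          rw [← Real.rpow_add hN0, ← Real.rpow_add hN0]
          congr 2
          ring
  have hlog : ((Nat.log 2 N + 1 : ℕ) : ℝ) ≤ D3 * (N : ℝ) ^ η := by
    have e1 : (2 : ℝ) ^ (Nat.log 2 N) ≤ N := by
      exact_mod_cast Nat.pow_log_le_self 2 (by omega)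
    have e2 := Real.log_le_log (by positivity) e1
    rw [Real.log_pow] at e2
    have e3 : Real.log N ≤ (N : ℝ) ^ η / η := Real.log_le_rpow_div hN0.le hη0
    have e4 : (Nat.log 2 N : ℝ) ≤ 1 / (η * Real.log 2) * (N : ℝ) ^ η := by
      have e5 : (Nat.log 2 N : ℝ) * Real.log 2 ≤ (N : ℝ) ^ η / η := e2.trans e3
      rw [div_mul_eq_mul_div, one_mul, le_div_iff₀ (by positivity)]
      rw [le_div_iff₀ hη0] at e5
      linarith
    have e6 : 1 ≤ (N : ℝ) ^ η := Real.one_le_rpow hNr hη0.le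
    push_cast
    rw [hD3, add_mul, one_mul]
    linarith
  have c3 : (((Finset.range (Nat.log 2 N + 1)).biUnion E2).card : ℝ) ≤
      D3 * (D2 * 2 ^ (2 * η)) * (N : ℝ) ^ (1 - ε / 2) := by
    have e1 : (((Finset.range (Nat.log 2 N + 1)).biUnion E2).card : ℝ) ≤
        ∑ j ∈ Finset.range (Nat.log 2 N + 1), ((E2 j).card : ℝ) := by
      exact_mod_cast Finset.card_biUnion_le
    refine e1.trans ((Finset.sum_le_sum c2).trans ?_)
    rw [Finset.sum_const, Finset.card_range, nsmul_eq_mul]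
    calc ((Nat.log 2 N + 1 : ℕ) : ℝ) * (D2 * 2 ^ (2 * η) * (N : ℝ) ^ (1 - ε + 5 * η)) ≤
        (D3 * (N : ℝ) ^ η) * (D2 * 2 ^ (2 * η) * (N : ℝ) ^ (1 - ε + 5 * η)) :=
          mul_le_mul_of_nonneg_right hlog (by positivity)
      _ = D3 * (D2 * 2 ^ (2 * η)) * ((N : ℝ) ^ η * (N : ℝ) ^ (1 - ε + 5 * η)) := by ring
      _ ≤ _ := by
          rw [← Real.rpow_add hN0]
          refine mul_le_mul_of_nonneg_left (hNe _ _ ?_) (by positivity)
          rw [hη]
          linarith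
  have c4 : (E.card : ℝ) ≤ E1.card + ((Finset.range (Nat.log 2 N + 1)).biUnion E2).card := by
    exact_mod_cast (Finset.card_le_card hcov).trans (Finset.card_union_le _ _)
  rw [add_mul]
  linarith

/-- no triple of small radical: few `n` -/
theorem upper_set (ε : ℝ) (hε : 0 < ε) (hε1 : ε ≤ 1) : ∃ D : ℝ, 0 < D ∧ ∀ N : ℕ, 1 ≤ N →
    ∀ E : Finset ℕ, (∀ n ∈ E, 1 ≤ n ∧ n ≤ N ∧ ¬ ∃ a b c : ℕ, Triple a b c ∧ n ∣ a * b * c ∧
      (rad (a * b * c) : ℝ) ≤ level n * (n : ℝ) ^ ε) →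
    (E.card : ℝ) ≤ D * (N : ℝ) ^ (1 - ε / 5) := by
  classical
  obtain ⟨n0, hn0⟩ := up_n ε hε
  obtain ⟨η, hη⟩ : ∃ η, η = ε / 50 := ⟨_, rfl⟩
  have hη0 : 0 < η := by rw [hη]; positivity
  obtain ⟨D1, hD1, h1⟩ := count_short η hη0
  refine ⟨n0 + D1 * 2 ^ η, by positivity, fun N hN E hE => ?_⟩
  have hNr : (1 : ℝ) ≤ N := by exact_mod_cast hN
  have hN0 : (0 : ℝ) < N := by linarith
  have hNe : ∀ u v : ℝ, u ≤ v → (N : ℝ) ^ u ≤ (N : ℝ) ^ v := fun u v huv =>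
    Real.rpow_le_rpow_of_exponent_le hNr huv
  obtain ⟨E1, hE1⟩ : ∃ E1, E1 = E.filter fun n => n0 ≤ n := ⟨_, rfl⟩
  obtain ⟨E2, hE2⟩ : ∃ E2, E2 = E.filter fun n => ¬ n0 ≤ n := ⟨_, rfl⟩
  have hcard : (E.card : ℝ) = E1.card + E2.card := by
    have : E.card = E1.card + E2.card := by
      rw [hE1, hE2]
      exact (Finset.card_filter_add_card_filter_not (s := E) (fun n => n0 ≤ n)).symm
    rw [this, Nat.cast_add]
  have c2 : (E2.card : ℝ) ≤ n0 * (N : ℝ) ^ (1 - ε / 5) := by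
    have e1 : E2.card ≤ n0 := by
      have : E2 ⊆ Finset.range n0 := by
        intro n hn
        rw [hE2, Finset.mem_filter] at hn
        rw [Finset.mem_range]
        omega
      simpa using Finset.card_le_card this
    calc (E2.card : ℝ) ≤ n0 := by exact_mod_cast e1
      _ = n0 * 1 := (mul_one _).symm
      _ ≤ _ := mul_le_mul_of_nonneg_left (Real.one_le_rpow hNr (by linarith)) (Nat.cast_nonneg _)
  obtain ⟨Y, hY⟩ : ∃ Y, Y = ⌊(N : ℝ) ^ (1 / 2 - ε / 8)⌋₊ := ⟨_, rfl⟩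
  have hT1 : 1 ≤ (N : ℝ) ^ (1 / 2 - ε / 8) := Real.one_le_rpow hNr (by linarith)
  have hY1 : 1 ≤ Y := by rw [hY]; exact Nat.le_floor (by simpa using hT1)
  have hYle : (Y : ℝ) ≤ (N : ℝ) ^ (1 / 2 - ε / 8) := by
    rw [hY]; exact Nat.floor_le (by positivity)
  have c1 : (E1.card : ℝ) ≤ D1 * 2 ^ η * (N : ℝ) ^ (1 - ε / 5) := by
    have e1 := h1 N Y hN hY1 E1 (fun n hn => by
      rw [hE1, Finset.mem_filter] at hn
      obtain ⟨g1, g2, g3⟩ := hE n hn.1
      refine ⟨g1, g2, ?_⟩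
      obtain ⟨a, b, g4, g5, g6⟩ := (hn0 n hn.2).resolve_left g3
      have hn1 : (1 : ℝ) ≤ n := by exact_mod_cast g1
      have hnN : (n : ℝ) ≤ N := by exact_mod_cast g2
      have g7 : ((a ^ 2 + b ^ 2 : ℤ) : ℝ) ≤ ((N : ℝ) ^ (1 / 2 - ε / 8)) ^ 2 := by
        refine g5.trans ?_
        rw [← Real.rpow_natCast _ 2, ← Real.rpow_mul hN0.le]
        have e2 : (1 / 2 - ε / 8) * ((2 : ℕ) : ℝ) = 1 - ε / 4 := by push_cast; ring
        rw [e2]
        exact Real.rpow_le_rpow (by linarith) hnN (by linarith)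
      have key : ∀ u v : ℤ, ((u ^ 2 + v ^ 2 : ℤ) : ℝ) ≤ ((N : ℝ) ^ (1 / 2 - ε / 8)) ^ 2 →
          |u| ≤ Y := by
        intro u v huv
        have e3 : (|(u : ℝ)|) ^ 2 ≤ ((N : ℝ) ^ (1 / 2 - ε / 8)) ^ 2 := by
          rw [sq_abs]
          push_cast at huv
          have := sq_nonneg (v : ℝ)
          linarith
        have e4 : |(u : ℝ)| ≤ (N : ℝ) ^ (1 / 2 - ε / 8) :=
          (sq_le_sq₀ (abs_nonneg _) (by positivity)).1 e3
        have e5 : u.natAbs ≤ Y := by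
          rw [hY]
          refine Nat.le_floor ?_
          rw [Nat.cast_natAbs]
          push_cast
          exact e4
        rw [Int.abs_eq_natAbs]
        exact_mod_cast e5
      refine ⟨a, b, g4, key a b g7, key b a ?_, g6⟩
      rw [add_comm]
      exact g7)
    refine e1.trans ?_
    have e2 : (2 * (Y : ℝ) ^ 3) ^ η ≤ 2 ^ η * (N : ℝ) ^ (3 / 2 * η) := by
      calc (2 * (Y : ℝ) ^ 3) ^ η ≤ (2 * (N : ℝ) ^ (3 / 2 : ℝ)) ^ η := by
            refine Real.rpow_le_rpow (by positivity) ?_ hη0.le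
            refine mul_le_mul_of_nonneg_left ?_ (by norm_num)
            calc (Y : ℝ) ^ 3 ≤ ((N : ℝ) ^ (1 / 2 : ℝ)) ^ 3 :=
                  pow_le_pow_left₀ (Nat.cast_nonneg _) (hYle.trans (hNe _ _ (by linarith))) 3
              _ = (N : ℝ) ^ (3 / 2 : ℝ) := by
                  rw [← Real.rpow_natCast _ 3, ← Real.rpow_mul hN0.le]
                  norm_num
        _ = _ := by
            rw [Real.mul_rpow (by norm_num) (by positivity), ← Real.rpow_mul hN0.le]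
    have e3 : (Y : ℝ) ^ 2 ≤ (N : ℝ) ^ (1 - ε / 4) := by
      calc (Y : ℝ) ^ 2 ≤ ((N : ℝ) ^ (1 / 2 - ε / 8)) ^ 2 :=
            pow_le_pow_left₀ (Nat.cast_nonneg _) hYle 2
        _ = (N : ℝ) ^ (1 - ε / 4) := by
            rw [← Real.rpow_natCast _ 2, ← Real.rpow_mul hN0.le]
            congr 1
            push_cast
            ring
    calc D1 * (N : ℝ) ^ η * (2 * (Y : ℝ) ^ 3) ^ η * (Y : ℝ) ^ 2 ≤
        D1 * (N : ℝ) ^ η * (2 ^ η * (N : ℝ) ^ (3 / 2 * η)) * (N : ℝ) ^ (1 - ε / 4) := by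
          refine mul_le_mul (mul_le_mul_of_nonneg_left e2 (by positivity)) e3 (by positivity)
            (by positivity)
      _ = D1 * 2 ^ η * (((N : ℝ) ^ η * (N : ℝ) ^ (3 / 2 * η)) * (N : ℝ) ^ (1 - ε / 4)) := by ring
      _ ≤ _ := by
          rw [← Real.rpow_add hN0, ← Real.rpow_add hN0]
          refine mul_le_mul_of_nonneg_left (hNe _ _ ?_) (by positivity)
          rw [hη]
          linarith
  rw [hcard, add_mul]
  linarith

end Pool.Agent.TH194.MR
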