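import Pool.Agent.TH867.SB.Ref
import Pool.Agent.TH867.SB.Final

/-!
Triples of all heights with radical at most `X` and a prime factor at least `P`: at most
`D X ^ ε (X / P)`.
-/

set_option autoImplicit false

namespace Pool.Agent.TH194.MR

open Finset
open Pool.Agent.TH867.SR (Tr N3 N3_eq rr rr_sum rr_nonneg Light Scale InP log_prod_primes
  log_prime_nonneg vv side_sum log_one_ge)
open Pool.Agent.TH867.SB (PP SF mem_SF count_gen small_gen by_radical all_heights radi radi_pos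
  radi_pf radi_le)
open Pool.Agent.TH867.SM (sqf)

theorem dvd_N3 {t : Fin 3 → ℕ} (j : Fin 3) : t j ∣ N3 t := by
  obtain ⟨y, hy, -⟩ := N3_eq t j
  exact ⟨y, hy⟩

/-- the class of a triple with a given prime factor -/
theorem good_prime {k : ℕ} (hk : 4 ≤ k) {X l : ℝ} (hX : 1 ≤ X) (hl : 2 ≤ l) {t : Fin 3 → ℕ}
    (h : Tr t) (hs : Scale k l t) (hr : rr t 0 + rr t 1 + rr t 2 ≤ Real.log X) {p : ℕ}
    (hp : p.Prime) (hpd : p ∣ N3 t) {P : ℝ} (hP : 0 < P) (hPp : P ≤ p) :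
    ∃ m ∈ SF ⌊X / P⌋₊, Light k m.primeFactors t ∨ ∃ p, PP k X l m t p := by
  classical
  have hX0 : 0 < X := by linarith
  have hN0 := h.N3_pos
  have hp0 : (0 : ℝ) < p := by exact_mod_cast hp.pos
  obtain ⟨S, hS⟩ : ∃ S, S = (N3 t).primeFactors.erase p := ⟨_, rfl⟩
  have hSp : ∀ q ∈ S, q.Prime := by
    intro q hq
    rw [hS] at hq
    exact Nat.prime_of_mem_primeFactors (Finset.mem_of_mem_erase hq)
  have hpm : p ∈ (N3 t).primeFactors := Nat.mem_primeFactors.2 ⟨hp, hpd, hN0.ne'⟩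
  have hprod : (∏ q ∈ S, q) * p = radi t := by
    rw [radi, hS, mul_comm]
    exact Finset.mul_prod_erase (N3 t).primeFactors (fun q : ℕ => q) hpm
  have hradi := radi_le h hX0 hr
  have hmpos : 0 < ∏ q ∈ S, q := Finset.prod_pos fun q hq => (hSp q hq).pos
  have hmle : ((∏ q ∈ S, q : ℕ) : ℝ) ≤ X / P := by
    rw [le_div_iff₀ hP]
    have h1 : ((∏ q ∈ S, q : ℕ) : ℝ) * p = radi t := by exact_mod_cast hprod
    have h2 : ((∏ q ∈ S, q : ℕ) : ℝ) * P ≤ ((∏ q ∈ S, q : ℕ) : ℝ) * p :=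
      mul_le_mul_of_nonneg_left hPp (Nat.cast_nonneg _)
    linarith
  have hpf : (∏ q ∈ S, q).primeFactors = S := Nat.primeFactors_prod hSp
  refine ⟨∏ q ∈ S, q, mem_SF.2 ⟨⟨hmpos, Nat.le_floor hmle⟩, sqf hSp⟩, Or.inr ⟨p, ?_⟩⟩
  have hpX : (p : ℝ) ≤ X := by
    have h1 : p ≤ radi t := by
      rw [← hprod]
      exact Nat.le_mul_of_pos_left _ hmpos
    have h2 : (p : ℝ) ≤ radi t := by exact_mod_cast h1
    linarith
  have hB : ∃ B : Fin 3, p ∣ t B := by
    rw [N3] at hpd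
    rcases (Nat.Prime.dvd_mul hp).1 hpd with h4 | h4
    · rcases (Nat.Prime.dvd_mul hp).1 h4 with h5 | h5
      · exact ⟨0, h5⟩
      · exact ⟨1, h5⟩
    · exact ⟨2, h4⟩
  obtain ⟨B, hB⟩ := hB
  have hT2 : 2 ≤ Real.log (t 2) := hl.trans hs.1
  have hk4 : (4 : ℝ) ≤ k := by exact_mod_cast hk
  have hk0 : (0 : ℝ) < k := by linarith
  have hTk : Real.log (t 2) / k ≤ Real.log (t 2) / 4 :=
    div_le_div_of_nonneg_left (by linarith) (by norm_num) hk4
  have key : ∀ A C : Fin 3, A ≠ B → B ≠ C → A ≠ C → Real.log (t 2) / k ≤ Real.log (t A) →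
      PP k X l (∏ q ∈ S, q) t p := by
    intro A C hAB hBC hAC hA
    refine ⟨A, B, C, (t A).primeFactors, vv t p, hAB, hBC, hAC, ?_⟩
    rw [hpf]
    have hsub : ∀ j : Fin 3, j ≠ B → (t j).primeFactors ⊆ S := by
      intro j hj q hq
      rw [hS, Finset.mem_erase]
      refine ⟨?_, Nat.primeFactors_mono (dvd_N3 j) hN0.ne' hq⟩
      rintro rfl
      exact hj (h.uniq hp (Nat.dvd_of_mem_primeFactors hq) hB)
    refine
      { tr := h
        sc := hs
        pp := hp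
        pS := by rw [hS]; exact Finset.notMem_erase _ _
        pX := hpX
        pB := hB
        ve := rfl
        fB := ?_
        fC := hsub C hBC.symm
        QS := hsub A hAB
        QA := fun q hq => Nat.dvd_of_mem_primeFactors hq
        wt := ?_ }
    · intro q hq
      rw [hS, Finset.mem_insert, Finset.mem_erase]
      by_cases hqp : q = p
      · exact Or.inl hqp
      · exact Or.inr ⟨hqp, Nat.primeFactors_mono (dvd_N3 B) hN0.ne' hq⟩
    · rw [side_sum h]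
      exact hA
  have hl2 : Real.log (t 2) / k ≤ Real.log (t 2) := by linarith
  have hl1 : Real.log (t 2) / k ≤ Real.log (t 1) := by
    have h1 := log_one_ge h
    have h2 := Real.log_two_lt_d9
    linarith
  fin_cases B
  · exact key 2 1 (by decide) (by decide) (by decide) hl2
  · exact key 2 0 (by decide) (by decide) (by decide) hl2
  · exact key 1 0 (by decide) (by decide) (by decide) hl1

/-- the two members prime to a given prime factor -/
theorem pair_prime {t : Fin 3 → ℕ} (h : Tr t) {p : ℕ} (hp : p.Prime) (hpd : p ∣ N3 t) :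
    ∃ i j : Fin 3, i ≠ j ∧ rr t i + rr t j ≤ rr t 0 + rr t 1 + rr t 2 - Real.log p := by
  have hmem : ∀ B : Fin 3, p ∣ t B → Real.log p ≤ rr t B := by
    intro B hB
    exact Finset.single_le_sum (f := fun q : ℕ => Real.log (q : ℝ))
      (fun q hq => log_prime_nonneg (Nat.prime_of_mem_primeFactors hq))
      (Nat.mem_primeFactors.2 ⟨hp, hB, (h.pos' B).ne'⟩)
  rw [N3] at hpd
  rcases (Nat.Prime.dvd_mul hp).1 hpd with h4 | h4
  · rcases (Nat.Prime.dvd_mul hp).1 h4 with h5 | h5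
    · have := hmem 0 h5
      exact ⟨1, 2, by decide, by linarith⟩
    · have := hmem 1 h5
      exact ⟨0, 2, by decide, by linarith⟩
  · have := hmem 2 h4
    exact ⟨0, 1, by decide, by linarith⟩

/-- **triples of all heights with radical at most `X` and a prime factor at least `P`** -/
theorem prime_all (ε : ℝ) (hε : 0 < ε) : ∃ D : ℝ, 0 < D ∧ ∀ X P : ℝ, 1 ≤ X → 1 ≤ P →
    ∀ F : Finset (Fin 3 → ℕ), (∀ t ∈ F, Tr t ∧ rr t 0 + rr t 1 + rr t 2 ≤ Real.log X ∧
      ∃ p : ℕ, p.Prime ∧ p ∣ N3 t ∧ P ≤ p) →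
    (F.card : ℝ) ≤ D * X ^ ε * (X / P) := by
  classical
  obtain ⟨k0, hk0⟩ : ∃ k0 : ℕ, 5 / ε ≤ k0 := exists_nat_ge _
  obtain ⟨k, hk⟩ : ∃ k, k = k0 + 6 := ⟨_, rfl⟩
  have hk6 : (6 : ℝ) ≤ k := by
    have : 6 ≤ k := by omega
    exact_mod_cast this
  have hk3 : 3 ≤ k := by omega
  have hkp : (0 : ℝ) < k := by linarith
  have hkε : 5 / (k : ℝ) ≤ ε := by
    have h1 : 5 / ε ≤ (k : ℝ) := hk0.trans (by rw [hk]; push_cast; linarith)
    rw [div_le_iff₀ hε] at h1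
    rw [div_le_iff₀ hkp]
    linarith
  obtain ⟨D0, hD0, hall⟩ := all_heights ε hε
  obtain ⟨η, hη, L1, hL1, hsmall⟩ := small_gen ε hε
  obtain ⟨D1, hD1, X1, hX11, hcnt⟩ := count_gen hk3 hη
  obtain ⟨X0, hX0e⟩ : ∃ X0, X0 = max X1 (Real.exp L1) := ⟨_, rfl⟩
  have hX01 : 1 ≤ X0 := by
    rw [hX0e]
    exact hX11.trans (le_max_left _ _)
  have hX0p : 0 < X0 := by linarith
  refine ⟨D0 + D0 * X0 ^ (2 / 3 + ε) + (9 + 2 * D1), by positivity,
    fun X P hX hP F hF => ?_⟩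
  have hXp : 0 < X := by linarith
  have hPp : 0 < P := by linarith
  have hXe1 : 1 ≤ X ^ ε := Real.one_le_rpow hX (by positivity)
  rcases F.eq_empty_or_nonempty with he | ⟨t0, ht0⟩
  · rw [he, Finset.card_empty, Nat.cast_zero]
    positivity
  have hlogP : ∀ t ∈ F, ∃ i j : Fin 3, i ≠ j ∧ rr t i + rr t j ≤ Real.log (X / P) := by
    intro t ht
    obtain ⟨a1, a2, p, a3, a4, a5⟩ := hF t ht
    obtain ⟨i, j, hij, h1⟩ := pair_prime a1 a3 a4
    refine ⟨i, j, hij, ?_⟩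
    rw [Real.log_div hXp.ne' hPp.ne']
    have h2 := Real.log_le_log hPp a5
    linarith
  have hXP0 : 0 ≤ Real.log (X / P) := by
    obtain ⟨i, j, -, h1⟩ := hlogP t0 ht0
    have h2 := rr_nonneg t0 i
    have h3 := rr_nonneg t0 j
    linarith
  have hXPp : 0 < X / P := by positivity
  have hXP1 : 1 ≤ X / P := by
    by_contra hcon
    rw [not_le] at hcon
    have := Real.log_neg hXPp hcon
    linarith
  have hY0 : 1 ≤ X ^ ε * (X / P) := one_le_mul_of_one_le_of_one_le hXe1 hXP1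
  rcases le_or_gt P (X ^ (1 / 3 : ℝ)) with hc | hc
  · -- `P` small
    have h1 := hall X hX F fun t ht => ⟨(hF t ht).1, (hF t ht).2.1⟩
    have h2 : X ^ (2 / 3 : ℝ) ≤ X / P := by
      rw [le_div_iff₀ hPp]
      calc X ^ (2 / 3 : ℝ) * P ≤ X ^ (2 / 3 : ℝ) * X ^ (1 / 3 : ℝ) :=
            mul_le_mul_of_nonneg_left hc (by positivity)
        _ = X := by
            rw [← Real.rpow_add hXp]
            norm_num
    have h3 : D0 * X ^ (2 / 3 + ε) ≤ D0 * (X ^ ε * (X / P)) := by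
      rw [Real.rpow_add hXp, mul_comm (X ^ (2 / 3 : ℝ))]
      exact mul_le_mul_of_nonneg_left (mul_le_mul_of_nonneg_left h2 (by positivity)) hD0.le
    have h4 : 0 ≤ (D0 * X0 ^ (2 / 3 + ε) + (9 + 2 * D1)) * (X ^ ε * (X / P)) := by positivity
    calc (F.card : ℝ) ≤ D0 * (X ^ ε * (X / P)) := h1.trans h3
      _ ≤ D0 * (X ^ ε * (X / P)) +
          (D0 * X0 ^ (2 / 3 + ε) + (9 + 2 * D1)) * (X ^ ε * (X / P)) := by linarith
      _ = _ := by ring
  rcases lt_or_ge X X0 with hsm | hlarge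
  · -- small `X`
    have h1 := hall X hX F fun t ht => ⟨(hF t ht).1, (hF t ht).2.1⟩
    have h2 : X ^ (2 / 3 + ε) ≤ X0 ^ (2 / 3 + ε) :=
      Real.rpow_le_rpow hXp.le hsm.le (by positivity)
    have h3 : D0 * X ^ (2 / 3 + ε) ≤ D0 * X0 ^ (2 / 3 + ε) * (X ^ ε * (X / P)) := by
      calc D0 * X ^ (2 / 3 + ε) ≤ D0 * X0 ^ (2 / 3 + ε) * 1 := by
            rw [mul_one]
            exact mul_le_mul_of_nonneg_left h2 hD0.le
        _ ≤ _ := mul_le_mul_of_nonneg_left hY0 (by positivity)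
    have h4 : 0 ≤ (D0 + (9 + 2 * D1)) * (X ^ ε * (X / P)) := by positivity
    calc (F.card : ℝ) ≤ D0 * X0 ^ (2 / 3 + ε) * (X ^ ε * (X / P)) := h1.trans h3
      _ ≤ D0 * X0 ^ (2 / 3 + ε) * (X ^ ε * (X / P)) +
          (D0 + (9 + 2 * D1)) * (X ^ ε * (X / P)) := by linarith
      _ = _ := by ring
  have hXX1 : X1 ≤ X := by
    rw [hX0e] at hlarge
    exact (le_max_left _ _).trans hlarge
  have hXL1 : Real.exp L1 ≤ X := by rw [hX0e] at hlarge; exact (le_max_right _ _).trans hlarge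
  obtain ⟨L, hL⟩ : ∃ L, L = Real.log X := ⟨_, rfl⟩
  have hLL1 : L1 ≤ L := by rw [hL, Real.le_log_iff_exp_le hXp]; exact hXL1
  obtain ⟨F1, hF1⟩ : ∃ F1, F1 = F.filter fun t => Real.log (t 2) ≤ L ^ (2 + η) := ⟨_, rfl⟩
  obtain ⟨F2, hF2⟩ : ∃ F2, F2 = F.filter fun t => ¬ Real.log (t 2) ≤ L ^ (2 + η) := ⟨_, rfl⟩
  have hcard : (F.card : ℝ) = F1.card + F2.card := by
    have : F.card = F1.card + F2.card := by
      rw [hF1, hF2]
      exact (Finset.card_filter_add_card_filter_not (s := F)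
        (fun t => Real.log (t 2) ≤ L ^ (2 + η))).symm
    rw [this, Nat.cast_add]
  -- small heights
  have d1 : (F1.card : ℝ) ≤ 9 * (X ^ ε * (X / P)) := by
    have h1 := hsmall X hX (by rw [← hL]; exact hLL1) (Real.log (X / P)) hXP0 (by
      refine Real.log_le_log hXPp ?_
      exact div_le_self hXp.le hP) F1 (fun t ht => by
      rw [hF1, mem_filter] at ht
      exact ⟨(hF t ht.1).1, hlogP t ht.1, by rw [← hL]; exact ht.2⟩)
    rw [Real.exp_log hXPp, mul_comm (X / P)] at h1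
    exact h1
  -- large heights
  obtain ⟨M, hM⟩ : ∃ M, M = ⌊X / P⌋₊ := ⟨_, rfl⟩
  have hMle : (M : ℝ) ≤ X / P := by
    rw [hM]; exact Nat.floor_le hXPp.le
  have hM2 : (M : ℝ) * X ^ (2 / (k : ℝ)) ≤ X := by
    have h1 : X ^ (2 / (k : ℝ)) ≤ X ^ (1 / 3 : ℝ) := by
      refine Real.rpow_le_rpow_of_exponent_le hX ?_
      rw [div_le_div_iff₀ hkp (by norm_num)]
      linarith
    calc (M : ℝ) * X ^ (2 / (k : ℝ)) ≤ (X / P) * P :=
          mul_le_mul hMle (h1.trans hc.le) (by positivity) hXPp.le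
      _ = X := div_mul_cancel₀ _ hPp.ne'
  have d2 : (F2.card : ℝ) ≤ 2 * D1 * (X ^ ε * (X / P)) := by
    have h1 := hcnt X hXX1 M hM2 F2 (fun t ht => by
      rw [hF2, mem_filter] at ht
      obtain ⟨a1, a2, p, a3, a4, a5⟩ := hF t ht.1
      refine ⟨a1, a2, by rw [← hL]; exact ht.2, fun l hl hs => ?_⟩
      rw [hM]
      exact good_prime (by omega) hX hl a1 hs a2 a3 a4 hPp a5)
    refine h1.trans ?_
    have h2 : (M : ℝ) + 1 ≤ 2 * (X / P) := by linarith
    calc D1 * ((M : ℝ) + 1) * X ^ (5 / (k : ℝ)) ≤ D1 * (2 * (X / P)) * X ^ ε := by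
          refine mul_le_mul (mul_le_mul_of_nonneg_left h2 hD1.le)
            (Real.rpow_le_rpow_of_exponent_le hX hkε) (by positivity) (by positivity)
      _ = _ := by ring
  have h5 : 0 ≤ (D0 + D0 * X0 ^ (2 / 3 + ε)) * (X ^ ε * (X / P)) := by positivity
  rw [hcard]
  calc (F1.card : ℝ) + F2.card ≤ 9 * (X ^ ε * (X / P)) + 2 * D1 * (X ^ ε * (X / P)) :=
        add_le_add d1 d2
    _ ≤ 9 * (X ^ ε * (X / P)) + 2 * D1 * (X ^ ε * (X / P)) +
        (D0 + D0 * X0 ^ (2 / 3 + ε)) * (X ^ ε * (X / P)) := by linarith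
    _ = _ := by ring

end Pool.Agent.TH194.MR
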