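import Pool.Agent.TH194.MR.Cnt
import Pool.Agent.TH867.BK.Height

/-!
Integers `n` all of whose prime factors support a triple with a large radical.
-/

set_option autoImplicit false

namespace Pool.Agent.TH194.MR

open Finset
open Pool.Agent.TH867.SR (Tr N3 rr log_prod_primes)
open Pool.Agent.TH867.SB (all_heights)

/-- the product of the primes `≥ 5` dividing `m` -/
def r6 (m : ℕ) : ℕ := ∏ p ∈ m.primeFactors.filter (fun p => 5 ≤ p), p

theorem r6_pos (m : ℕ) : 0 < r6 m :=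
  Finset.prod_pos fun p hp =>
    (Nat.prime_of_mem_primeFactors (Finset.mem_filter.1 hp).1).pos

theorem rad_le_r6 (m : ℕ) : rad m ≤ 6 * r6 m := by
  classical
  have h1 := Finset.prod_filter_mul_prod_filter_not m.primeFactors (fun p => 5 ≤ p)
    (fun p : ℕ => p)
  rw [rad, ← h1, mul_comm]
  refine Nat.mul_le_mul_right _ ?_
  have hsub : m.primeFactors.filter (fun p => ¬ 5 ≤ p) ⊆ {2, 3} := by
    intro p hp
    rw [Finset.mem_filter] at hp
    have hpp := Nat.prime_of_mem_primeFactors hp.1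
    have h2 := hpp.two_le
    have h4 : p ≠ 4 := by
      rintro rfl
      exact absurd hpp (by norm_num)
    rw [Finset.mem_insert, Finset.mem_singleton]
    omega
  calc ∏ p ∈ m.primeFactors.filter (fun p => ¬ 5 ≤ p), p ≤ ∏ p ∈ ({2, 3} : Finset ℕ), p :=
        Finset.prod_le_prod_of_subset_of_one_le' hsub fun p hp _ => by
          rw [Finset.mem_insert, Finset.mem_singleton] at hp
          omega
    _ = 6 := by rfl

theorem r6_le_rad (m : ℕ) : r6 m ≤ rad m :=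
  Finset.prod_le_prod_of_subset_of_one_le' (Finset.filter_subset _ _)
    fun _ hq _ => (Nat.prime_of_mem_primeFactors hq).one_le

/-- `s` is the prime-to-6 part of the radical of a triple -/
def IsR (s : ℕ) : Prop := ∃ a b c : ℕ, Triple a b c ∧ r6 (a * b * c) = s

/-- the number of these integers -/
theorem count_s (ε : ℝ) (hε : 0 < ε) : ∃ D : ℝ, 0 < D ∧ ∀ Z : ℝ, 1 ≤ Z → ∀ S : Finset ℕ,
    (∀ s ∈ S, (s : ℝ) ≤ Z ∧ IsR s) → (S.card : ℝ) ≤ D * Z ^ (2 / 3 + ε) := by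
  classical
  obtain ⟨D, hD, h⟩ := all_heights ε hε
  refine ⟨D * 6 ^ (2 / 3 + ε), by positivity, fun Z hZ S hS => ?_⟩
  have hex : ∀ s ∈ S, ∃ t : Fin 3 → ℕ, Tr t ∧ r6 (N3 t) = s := by
    intro s hs
    obtain ⟨-, a, b, c, h1, h2⟩ := hS s hs
    obtain ⟨t, ht, hN⟩ := to_tr h1
    exact ⟨t, ht, by rw [hN]; exact h2⟩
  choose! f hf1 hf2 using hex
  have hinj : Set.InjOn f S := by
    intro s hs s' hs' he
    rw [← hf2 s hs, ← hf2 s' hs', he]
  have hcard : (S.image f).card = S.card := Finset.card_image_of_injOn hinj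
  have h1 := h (6 * Z) (by linarith) (S.image f) (by
    intro t ht
    obtain ⟨s, hs, rfl⟩ := Finset.mem_image.1 ht
    refine ⟨hf1 s hs, ?_⟩
    rw [rr_rad (hf1 s hs)]
    refine Real.log_le_log (by exact_mod_cast rad_pos _) ?_
    have e1 : ((rad (N3 (f s)) : ℕ) : ℝ) ≤ ((6 * r6 (N3 (f s)) : ℕ) : ℝ) := by
      exact_mod_cast rad_le_r6 _
    rw [hf2 s hs] at e1
    push_cast at e1
    linarith [(hS s hs).1])
  rw [hcard] at h1
  refine h1.trans (le_of_eq ?_)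
  rw [Real.mul_rpow (by norm_num) (by linarith)]
  ring

/-- the sum of `1 / s` over these integers `s > Y` -/
theorem sum_tail (ε : ℝ) (hε : 0 < ε) (hε3 : ε < 1 / 3) : ∃ C : ℝ, 0 < C ∧ ∀ Y : ℝ, 1 ≤ Y →
    ∀ S : Finset ℕ, (∀ s ∈ S, Y < s ∧ IsR s) →
    ∑ s ∈ S, 1 / (s : ℝ) ≤ C * Y ^ (-(1 / 3 - ε)) := by
  classical
  obtain ⟨D, hD, h⟩ := count_s ε hε
  obtain ⟨κ, hκ⟩ : ∃ κ : ℝ, κ = 1 / 3 - ε := ⟨_, rfl⟩
  have hκ0 : 0 < κ := by rw [hκ]; linarith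
  obtain ⟨x, hx⟩ : ∃ x : ℝ, x = 2 ^ (-κ) := ⟨_, rfl⟩
  have hx0 : 0 < x := by rw [hx]; positivity
  have hx1 : x < 1 := by
    rw [hx]
    exact Real.rpow_lt_one_of_one_lt_of_neg (by norm_num) (by linarith)
  refine ⟨D * 2 ^ (2 / 3 + ε) * (2 ^ κ / (1 - x)), by
    have : 0 < 1 - x := by linarith
    positivity, fun Y hY S hS => ?_⟩
  have hx1' : 0 < 1 - x := by linarith
  obtain ⟨i0, hi0⟩ : ∃ i0, i0 = Nat.log 2 ⌊Y⌋₊ := ⟨_, rfl⟩
  obtain ⟨n, hn⟩ : ∃ n, n = S.sup (fun s => Nat.log 2 s) + 1 := ⟨_, rfl⟩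
  have hfl : 1 ≤ ⌊Y⌋₊ := Nat.le_floor (by exact_mod_cast hY)
  have hs0 : ∀ s ∈ S, s ≠ 0 := by
    intro s hs
    have : (0 : ℝ) < s := by linarith [(hS s hs).1]
    have h2 : 0 < s := by exact_mod_cast this
    omega
  have hmaps : ∀ s ∈ S, Nat.log 2 s ∈ Finset.Ico i0 n := by
    intro s hs
    obtain ⟨h1, -⟩ := hS s hs
    refine Finset.mem_Ico.2 ⟨?_, ?_⟩
    · rw [hi0]
      refine Nat.log_mono_right ?_
      have : (⌊Y⌋₊ : ℝ) ≤ s := (Nat.floor_le (by linarith)).trans h1.le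
      exact_mod_cast this
    · rw [hn]
      exact Nat.lt_succ_of_le (Finset.le_sup (f := fun s => Nat.log 2 s) hs)
  have hb : ∀ i ∈ Finset.Ico i0 n, ∑ s ∈ S.filter (fun s => Nat.log 2 s = i),
      1 / (s : ℝ) ≤ D * 2 ^ (2 / 3 + ε) * x ^ i := by
    intro i _
    have h2i : (0 : ℝ) < 2 ^ i := by positivity
    have hm : ∀ s ∈ S.filter (fun s => Nat.log 2 s = i), 2 ^ i ≤ s ∧ s ≤ 2 ^ (i + 1) := by
      intro s hs
      rw [Finset.mem_filter] at hs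
      rw [← hs.2]
      exact ⟨Nat.pow_log_le_self 2 (hs0 s hs.1), (Nat.lt_pow_succ_log_self (by norm_num) s).le⟩
    have e1 : ∑ s ∈ S.filter (fun s => Nat.log 2 s = i), 1 / (s : ℝ) ≤
        ∑ _s ∈ S.filter (fun s => Nat.log 2 s = i), 1 / (2 : ℝ) ^ i := by
      refine Finset.sum_le_sum fun s hs => ?_
      refine one_div_le_one_div_of_le h2i ?_
      exact_mod_cast (hm s hs).1
    rw [Finset.sum_const, nsmul_eq_mul] at e1
    have e2 := h (2 ^ (i + 1)) (one_le_pow₀ (by norm_num))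
      (S.filter fun s => Nat.log 2 s = i) (fun s hs => by
        exact ⟨by exact_mod_cast (hm s hs).2, (hS s (Finset.mem_filter.1 hs).1).2⟩)
    refine e1.trans ((mul_le_mul_of_nonneg_right e2 (by positivity)).trans (le_of_eq ?_))
    have e3 : ((2 : ℝ) ^ (i + 1)) ^ (2 / 3 + ε) = 2 ^ (2 / 3 + ε) * (2 ^ i) ^ (2 / 3 + ε) := by
      rw [pow_succ, mul_comm, Real.mul_rpow (by norm_num) h2i.le]
    have e4 : x ^ i = ((2 : ℝ) ^ i) ^ (-κ) := by
      rw [hx, ← Real.rpow_natCast, ← Real.rpow_mul (by norm_num), ← Real.rpow_natCast,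
        ← Real.rpow_mul (by norm_num), mul_comm]
    have e5 : ((2 : ℝ) ^ i) ^ (2 / 3 + ε) * (1 / 2 ^ i) = ((2 : ℝ) ^ i) ^ (-κ) := by
      rw [one_div, ← Real.rpow_neg_one ((2 : ℝ) ^ i), ← Real.rpow_add h2i]
      congr 1
      rw [hκ]
      ring
    rw [e3, e4, ← e5]
    ring
  have hsum : ∑ s ∈ S, 1 / (s : ℝ) = ∑ i ∈ Finset.Ico i0 n,
      ∑ s ∈ S.filter (fun s => Nat.log 2 s = i), 1 / (s : ℝ) :=
    (Finset.sum_fiberwise_of_maps_to hmaps _).symm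
  rw [hsum]
  refine (Finset.sum_le_sum hb).trans ?_
  rw [← Finset.mul_sum]
  have hgeo : ∑ i ∈ Finset.Ico i0 n, x ^ i ≤ x ^ i0 / (1 - x) :=
    geom_sum_Ico_le_of_lt_one hx0.le hx1
  have hx0' : x ^ i0 ≤ 2 ^ κ * Y ^ (-(1 / 3 - ε)) := by
    have e4 : x ^ i0 = ((2 : ℝ) ^ i0) ^ (-κ) := by
      rw [hx, ← Real.rpow_natCast, ← Real.rpow_mul (by norm_num), ← Real.rpow_natCast,
        ← Real.rpow_mul (by norm_num), mul_comm]
    have e6 : Y / 2 ≤ (2 : ℝ) ^ i0 := by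
      have e7 : ⌊Y⌋₊ < 2 ^ (i0 + 1) := by
        rw [hi0]; exact Nat.lt_pow_succ_log_self (by norm_num) _
      have e8 : ((⌊Y⌋₊ + 1 : ℕ) : ℝ) ≤ ((2 ^ (i0 + 1) : ℕ) : ℝ) := by exact_mod_cast e7
      push_cast at e8
      rw [pow_succ] at e8
      linarith [Nat.lt_floor_add_one Y]
    rw [e4]
    calc ((2 : ℝ) ^ i0) ^ (-κ) ≤ (Y / 2) ^ (-κ) :=
          Real.rpow_le_rpow_of_nonpos (by linarith) e6 (by linarith)
      _ = 2 ^ κ * Y ^ (-(1 / 3 - ε)) := by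
          rw [Real.div_rpow (by linarith) (by norm_num), Real.rpow_neg (by norm_num : (0:ℝ) ≤ 2),
            hκ]
          field_simp
  calc D * 2 ^ (2 / 3 + ε) * ∑ i ∈ Finset.Ico i0 n, x ^ i ≤
      D * 2 ^ (2 / 3 + ε) * (2 ^ κ * Y ^ (-(1 / 3 - ε)) / (1 - x)) := by
        refine mul_le_mul_of_nonneg_left (hgeo.trans ?_) (by positivity)
        exact div_le_div_of_nonneg_right hx0' hx1'.le
    _ = _ := by ring

/-- **few integers support a triple with a large radical** -/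
theorem few_support (ε : ℝ) (hε : 0 < ε) (hε3 : ε < 1 / 3) : ∃ C : ℝ, 0 < C ∧
    ∀ (N : ℕ) (Y : ℝ), 1 ≤ Y → ∀ E : Finset ℕ, (∀ n ∈ E, 1 ≤ n ∧ n ≤ N ∧
      ∃ s : ℕ, IsR s ∧ Y < s ∧ s ∣ n) →
    (E.card : ℝ) ≤ C * N * Y ^ (-(1 / 3 - ε)) := by
  classical
  obtain ⟨C, hC, h⟩ := sum_tail ε hε hε3
  refine ⟨C, hC, fun N Y hY E hE => ?_⟩
  choose! f hf1 hf2 hf3 using fun n hn => (hE n hn).2.2
  have hsub : E ⊆ (E.image f).biUnion fun s => (Finset.Icc 1 N).filter fun n => s ∣ n := by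
    intro n hn
    rw [Finset.mem_biUnion]
    refine ⟨f n, Finset.mem_image_of_mem _ hn, ?_⟩
    rw [Finset.mem_filter, Finset.mem_Icc]
    exact ⟨⟨(hE n hn).1, (hE n hn).2.1⟩, hf3 n hn⟩
  have h1 : (E.card : ℝ) ≤ ∑ s ∈ E.image f,
      (((Finset.Icc 1 N).filter fun n => s ∣ n).card : ℝ) := by
    exact_mod_cast (Finset.card_le_card hsub).trans Finset.card_biUnion_le
  have h2 : ∀ s ∈ E.image f, (((Finset.Icc 1 N).filter fun n => s ∣ n).card : ℝ) ≤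
      N * (1 / (s : ℝ)) := by
    intro s _
    have e1 : ((Finset.Icc 1 N).filter fun n => s ∣ n).card = N / s := by
      have : Finset.Icc 1 N = Finset.Ioc 0 N := rfl
      rw [this]
      exact Nat.Ioc_filter_dvd_card_eq_div N s
    rw [e1]
    refine (Nat.cast_div_le).trans (le_of_eq ?_)
    ring
  refine h1.trans ((Finset.sum_le_sum h2).trans ?_)
  rw [← Finset.mul_sum]
  have h3 := h Y hY (E.image f) (fun s hs => by
    obtain ⟨n, hn, rfl⟩ := Finset.mem_image.1 hs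
    exact ⟨hf2 n hn, hf1 n hn⟩)
  calc (N : ℝ) * ∑ s ∈ E.image f, 1 / (s : ℝ) ≤ N * (C * Y ^ (-(1 / 3 - ε))) :=
        mul_le_mul_of_nonneg_left h3 (Nat.cast_nonneg _)
    _ = _ := by ring

end Pool.Agent.TH194.MR
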