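import Pool.Agent.TH194.MR.EllTw
import Pool.Agent.Helper112.Arith

/-!
The lower bound: many integers `n` are not regular.
-/

set_option autoImplicit false

namespace Pool.Agent.TH194.MR

open Finset Pool.Agent.H925R.Szpiro
open Pool.Agent.TH867.SR (cpp radN radicals_lower)

theorem rad_eq_r6 (m : ℕ) : ∃ w : ℕ, w ≤ 6 ∧ rad m = r6 m * w := by
  classical
  have h1 := Finset.prod_filter_mul_prod_filter_not m.primeFactors (fun p => 5 ≤ p)
    (fun p : ℕ => p)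
  refine ⟨∏ p ∈ m.primeFactors.filter (fun p => ¬ 5 ≤ p), p, ?_, h1.symm⟩
  have h2 := rad_le_r6 m
  rw [rad, ← h1, mul_comm] at h2
  exact Nat.le_of_mul_le_mul_right h2 (r6_pos m)

theorem many_s (ε : ℝ) (hε : 0 < ε) : ∃ c : ℝ, 0 < c ∧ ∀ Z : ℝ, 8 ≤ Z → ∃ S : Finset ℕ,
    (∀ s ∈ S, (s : ℝ) ≤ Z ∧ IsR s) ∧ c * Z ^ (2 / 3 - ε) ≤ S.card := by
  classical
  obtain ⟨c, hc, h⟩ := radicals_lower ε hε
  refine ⟨c / 7, by positivity, fun Z hZ => ?_⟩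
  have hZ0 : 0 < Z := by linarith
  obtain ⟨N, hN⟩ : ∃ N : ℕ, N = ⌊Z ^ ((1 : ℝ) / 3) / 2⌋₊ := ⟨_, rfl⟩
  have h1 := h Z hZ N hN
  obtain ⟨Y, hY⟩ : ∃ Y, Y = Z ^ ((1 : ℝ) / 3) := ⟨_, rfl⟩
  rw [← hY] at hN
  have hY0 : 0 < Y := by rw [hY]; positivity
  have hY3 : Y ^ 3 = Z := by
    rw [hY, ← Real.rpow_natCast, ← Real.rpow_mul hZ0.le]
    norm_num
  have hNY : (N : ℝ) ≤ Y / 2 := by rw [hN]; exact Nat.floor_le (by positivity)
  refine ⟨(cpp N).image fun p => r6 (p.1 * p.2 * (p.1 + p.2)), ?_, ?_⟩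
  · intro s hs
    obtain ⟨p, hp, rfl⟩ := Finset.mem_image.1 hs
    obtain ⟨a1, a2, a3⟩ := Finset.mem_filter.1 hp
    obtain ⟨a4, a5⟩ := Finset.mem_product.1 a1
    obtain ⟨a6, a7⟩ := Finset.mem_Ioc.1 a4
    obtain ⟨a8, a9⟩ := Finset.mem_Ioc.1 a5
    refine ⟨?_, p.1, p.2, p.1 + p.2, ⟨a6, a8, rfl, a3⟩, rfl⟩
    have b1 : r6 (p.1 * p.2 * (p.1 + p.2)) ≤ p.1 * p.2 * (p.1 + p.2) :=
      (r6_le_rad _).trans (rad_le (by positivity))
    have b2 : ((r6 (p.1 * p.2 * (p.1 + p.2)) : ℕ) : ℝ) ≤ (p.1 : ℝ) * p.2 * (p.1 + p.2) := by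
      exact_mod_cast b1
    have c1 : (p.1 : ℝ) ≤ Y / 2 := le_trans (by exact_mod_cast a7) hNY
    have c2 : (p.2 : ℝ) ≤ Y / 2 := le_trans (by exact_mod_cast a9) hNY
    refine b2.trans ?_
    calc (p.1 : ℝ) * p.2 * (p.1 + p.2) ≤ (Y / 2) * (Y / 2) * (Y / 2 + Y / 2) := by gcongr
      _ = Y ^ 3 / 4 := by ring
      _ ≤ Y ^ 3 := by
          have : 0 < Y ^ 3 := by positivity
          linarith
      _ = Z := hY3
  · have hsub : (cpp N).image (fun p => radN (p.1 * p.2 * (p.1 + p.2))) ⊆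
        (((cpp N).image fun p => r6 (p.1 * p.2 * (p.1 + p.2))) ×ˢ (Finset.range 7)).image
          fun x => x.1 * x.2 := by
      intro r hr
      obtain ⟨p, hp, rfl⟩ := Finset.mem_image.1 hr
      obtain ⟨w, hw, hw2⟩ := rad_eq_r6 (p.1 * p.2 * (p.1 + p.2))
      rw [Finset.mem_image]
      refine ⟨(r6 (p.1 * p.2 * (p.1 + p.2)), w), ?_, ?_⟩
      · rw [Finset.mem_product]
        exact ⟨Finset.mem_image_of_mem _ hp, Finset.mem_range.2 (by omega)⟩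
      · exact hw2.symm
    have h2 := (Finset.card_le_card hsub).trans Finset.card_image_le
    rw [Finset.card_product, Finset.card_range] at h2
    have h3 : (((cpp N).image fun p => radN (p.1 * p.2 * (p.1 + p.2))).card : ℝ) ≤
        (((cpp N).image fun p => r6 (p.1 * p.2 * (p.1 + p.2))).card : ℝ) * 7 := by
      exact_mod_cast h2
    have h4 : c / 7 * Z ^ (2 / 3 - ε) = c * Z ^ (2 / 3 - ε) / 7 := by ring
    rw [h4, div_le_iff₀ (by norm_num)]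
    exact h1.trans h3

/-- all curves with full 2-torsion and good reduction outside `6 n` are quadratic twists of
curves of conductor at most `Y` -/
def TwS (n : ℕ) (Y : ℝ) : Prop :=
  ∀ a b : ℤ, IsMin a b → FullS a b →
    (∀ p : ℕ, p.Prime → 5 ≤ p → (p : ℤ) ∣ D a b → p ∣ n) →
    ∃ (d : ℚ) (a' b' : ℤ), d ≠ 0 ∧ IsMin a' b' ∧ (a : ℚ) = d ^ 2 * a' ∧ (b : ℚ) = d ^ 3 * b' ∧
      (condS a' b' : ℝ) ≤ Y

/-- a large supported radical violates `TwS` -/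
theorem not_tw {n s : ℕ} {Y : ℝ} (hs : IsR s) (hY : Y < s) (hd : s ∣ n) : ¬ TwS n Y := by
  classical
  intro hreg
  obtain ⟨u, v, c, ⟨hu, hv, rfl, huv⟩, hr⟩ := hs
  have hm0 : 0 < u * v * (u + v) := by positivity
  have hcond := hreg (cA u v) (cB u v) (c_min huv hu hv) (c_full u v) (by
    intro p hp hp5 hpD
    rw [c_D] at hpD
    have hpI : Prime (p : ℤ) := Nat.prime_iff_prime_int.1 hp
    have h1 : p ∣ u * v * (u + v) := by
      rcases hpI.dvd_or_dvd hpD with h | h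
      · exfalso
        have e : (729 : ℤ) = 3 ^ 6 := by norm_num
        rw [e] at h
        have h3 : p ∣ 3 := by exact_mod_cast hpI.dvd_of_dvd_pow h
        have := Nat.le_of_dvd (by norm_num) h3
        omega
      · exact Int.natCast_dvd_natCast.1 (hpI.dvd_of_dvd_pow h)
    refine dvd_trans ?_ hd
    rw [← hr, r6]
    refine Finset.dvd_prod_of_mem (fun q => q) ?_
    rw [Finset.mem_filter]
    exact ⟨Nat.mem_primeFactors.2 ⟨hp, h1, hm0.ne'⟩, hp5⟩)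
  obtain ⟨d, a', b', hd0, hmin, ha, hb, hc⟩ := hcond
  have hrel : cA u v ^ 3 * D a' b' = a' ^ 3 * D (cA u v) (cB u v) := by
    have h1 : ((cA u v : ℤ) : ℚ) ^ 3 * ((D a' b' : ℤ) : ℚ) =
        (a' : ℚ) ^ 3 * ((D (cA u v) (cB u v) : ℤ) : ℚ) := by
      unfold D
      push_cast
      rw [ha, hb]
      ring
    exact_mod_cast h1
  have hD0 : D a' b' ≠ 0 := hmin.1
  have hdiv : ∀ p ∈ (u * v * (u + v)).primeFactors.filter (fun q => 5 ≤ q),
      p ∈ (D a' b').natAbs.primeFactors.filter (fun q => 5 ≤ q) := by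
    intro p hp
    rw [Finset.mem_filter] at hp ⊢
    refine ⟨?_, hp.2⟩
    have hpp := Nat.prime_of_mem_primeFactors hp.1
    have hpm := Nat.dvd_of_mem_primeFactors hp.1
    have hpI : Prime (p : ℤ) := Nat.prime_iff_prime_int.1 hpp
    have h1 : (p : ℤ) ∣ ((u * v * (u + v) : ℕ) : ℤ) := Int.natCast_dvd_natCast.2 hpm
    have h2 : (p : ℤ) ∣ cA u v ^ 3 * D a' b' := by
      rw [hrel, c_D]
      exact ((h1.trans (dvd_pow_self _ two_ne_zero)).mul_left _).mul_left _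
    have h3 : (p : ℤ) ∣ D a' b' := by
      rcases hpI.dvd_or_dvd h2 with h | h
      · exfalso
        have h4 := hpI.dvd_of_dvd_pow h
        unfold cA at h4
        rcases hpI.dvd_or_dvd h4 with h5 | h5
        · have h6 : p ∣ 3 := by exact_mod_cast h5
          have := Nat.le_of_dvd (by norm_num) h6
          omega
        · exact not_both huv hpp h5 h1
      · exact h
    exact Nat.mem_primeFactors.2 ⟨hpp, Int.natCast_dvd.1 h3, Int.natAbs_ne_zero.2 hD0⟩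
  have hle : s ≤ condS a' b' := by
    rw [← hr, r6]
    unfold condS
    refine (Finset.prod_le_prod_of_subset_of_one_le' hdiv fun q hq _ =>
      (Nat.prime_of_mem_primeFactors (Finset.mem_filter.1 hq).1).one_le).trans ?_
    refine Finset.prod_le_prod' fun q hq => ?_
    split_ifs
    · exact Nat.le_self_pow two_ne_zero q
    · exact le_rfl
  have h5 : (s : ℝ) ≤ Y := le_trans (by exact_mod_cast hle) hc
  linarith

/-- **many integers are not regular** -/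
theorem many_support (ε : ℝ) (hε : 0 < ε) (hε1 : ε ≤ 1) : ∃ c K : ℝ, 0 < c ∧ 0 < K ∧
    ∀ (N : ℕ) (Y : ℝ), 1 ≤ Y → K * Y ^ (1 + ε) ≤ N → ∃ E : Finset ℕ,
      (∀ n ∈ E, 1 ≤ n ∧ n ≤ N ∧ ∃ s : ℕ, IsR s ∧ Y < s ∧ s ∣ n) ∧
      c * (N : ℝ) ^ (1 - ε) * Y ^ (-(1 / 3) : ℝ) ≤ E.card := by
  classical
  obtain ⟨δ, hδ⟩ : ∃ δ, δ = ε / 6 := ⟨_, rfl⟩
  have hδ0 : 0 < δ := by rw [hδ]; positivity
  have hδ6 : δ ≤ 1 / 6 := by rw [hδ]; linarith
  obtain ⟨c1, hc1, hlow⟩ := many_s δ hδ0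
  obtain ⟨D, hD, hup⟩ := count_s δ hδ0
  obtain ⟨T, hT, hdiv⟩ := Pool.Agent.Helper112.divisor_bound δ hδ0
  obtain ⟨K, hK⟩ : ∃ K : ℝ, K = max 8 ((2 * D / c1) ^ 3) := ⟨_, rfl⟩
  have hK8 : 8 ≤ K := by rw [hK]; exact le_max_left _ _
  have hK0 : 0 < K := by linarith
  have hK3 : 2 * D ≤ c1 * K ^ (2 / 3 - δ) := by
    have e1 : (2 * D / c1) ^ 3 ≤ K := by rw [hK]; exact le_max_right _ _
    have e2 : 2 * D / c1 ≤ K ^ (1 / 3 : ℝ) := by
      calc 2 * D / c1 = ((2 * D / c1) ^ 3) ^ (1 / 3 : ℝ) := by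
            rw [← Real.rpow_natCast, ← Real.rpow_mul (by positivity)]
            norm_num
        _ ≤ K ^ (1 / 3 : ℝ) := Real.rpow_le_rpow (by positivity) e1 (by norm_num)
    have e3 : K ^ (1 / 3 : ℝ) ≤ K ^ (2 / 3 - δ) :=
      Real.rpow_le_rpow_of_exponent_le (by linarith) (by linarith)
    have e4 := e2.trans e3
    rw [div_le_iff₀ hc1] at e4
    linarith
  refine ⟨c1 / (4 * T * K ^ (1 / 3 + δ)), K, by positivity, hK0, fun N Y hY hNY => ?_⟩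
  have hY0 : 0 < Y := by linarith
  obtain ⟨Z, hZ⟩ : ∃ Z, Z = K * Y ^ (1 + ε) := ⟨_, rfl⟩
  rw [← hZ] at hNY
  have hY1ε : 1 ≤ Y ^ (1 + ε) := Real.one_le_rpow hY (by linarith)
  have hZ8 : 8 ≤ Z := by rw [hZ]; nlinarith
  have hZ0 : 0 < Z := by linarith
  have hYZ : Y ≤ Z := by
    have e1 : Y ≤ Y ^ (1 + ε) := by
      calc Y = Y ^ (1 : ℝ) := (Real.rpow_one Y).symm
        _ ≤ _ := Real.rpow_le_rpow_of_exponent_le hY (by linarith)
    rw [hZ]; nlinarith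
  have hN0 : (0 : ℝ) < N := by linarith
  have hNr : (1 : ℝ) ≤ N := by linarith
  have hN1 : 1 ≤ N := by exact_mod_cast hNr
  obtain ⟨S, hS1, hS2⟩ := hlow Z hZ8
  obtain ⟨S', hS'⟩ : ∃ S' : Finset ℕ, S' = S.filter fun s : ℕ => Y < (s : ℝ) := ⟨_, rfl⟩
  have hScard : c1 / 2 * Z ^ (2 / 3 - δ) ≤ S'.card := by
    have e1 := hup Y hY (S.filter fun s : ℕ => ¬ Y < (s : ℝ)) (fun s hs => by
      rw [Finset.mem_filter] at hs
      exact ⟨not_lt.1 hs.2, (hS1 s hs.1).2⟩)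
    have e2 : (S'.card : ℝ) + (S.filter fun s : ℕ => ¬ Y < (s : ℝ)).card = S.card := by
      rw [hS']
      exact_mod_cast Finset.card_filter_add_card_filter_not (s := S) (fun s : ℕ => Y < (s : ℝ))
    have e3 : Z ^ (2 / 3 - δ) = K ^ (2 / 3 - δ) * Y ^ ((1 + ε) * (2 / 3 - δ)) := by
      rw [hZ, Real.mul_rpow hK0.le (by positivity), ← Real.rpow_mul hY0.le]
    have e4 : Y ^ (2 / 3 + δ) ≤ Y ^ ((1 + ε) * (2 / 3 - δ)) := by
      refine Real.rpow_le_rpow_of_exponent_le hY ?_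
      have : ε = 6 * δ := by rw [hδ]; ring
      rw [this]
      nlinarith
    have e5 : 2 * (D * Y ^ (2 / 3 + δ)) ≤ c1 * Z ^ (2 / 3 - δ) := by
      rw [e3]
      calc 2 * (D * Y ^ (2 / 3 + δ)) = (2 * D) * Y ^ (2 / 3 + δ) := by ring
        _ ≤ (c1 * K ^ (2 / 3 - δ)) * Y ^ ((1 + ε) * (2 / 3 - δ)) :=
            mul_le_mul hK3 e4 (by positivity) (by positivity)
        _ = _ := by ring
    linarith
  obtain ⟨M, hM⟩ : ∃ M : ℕ, M = ⌊(N : ℝ) / Z⌋₊ := ⟨_, rfl⟩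
  have hNZ : 1 ≤ (N : ℝ) / Z := by rw [le_div_iff₀ hZ0]; linarith
  have hM2 : (N : ℝ) / (2 * Z) ≤ M := by
    have e1 : (N : ℝ) / Z < M + 1 := by rw [hM]; exact Nat.lt_floor_add_one _
    have e2 : (1 : ℝ) ≤ M := by
      rw [hM]
      exact_mod_cast Nat.le_floor (by exact_mod_cast hNZ)
    have e3 : (N : ℝ) / (2 * Z) = (N : ℝ) / Z / 2 := by
      rw [div_div, mul_comm]
    rw [e3]
    linarith
  have hMle : (M : ℝ) * Z ≤ N := by
    have e1 : (M : ℝ) ≤ (N : ℝ) / Z := by rw [hM]; exact Nat.floor_le (by positivity)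
    rwa [le_div_iff₀ hZ0] at e1
  obtain ⟨E, hE⟩ : ∃ E, E = (S' ×ˢ Finset.Icc 1 M).image fun x => x.1 * x.2 := ⟨_, rfl⟩
  have hpos : ∀ s ∈ S', 0 < s := by
    intro s hs
    rw [hS', Finset.mem_filter] at hs
    have : (0 : ℝ) < s := by linarith [hs.2]
    exact_mod_cast this
  have hEprop : ∀ n ∈ E, 1 ≤ n ∧ n ≤ N ∧ ∃ s : ℕ, IsR s ∧ Y < s ∧ s ∣ n := by
    intro n hn
    rw [hE, Finset.mem_image] at hn
    obtain ⟨⟨s, k⟩, hx, rfl⟩ := hn
    rw [Finset.mem_product, Finset.mem_Icc] at hx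
    obtain ⟨hs, hk1, hk2⟩ := hx
    simp only at hs hk1 hk2 ⊢
    have hs0 := hpos s hs
    rw [hS', Finset.mem_filter] at hs
    refine ⟨Nat.mul_pos hs0 hk1, ?_, s, (hS1 s hs.1).2, hs.2, dvd_mul_right _ _⟩
    have e1 : (s : ℝ) * k ≤ N := by
      have e2 : (s : ℝ) ≤ Z := (hS1 s hs.1).1
      have e3 : (k : ℝ) ≤ M := by exact_mod_cast hk2
      calc (s : ℝ) * k ≤ Z * M := mul_le_mul e2 e3 (Nat.cast_nonneg _) hZ0.le
        _ = M * Z := by ring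
        _ ≤ N := hMle
    exact_mod_cast e1
  refine ⟨E, hEprop, ?_⟩
  -- the fibres
  obtain ⟨F, hF⟩ : ∃ F : ℕ, F = ⌊T * (N : ℝ) ^ δ⌋₊ := ⟨_, rfl⟩
  have hfib : (S' ×ˢ Finset.Icc 1 M).card ≤ F * E.card := by
    refine Finset.card_le_mul_card_image_of_maps_to (f := fun x : ℕ × ℕ => x.1 * x.2)
      (fun x hx => by rw [hE]; exact Finset.mem_image_of_mem _ hx) F ?_
    intro n hn
    obtain ⟨hn1, hn2, -⟩ := hEprop n hn
    have e1 : ((S' ×ˢ Finset.Icc 1 M).filter fun x => x.1 * x.2 = n).card ≤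
        n.divisors.card := by
      refine Finset.card_le_card_of_injOn (fun x => x.1) ?_ ?_
      · intro x hx
        rw [Finset.mem_coe, Finset.mem_filter] at hx
        rw [Finset.mem_coe, Nat.mem_divisors]
        exact ⟨⟨x.2, hx.2.symm⟩, by omega⟩
      · intro x hx y hy hxy
        rw [Finset.mem_coe, Finset.mem_filter, Finset.mem_product] at hx hy
        have hx0 := hpos x.1 hx.1.1
        refine Prod.ext hxy ?_
        have e2 : x.1 * x.2 = x.1 * y.2 := by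
          rw [hx.2, ← hy.2, show y.1 = x.1 from hxy.symm]
        exact Nat.eq_of_mul_eq_mul_left hx0 e2
    refine e1.trans ?_
    rw [hF]
    refine Nat.le_floor ?_
    refine (hdiv n hn1).trans (mul_le_mul_of_nonneg_left ?_ hT.le)
    exact Real.rpow_le_rpow (Nat.cast_nonneg _) (by exact_mod_cast hn2) hδ0.le
  have hF2 : (F : ℝ) ≤ T * (N : ℝ) ^ δ := by rw [hF]; exact Nat.floor_le (by positivity)
  have h1 : (S'.card : ℝ) * M ≤ T * (N : ℝ) ^ δ * E.card := by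
    have e1 : ((S'.card * M : ℕ) : ℝ) ≤ ((F * E.card : ℕ) : ℝ) := by
      rw [Finset.card_product, Nat.card_Icc, Nat.add_sub_cancel] at hfib
      exact_mod_cast hfib
    push_cast at e1
    exact e1.trans (mul_le_mul_of_nonneg_right hF2 (Nat.cast_nonneg _))
  have h2 : c1 / 2 * Z ^ (2 / 3 - δ) * ((N : ℝ) / (2 * Z)) ≤ (S'.card : ℝ) * M :=
    mul_le_mul hScard hM2 (by positivity) (Nat.cast_nonneg _)
  have h3 : c1 / 2 * Z ^ (2 / 3 - δ) * ((N : ℝ) / (2 * Z)) =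
      c1 / 4 * N * Z ^ (-(1 / 3 + δ)) := by
    have e1 : Z ^ (-(1 / 3 + δ)) = Z ^ (2 / 3 - δ) / Z := by
      rw [eq_div_iff hZ0.ne']
      nth_rewrite 2 [← Real.rpow_one Z]
      rw [← Real.rpow_add hZ0]
      congr 1
      ring
    rw [e1]
    field_simp
    ring
  have h4 : Z ^ (-(1 / 3 + δ)) ≥ (K ^ (1 / 3 + δ))⁻¹ * (Y ^ (-(1 / 3) : ℝ) *
      (N : ℝ) ^ (-(5 * δ))) := by
    have e1 : Z ^ (-(1 / 3 + δ)) = (K ^ (1 / 3 + δ))⁻¹ * Y ^ (-((1 + ε) * (1 / 3 + δ))) := by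
      rw [hZ, Real.mul_rpow hK0.le (by positivity), ← Real.rpow_mul hY0.le,
        Real.rpow_neg hK0.le]
      congr 2
      ring
    have e2 : Y ^ (-(1 / 3) : ℝ) * (N : ℝ) ^ (-(5 * δ)) ≤ Y ^ (-((1 + ε) * (1 / 3 + δ))) := by
      have e3 : (N : ℝ) ^ (-(5 * δ)) ≤ Y ^ (-(5 * δ)) :=
        Real.rpow_le_rpow_of_nonpos hY0 (hYZ.trans hNY) (by linarith)
      calc Y ^ (-(1 / 3) : ℝ) * (N : ℝ) ^ (-(5 * δ)) ≤ Y ^ (-(1 / 3) : ℝ) * Y ^ (-(5 * δ)) :=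
            mul_le_mul_of_nonneg_left e3 (by positivity)
        _ = Y ^ (-(1 / 3) + -(5 * δ)) := (Real.rpow_add hY0 _ _).symm
        _ ≤ Y ^ (-((1 + ε) * (1 / 3 + δ))) := by
            refine Real.rpow_le_rpow_of_exponent_le hY ?_
            have : ε = 6 * δ := by rw [hδ]; ring
            rw [this]
            nlinarith
    rw [e1]
    exact mul_le_mul_of_nonneg_left e2 (by positivity)
  have hNδ : (0 : ℝ) < (N : ℝ) ^ δ := Real.rpow_pos_of_pos hN0 _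
  have h5 : c1 / 4 * N * ((K ^ (1 / 3 + δ))⁻¹ * (Y ^ (-(1 / 3) : ℝ) *
      (N : ℝ) ^ (-(5 * δ)))) ≤ T * (N : ℝ) ^ δ * E.card := by
    refine le_trans ?_ (h2.trans h1)
    rw [h3]
    exact mul_le_mul_of_nonneg_left h4 (by positivity)
  have h6 : c1 / (4 * T * K ^ (1 / 3 + δ)) * (N : ℝ) ^ (1 - ε) * Y ^ (-(1 / 3) : ℝ) *
      (T * (N : ℝ) ^ δ) = c1 / 4 * N * ((K ^ (1 / 3 + δ))⁻¹ * (Y ^ (-(1 / 3) : ℝ) *
      (N : ℝ) ^ (-(5 * δ)))) := by
    have e1 : (N : ℝ) ^ (1 - ε) * (N : ℝ) ^ δ = N * (N : ℝ) ^ (-(5 * δ)) := by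
      nth_rewrite 3 [← Real.rpow_one (N : ℝ)]
      rw [← Real.rpow_add hN0, ← Real.rpow_add hN0]
      congr 1
      rw [show ε = 6 * δ by rw [hδ]; ring]
      ring
    calc c1 / (4 * T * K ^ (1 / 3 + δ)) * (N : ℝ) ^ (1 - ε) * Y ^ (-(1 / 3) : ℝ) *
        (T * (N : ℝ) ^ δ) = c1 / (4 * T * K ^ (1 / 3 + δ)) * T * Y ^ (-(1 / 3) : ℝ) *
          ((N : ℝ) ^ (1 - ε) * (N : ℝ) ^ δ) := by ring
      _ = c1 / (4 * T * K ^ (1 / 3 + δ)) * T * Y ^ (-(1 / 3) : ℝ) *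
          (N * (N : ℝ) ^ (-(5 * δ))) := by rw [e1]
      _ = _ := by
          field_simp
  have h7 : c1 / (4 * T * K ^ (1 / 3 + δ)) * (N : ℝ) ^ (1 - ε) * Y ^ (-(1 / 3) : ℝ) *
      (T * (N : ℝ) ^ δ) ≤ E.card * (T * (N : ℝ) ^ δ) := by
    rw [h6]
    linarith
  exact le_of_mul_le_mul_right h7 (by positivity)

end Pool.Agent.TH194.MR
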