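import Pool.Agent.TH194.MR.Lat
import Pool.Agent.TH194.MR.Cnt

/-!
The least radical of an abc triple whose product is divisible by `n`: the upper bound.
-/

set_option autoImplicit false

namespace Pool.Agent.TH194.MR

open Finset

/-- the largest prime factor of `n` (`0` for `n = 1`) -/
def gp (n : ℕ) : ℕ := n.primeFactors.sup id

/-- the larger of `n ^ (3/2)` and `n P(n)`, where `P(n)` is the largest prime factor -/
noncomputable def level (n : ℕ) : ℝ := max ((n : ℝ) ^ (3 / 2 : ℝ)) ((n : ℝ) * gp n)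

theorem le_gp {n q : ℕ} (hq : q ∈ n.primeFactors) : q ≤ gp n :=
  Finset.le_sup (f := id) hq

theorem gp_mem {n : ℕ} (hn : 2 ≤ n) : gp n ∈ n.primeFactors := by
  have hne : n.primeFactors.Nonempty := Nat.nonempty_primeFactors.2 hn
  obtain ⟨q, hq, he⟩ := Finset.exists_mem_eq_sup n.primeFactors hne id
  rw [gp, he]
  exact hq

/-- a large prime power component -/
theorem up_big {n q : ℕ} (hn : n ≠ 0) (hq : q ∈ n.primeFactors)
    (hbig : n < (q ^ n.factorization q) ^ 2) :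
    ∃ a b c : ℕ, Triple a b c ∧ n ∣ a * b * c ∧ (rad (a * b * c) : ℝ) ≤ level n := by
  have hqp := Nat.prime_of_mem_primeFactors hq
  obtain ⟨Q, hQ⟩ : ∃ Q, Q = q ^ n.factorization q := ⟨_, rfl⟩
  obtain ⟨m, hm⟩ : Q ∣ n := by rw [hQ]; exact Nat.ordProj_dvd n q
  have hv : n.factorization q ≠ 0 := by
    have := (hqp.factorization_pos_of_dvd hn (Nat.dvd_of_mem_primeFactors hq))
    omega
  rw [← hQ] at hbig
  have hQ0 : 0 < Q := by rw [hQ]; exact pow_pos hqp.pos _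
  have hm0 : 0 < m := by
    rcases Nat.eq_zero_or_pos m with h | h
    · rw [h, mul_zero] at hm; exact absurd hm hn
    · exact h
  have hmQ : m < Q := by
    rw [hm, sq] at hbig
    exact Nat.lt_of_mul_lt_mul_left hbig
  have hcop : Nat.Coprime m Q := by
    have h1 : m = n / Q := by rw [hm, Nat.mul_div_cancel_left _ hQ0]
    have h2 := Nat.coprime_ordCompl hqp hn
    rw [← hQ, ← h1] at h2
    rw [hQ]
    exact (Nat.Coprime.pow_left _ h2).symm
  refine ⟨m, Q - m, Q, ⟨hm0, by omega, by omega, ?_⟩, ?_, ?_⟩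
  · rw [Nat.gcd_sub_self_right hmQ.le]
    exact hcop
  · rw [hm]
    exact ⟨Q - m, by ring⟩
  · obtain ⟨x, hx⟩ : ∃ x, x = m * (Q - m) := ⟨_, rfl⟩
    have hx0 : x ≠ 0 := by
      rw [hx]
      exact (Nat.mul_pos hm0 (by omega)).ne'
    have h1 : rad (m * (Q - m) * Q) ≤ x * q := by
      have e1 : rad (x * Q) = rad (x * q) := by
        rw [rad, rad, Nat.primeFactors_mul hx0 hQ0.ne', Nat.primeFactors_mul hx0 hqp.ne_zero, hQ,
          Nat.primeFactors_pow _ hv]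
      rw [← hx, e1]
      exact rad_le (Nat.mul_ne_zero hx0 hqp.ne_zero)
    have h2 : x * q ≤ n * gp n := by
      refine Nat.mul_le_mul ?_ (le_gp hq)
      rw [hx, hm, mul_comm Q m]
      exact Nat.mul_le_mul_left _ (Nat.sub_le _ _)
    calc (rad (m * (Q - m) * Q) : ℝ) ≤ ((n * gp n : ℕ) : ℝ) := by exact_mod_cast h1.trans h2
      _ = (n : ℝ) * gp n := by push_cast; ring
      _ ≤ level n := le_max_right _ _

/-- for large `n`: a triple of radical at most `n ^ (3/2 + ε)`, or a short vector -/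
theorem up_n (ε : ℝ) (hε : 0 < ε) : ∃ n0 : ℕ, ∀ n : ℕ, n0 ≤ n →
    (∃ a b c : ℕ, Triple a b c ∧ n ∣ a * b * c ∧ (rad (a * b * c) : ℝ) ≤ level n * (n : ℝ) ^ ε) ∨
    ∃ a b : ℤ, a * b * (a + b) ≠ 0 ∧ ((a ^ 2 + b ^ 2 : ℤ) : ℝ) ≤ (n : ℝ) ^ (1 - ε / 4) ∧
      (n : ℤ) ∣ a * b * (a + b) := by
  classical
  obtain ⟨D, hD, hA⟩ := Pool.Agent.H785R2.ABC.stmtA1 (8 ^ 6) (by norm_num) (ε / 8) (by positivity)
  obtain ⟨n1, hn1⟩ : ∃ n1 : ℕ, (512 * D) ^ (8 / (9 * ε)) ≤ n1 := exists_nat_ge _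
  refine ⟨n1 + 3, fun n hn => ?_⟩
  have hn3 : 3 ≤ n := by omega
  have hnn : n ≠ 0 := by omega
  have hnr : (3 : ℝ) ≤ n := by exact_mod_cast hn3
  have hnr1 : (1 : ℝ) ≤ n := by linarith
  have hnr0 : (0 : ℝ) < n := by linarith
  have hnD : 512 * D ≤ (n : ℝ) ^ (9 * ε / 8) := by
    have h1 : (512 * D) ^ (8 / (9 * ε)) ≤ n := hn1.trans (by
      have : n1 ≤ n := by omega
      exact_mod_cast this)
    have h2 := Real.rpow_le_rpow (by positivity) h1 (z := 9 * ε / 8) (by positivity)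
    rw [← Real.rpow_mul (by positivity)] at h2
    have h3 : 8 / (9 * ε) * (9 * ε / 8) = 1 := by field_simp
    rwa [h3, Real.rpow_one] at h2
  by_cases hbig : ∃ q ∈ n.primeFactors, n < (q ^ n.factorization q) ^ 2
  · obtain ⟨q, hq, hb⟩ := hbig
    obtain ⟨a, b, c, h1, h2, h3⟩ := up_big hnn hq hb
    refine Or.inl ⟨a, b, c, h1, h2, h3.trans ?_⟩
    have h4 : 0 ≤ level n := le_trans (by positivity) (le_max_left _ _)
    exact le_mul_of_one_le_right h4 (Real.one_le_rpow hnr1 hε.le)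
  push Not at hbig
  obtain ⟨x, y, z, hx, hy, hz, hxy, hxz, hyz, hxyz, hx2, hy2, hz2⟩ :=
    three_factors (by omega) hbig
  rw [← hxyz] at hx2 hy2 hz2
  obtain ⟨a, b, c, d, hv, hw, hdet, hpos, h3v, h4v, hqq⟩ := lattice hx hy hz hxy hxz hyz
  have hdvd : ∀ a b : ℤ, ((x : ℤ) ∣ a ∧ (y : ℤ) ∣ b ∧ (z : ℤ) ∣ a + b) →
      (n : ℤ) ∣ a * b * (a + b) := by
    intro a b h
    rw [← hxyz]
    push_cast
    exact mul_dvd_mul (mul_dvd_mul h.1 h.2.1) h.2.2
  have hposR : (0 : ℝ) < ((a ^ 2 + b ^ 2 : ℤ) : ℝ) := by exact_mod_cast hpos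
  rcases le_or_gt ((a ^ 2 + b ^ 2 : ℤ) : ℝ) ((n : ℝ) ^ (1 - ε / 4)) with hshort | hlong
  · -- a short vector
    refine Or.inr ⟨a, b, ?_, hshort, hdvd a b hv⟩
    intro h0
    have h1 : a = 0 ∨ b = 0 ∨ a + b = 0 := by
      rcases mul_eq_zero.1 h0 with h | h
      · rcases mul_eq_zero.1 h with h | h
        · exact Or.inl h
        · exact Or.inr (Or.inl h)
      · exact Or.inr (Or.inr h)
    have h2 := long_of_zero hx hy hz hxy hxz hyz hx2 hy2 hz2 hv hpos h1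
    rw [hxyz] at h2
    have h3 : (n : ℝ) ≤ ((a ^ 2 + b ^ 2 : ℤ) : ℝ) := by exact_mod_cast h2
    have h4 : (n : ℝ) ^ (1 - ε / 4) < (n : ℝ) ^ (1 : ℝ) :=
      Real.rpow_lt_rpow_of_exponent_lt (by linarith) (by linarith)
    rw [Real.rpow_one] at h4
    linarith
  · -- a coprime vector
    left
    obtain ⟨k, hk, hg⟩ := coprime_vec (Nat.mul_pos (Nat.mul_pos hx hy) hz) hdet hqq
    rw [hxyz] at hk hdet h3v h4v
    obtain ⟨A, hAe⟩ : ∃ A, A = c + k * a := ⟨_, rfl⟩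
    obtain ⟨B, hBe⟩ : ∃ B, B = d + k * b := ⟨_, rfl⟩
    rw [← hAe, ← hBe] at hg
    have hAB : (x : ℤ) ∣ A ∧ (y : ℤ) ∣ B ∧ (z : ℤ) ∣ A + B := by
      obtain ⟨v1, v2, v3⟩ := hv
      obtain ⟨w1, w2, w3⟩ := hw
      refine ⟨?_, ?_, ?_⟩
      · rw [hAe]; exact dvd_add w1 (v1.mul_left _)
      · rw [hBe]; exact dvd_add w2 (v2.mul_left _)
      · have e : A + B = (c + d) + k * (a + b) := by rw [hAe, hBe]; ring
        rw [e]
        exact dvd_add w3 (v3.mul_left _)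
    have hABpos : 0 < A ^ 2 + B ^ 2 := by
      rcases eq_or_ne A 0 with h | h
      · rcases eq_or_ne B 0 with h' | h'
        · rw [h, h'] at hg
          simp at hg
        · positivity
      · positivity
    have hne : ¬ (A = 0 ∨ B = 0 ∨ A + B = 0) := by
      intro h
      have h1 := long_of_zero hx hy hz hxy hxz hyz hx2 hy2 hz2 hAB hABpos h
      rw [hxyz] at h1
      have h2 : A ^ 2 + B ^ 2 ≤ 2 := by
        rcases h with h | h | h
        · rw [h, Int.gcd_zero_left] at hg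
          have : B ^ 2 = 1 := by rw [← sq_abs, Int.abs_eq_natAbs, hg]; norm_num
          rw [h, this]; norm_num
        · rw [h, Int.gcd_zero_right] at hg
          have : A ^ 2 = 1 := by rw [← sq_abs, Int.abs_eq_natAbs, hg]; norm_num
          rw [h, this]; norm_num
        · have hB : B = -A := by linarith
          rw [hB, Int.gcd_neg, Int.gcd_self] at hg
          have : A ^ 2 = 1 := by rw [← sq_abs, Int.abs_eq_natAbs, hg]; norm_num
          rw [hB, neg_sq, this]; norm_num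
      have h3 : (3 : ℤ) ≤ n := by exact_mod_cast hn3
      linarith
    push Not at hne
    obtain ⟨a', b', c', g1, g2, g3, g4, g5⟩ := pos_triple hne.1 hne.2.1 hne.2.2 hg
    have hABne : A * B * (A + B) ≠ 0 := mul_ne_zero (mul_ne_zero hne.1 hne.2.1) hne.2.2
    refine ⟨a', b', c', ⟨g1, g2, g3, g4⟩, ?_, ?_⟩
    · rw [g5]
      exact Int.natCast_dvd.1 (hdvd A B hAB)
    -- the size
    obtain ⟨q, hqe⟩ : ∃ q : ℝ, q = ((a ^ 2 + b ^ 2 : ℤ) : ℝ) := ⟨_, rfl⟩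
    obtain ⟨r, hre⟩ : ∃ r : ℝ, r = ((c ^ 2 + d ^ 2 : ℤ) : ℝ) := ⟨_, rfl⟩
    obtain ⟨K, hK⟩ : ∃ K : ℝ, K = 8 ^ n.primeFactors.card := ⟨_, rfl⟩
    have hK1 : 1 ≤ K := by rw [hK]; exact one_le_pow₀ (by norm_num)
    have hkK : (k : ℝ) ≤ K := by rw [hK]; exact_mod_cast hk
    obtain ⟨W, hW⟩ : ∃ W : ℝ, W = (n : ℝ) ^ (1 + ε / 4) := ⟨_, rfl⟩
    have hW0 : 0 < W := by rw [hW]; positivity
    have hnW : (n : ℝ) ≤ W := by
      rw [hW]
      calc (n : ℝ) = (n : ℝ) ^ (1 : ℝ) := (Real.rpow_one _).symm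
        _ ≤ _ := Real.rpow_le_rpow_of_exponent_le hnr1 (by linarith)
    rw [← hqe] at hposR hlong
    have h3r : 3 * q ^ 2 ≤ 4 * (n : ℝ) ^ 2 := by
      rw [hqe]; exact_mod_cast h3v
    have h4r : 4 * (q * r) ≤ 4 * (n : ℝ) ^ 2 + q ^ 2 := by
      rw [hqe, hre]; exact_mod_cast h4v
    have hq2n : q ≤ 2 * n := by
      by_contra hcon
      rw [not_le] at hcon
      have e1 : (2 * (n : ℝ)) ^ 2 < q ^ 2 := pow_lt_pow_left₀ hcon (by positivity) two_ne_zero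
      have e2 : (0 : ℝ) ≤ (n : ℝ) ^ 2 := by positivity
      linarith
    have hqW : (n : ℝ) ^ 2 ≤ q * W := by
      have e1 : (n : ℝ) ^ 2 = (n : ℝ) ^ (1 - ε / 4) * W := by
        rw [hW, ← Real.rpow_add hnr0, ← Real.rpow_natCast (n : ℝ) 2]
        congr 1
        push_cast
        ring
      rw [e1]
      exact mul_le_mul_of_nonneg_right hlong.le hW0.le
    have hr : r ≤ W + q / 4 := by
      have e1 : q * r ≤ q * (W + q / 4) := by
        have e2 : q * (W + q / 4) = q * W + q ^ 2 / 4 := by ring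
        linarith
      exact le_of_mul_le_mul_left e1 hposR
    have hS : ((A ^ 2 + B ^ 2 : ℤ) : ℝ) ≤ 8 * K ^ 2 * W := by
      have e1 : ((A ^ 2 + B ^ 2 : ℤ) : ℝ) ≤ 2 * r + 2 * (k : ℝ) ^ 2 * q := by
        have e2 : A ^ 2 + B ^ 2 ≤ 2 * (c ^ 2 + d ^ 2) + 2 * (k : ℤ) ^ 2 * (a ^ 2 + b ^ 2) := by
          have i1 := sq_nonneg (c - k * a)
          have i2 := sq_nonneg (d - k * b)
          rw [hAe, hBe]
          linarith
        rw [hre, hqe]
        exact_mod_cast e2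
      have e3 : (k : ℝ) ^ 2 ≤ K ^ 2 := pow_le_pow_left₀ (Nat.cast_nonneg _) hkK 2
      have e4 : (1 : ℝ) ≤ K ^ 2 := one_le_pow₀ hK1
      have e5 : (k : ℝ) ^ 2 * q ≤ K ^ 2 * (2 * W) :=
        mul_le_mul e3 (hq2n.trans (by linarith)) hposR.le (by positivity)
      have e6 : 1 * (3 * W) ≤ K ^ 2 * (3 * W) := mul_le_mul_of_nonneg_right e4 (by positivity)
      have e7 : 0 ≤ K ^ 2 * W := by positivity
      linarith
    have hrad2 : ((rad (a' * b' * c') : ℕ) : ℝ) ^ 2 ≤ (((A ^ 2 + B ^ 2 : ℤ) : ℝ)) ^ 3 := by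
      have hne' : (A * B * (A + B)).natAbs ≠ 0 := Int.natAbs_ne_zero.2 hABne
      have e1 : ((rad (a' * b' * c') : ℕ) : ℝ) ≤ (((A * B * (A + B)).natAbs : ℕ) : ℝ) := by
        rw [g5]
        exact_mod_cast rad_le hne'
      have e2 : ((((A * B * (A + B)).natAbs : ℕ) : ℝ)) ^ 2 = (((A * B * (A + B)) ^ 2 : ℤ) : ℝ) := by
        rw [Nat.cast_natAbs]
        push_cast
        rw [sq_abs]
      have e3 : (A * B * (A + B)) ^ 2 ≤ (A ^ 2 + B ^ 2) ^ 3 := by
        have f1 : 4 * (A * B) ^ 2 ≤ (A ^ 2 + B ^ 2) ^ 2 := by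
          have := sq_nonneg (A ^ 2 - B ^ 2)
          linarith
        have f2 : (A + B) ^ 2 ≤ 2 * (A ^ 2 + B ^ 2) := by
          have := sq_nonneg (A - B)
          linarith
        have f3 : 4 * (A * B) ^ 2 * (A + B) ^ 2 ≤ (A ^ 2 + B ^ 2) ^ 2 * (2 * (A ^ 2 + B ^ 2)) :=
          mul_le_mul f1 f2 (sq_nonneg _) (sq_nonneg _)
        have f4 : 0 ≤ (A ^ 2 + B ^ 2) ^ 3 := by positivity
        have f5 : 4 * (A * B) ^ 2 * (A + B) ^ 2 = 4 * (A * B * (A + B)) ^ 2 := by ring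
        have f6 : (A ^ 2 + B ^ 2) ^ 2 * (2 * (A ^ 2 + B ^ 2)) = 2 * (A ^ 2 + B ^ 2) ^ 3 := by ring
        rw [f5, f6] at f3
        linarith only [f3, f4]
      calc ((rad (a' * b' * c') : ℕ) : ℝ) ^ 2 ≤ ((((A * B * (A + B)).natAbs : ℕ) : ℝ)) ^ 2 :=
            pow_le_pow_left₀ (Nat.cast_nonneg _) e1 2
        _ = (((A * B * (A + B)) ^ 2 : ℤ) : ℝ) := e2
        _ ≤ (((A ^ 2 + B ^ 2) ^ 3 : ℤ) : ℝ) := by exact_mod_cast e3
        _ = _ := by push_cast; ring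
    have hKn : K ^ 6 ≤ D * (n : ℝ) ^ (ε / 8) := by
      have e1 := hA n (by omega)
      have e2 : K ^ 6 = (8 ^ 6 : ℝ) ^ n.primeFactors.card := by
        rw [hK, ← pow_mul, ← pow_mul, mul_comm]
      rw [e2]
      exact e1
    have hfin : ((rad (a' * b' * c') : ℕ) : ℝ) ^ 2 ≤ ((n : ℝ) ^ (3 / 2 + ε)) ^ 2 := by
      have e0 : (0 : ℝ) ≤ ((A ^ 2 + B ^ 2 : ℤ) : ℝ) := by exact_mod_cast hABpos.le
      have e1 : (((A ^ 2 + B ^ 2 : ℤ) : ℝ)) ^ 3 ≤ (8 * K ^ 2 * W) ^ 3 := pow_le_pow_left₀ e0 hS 3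
      have e2 : (8 * K ^ 2 * W) ^ 3 = 512 * K ^ 6 * W ^ 3 := by ring
      have e3 : W ^ 3 = (n : ℝ) ^ (3 + 3 * ε / 4) := by
        rw [hW, ← Real.rpow_natCast _ 3, ← Real.rpow_mul hnr0.le]
        congr 1
        push_cast
        ring
      have e4 : ((n : ℝ) ^ (3 / 2 + ε)) ^ 2 = (n : ℝ) ^ (3 + 2 * ε) := by
        rw [← Real.rpow_natCast _ 2, ← Real.rpow_mul hnr0.le]
        congr 1
        push_cast
        ring
      rw [e4]
      calc ((rad (a' * b' * c') : ℕ) : ℝ) ^ 2 ≤ 512 * K ^ 6 * W ^ 3 :=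
            hrad2.trans (e1.trans (le_of_eq e2))
        _ ≤ 512 * (D * (n : ℝ) ^ (ε / 8)) * (n : ℝ) ^ (3 + 3 * ε / 4) := by
            rw [e3]
            exact mul_le_mul_of_nonneg_right (mul_le_mul_of_nonneg_left hKn (by norm_num))
              (by positivity)
        _ = (512 * D) * (n : ℝ) ^ (3 + 7 * ε / 8) := by
            have : (n : ℝ) ^ (3 + 7 * ε / 8) = (n : ℝ) ^ (ε / 8) * (n : ℝ) ^ (3 + 3 * ε / 4) := by
              rw [← Real.rpow_add hnr0]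
              congr 1
              ring
            rw [this]
            ring
        _ ≤ (n : ℝ) ^ (9 * ε / 8) * (n : ℝ) ^ (3 + 7 * ε / 8) :=
            mul_le_mul_of_nonneg_right hnD (by positivity)
        _ = (n : ℝ) ^ (3 + 2 * ε) := by
            rw [← Real.rpow_add hnr0]
            congr 1
            ring
    have hfin2 : ((rad (a' * b' * c') : ℕ) : ℝ) ≤ (n : ℝ) ^ (3 / 2 + ε) :=
      (sq_le_sq₀ (Nat.cast_nonneg _) (by positivity)).1 hfin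
    calc ((rad (a' * b' * c') : ℕ) : ℝ) ≤ (n : ℝ) ^ (3 / 2 : ℝ) * (n : ℝ) ^ ε := by
          rw [← Real.rpow_add hnr0]
          exact hfin2
      _ ≤ level n * (n : ℝ) ^ ε :=
          mul_le_mul_of_nonneg_right (le_max_left _ _) (by positivity)

end Pool.Agent.TH194.MR
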